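import Mathlib

/-!
Definitions for the results on idempotent binary maps preserving a family of equivalence
relations. An equivalence relation on `E` is a term of type `Setoid E`; a family is a set of
such terms.
-/

namespace Pool.Agent.Helper70.IdemDefs

variable {E : Type*}

/-- The map `f : E × E → E` (written in curried form) preserves the equivalence relation `θ`. -/
def Preserves (f : E → E → E) (θ : Setoid E) : Prop :=
  ∀ x x' y y', θ x x' → θ y y' → θ (f x y) (f x' y')

/-- Property (P) of the problem: the two projections are the only idempotent maps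
`E × E → E` that preserve every member of the family. -/
def PropertyP (F : Set (Setoid E)) : Prop :=
  ∀ f : E → E → E, (∀ x, f x x = x) → (∀ θ ∈ F, Preserves f θ) →
    (∀ x y, f x y = x) ∨ (∀ x y, f x y = y)

/-- The family is square-free: for different members `θ`, `φ`, every closed walk
`p θ q φ r θ s φ p` is degenerate, that is, `p = q` and `r = s`, or `q = r` and `s = p`. -/
def SquareFree (F : Set (Setoid E)) : Prop :=
  ∀ θ ∈ F, ∀ φ ∈ F, θ ≠ φ → ∀ p q r s, θ p q → φ q r → θ r s → φ s p →
    (p = q ∧ r = s) ∨ (q = r ∧ s = p)

/-- Every point lies in non-singleton classes of at least two different members. -/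
def TwoBlocks (F : Set (Setoid E)) : Prop :=
  ∀ x, ∃ θ ∈ F, ∃ φ ∈ F, θ ≠ φ ∧ (∃ y, y ≠ x ∧ θ x y) ∧ (∃ y, y ≠ x ∧ φ x y)

end Pool.Agent.Helper70.IdemDefs
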