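import Mathlib
import Pool.Agent.Helper70.IdemDefs

/-!
Families of equivalence relations and idempotent binary maps preserving them.
-/

namespace Pool.Agent.Helper70.SqFree

open Classical
open Pool.Agent.Helper70.IdemDefs

variable {E : Type*}

/-! ### Reduced paths as lists -/

abbrev Pth (E : Type*) := List (Setoid E × E)

def ep (y : E) : Pth E → E
  | [] => y
  | (_, x) :: _ => x

def hd (θ : Setoid E) : Pth E → Prop
  | [] => True
  | (φ, _) :: _ => φ ≠ θ

def Red (F : Set (Setoid E)) (y : E) : Pth E → Prop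
  | [] => True
  | (θ, x) :: P => θ ∈ F ∧ θ (ep y P) x ∧ x ≠ ep y P ∧ hd θ P ∧ Red F y P

lemma red_nil (F : Set (Setoid E)) (y : E) : Red F y [] := trivial

noncomputable def pop (θ : Setoid E) : Pth E → Pth E
  | [] => []
  | (φ, a) :: Q => if φ = θ then Q else (φ, a) :: Q

noncomputable def push (y : E) (Q : Pth E) (θ : Setoid E) (x : E) : Pth E :=
  if x = ep y Q then Q else (θ, x) :: Q

noncomputable def move (y : E) (P : Pth E) (θ : Setoid E) (x : E) : Pth E :=
  push y (pop θ P) θ x

lemma ep_push (y : E) (Q : Pth E) (θ : Setoid E) (x : E) : ep y (push y Q θ x) = x := by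
  unfold push
  split_ifs with h
  · exact h.symm
  · rfl

lemma ep_move (y : E) (P : Pth E) (θ : Setoid E) (x : E) : ep y (move y P θ x) = x :=
  ep_push _ _ _ _

lemma pop_of_hd {θ : Setoid E} {P : Pth E} (h : hd θ P) : pop θ P = P := by
  cases P with
  | nil => rfl
  | cons a Q =>
    obtain ⟨φ, a⟩ := a
    simp only [pop]
    rw [if_neg h]

lemma red_pop {F : Set (Setoid E)} {y : E} {θ : Setoid E} {P : Pth E} (h : Red F y P) :
    Red F y (pop θ P) := by
  cases P with
  | nil => trivial
  | cons a Q =>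
    obtain ⟨φ, a⟩ := a
    simp only [pop]
    split_ifs with h'
    · exact h.2.2.2.2
    · exact h

lemma hd_pop {F : Set (Setoid E)} {y : E} {θ : Setoid E} {P : Pth E} (h : Red F y P) :
    hd θ (pop θ P) := by
  cases P with
  | nil => trivial
  | cons a Q =>
    obtain ⟨φ, a⟩ := a
    simp only [pop]
    split_ifs with h'
    · subst h'
      exact h.2.2.2.1
    · exact h'

lemma rel_pop {F : Set (Setoid E)} {y : E} {θ : Setoid E} {P : Pth E} (h : Red F y P) :
    θ (ep y (pop θ P)) (ep y P) := by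
  cases P with
  | nil => exact θ.refl _
  | cons a Q =>
    obtain ⟨φ, a⟩ := a
    simp only [pop]
    split_ifs with h'
    · subst h'
      exact h.2.1
    · exact θ.refl _

lemma red_push {F : Set (Setoid E)} {y : E} {θ : Setoid E} {Q : Pth E} {x : E}
    (h : Red F y Q) (hh : hd θ Q) (hF : θ ∈ F) (hx : θ (ep y Q) x) : Red F y (push y Q θ x) := by
  unfold push
  split_ifs with h'
  · exact h
  · exact ⟨hF, hx, h', hh, h⟩

lemma red_move {F : Set (Setoid E)} {y : E} {θ : Setoid E} {P : Pth E} {x : E}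
    (h : Red F y P) (hF : θ ∈ F) (hx : θ (ep y P) x) : Red F y (move y P θ x) :=
  red_push (red_pop h) (hd_pop h) hF (θ.trans (rel_pop h) hx)

lemma pop_push {y : E} {θ : Setoid E} {Q : Pth E} {x : E} (hh : hd θ Q) :
    pop θ (push y Q θ x) = Q := by
  unfold push
  split_ifs with h'
  · exact pop_of_hd hh
  · simp [pop]

lemma move_move {F : Set (Setoid E)} {y : E} {θ : Setoid E} {P : Pth E} {x x' : E}
    (h : Red F y P) : move y (move y P θ x) θ x' = move y P θ x' := by
  unfold move
  rw [pop_push (hd_pop h)]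

lemma move_self {F : Set (Setoid E)} {y : E} {θ : Setoid E} {P : Pth E}
    (h : Red F y P) : move y P θ (ep y P) = P := by
  cases P with
  | nil => simp [move, pop, push]
  | cons a Q =>
    obtain ⟨φ, a⟩ := a
    by_cases h' : φ = θ
    · subst h'
      have h3 : a ≠ ep y Q := h.2.2.1
      show push y (pop φ ((φ, a) :: Q)) φ a = (φ, a) :: Q
      simp only [pop, if_true, push]
      rw [if_neg h3]
    · simp only [move, pop, push, if_neg h']
      simp

lemma move_cons {y : E} {θ : Setoid E} {P : Pth E} {x : E} (hh : hd θ P) (hx : x ≠ ep y P) :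
    move y P θ x = (θ, x) :: P := by
  unfold move push
  rw [pop_of_hd hh, if_neg hx]

lemma length_pop_le (θ : Setoid E) (P : Pth E) : (pop θ P).length ≤ P.length := by
  cases P with
  | nil => simp [pop]
  | cons a Q =>
    obtain ⟨φ, a⟩ := a
    simp only [pop]
    split_ifs <;> simp

lemma length_move_le (y : E) (P : Pth E) (θ : Setoid E) (x : E) :
    (move y P θ x).length ≤ P.length + 1 := by
  have := length_pop_le θ P
  unfold move push
  split_ifs
  · omega
  · simp only [List.length_cons]; omega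

lemma move_eq_of_length {y : E} {P : Pth E} {θ : Setoid E} {x : E}
    (h : (move y P θ x).length = P.length + 1) :
    move y P θ x = (θ, x) :: P ∧ x ≠ ep y P := by
  have h1 := length_pop_le θ P
  unfold move push at h ⊢
  split_ifs at h ⊢ with h2
  · omega
  · simp only [List.length_cons] at h
    have h3 : pop θ P = P := by
      cases P with
      | nil => rfl
      | cons a Q =>
        obtain ⟨φ, a⟩ := a
        simp only [pop] at h ⊢
        split_ifs with h'
        · rw [if_pos h'] at h
          simp at h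
        · rfl
    rw [h3] at h2 ⊢
    exact ⟨rfl, h2⟩

/-! ### Squares -/

lemma square_comm {F : Set (Setoid E)} (hsf : SquareFree F) {y : E} {P : Pth E}
    (hP : Red F y P) {a b : Setoid E} (ha : a ∈ F) (hb : b ∈ F) {q r s : E}
    (h1 : b (ep y P) q) (h2 : a q r) (h3 : a (ep y P) s) (h4 : b s r) :
    move y (move y P b q) a r = move y (move y P a s) b r := by
  by_cases hab : b = a
  · subst hab
    rw [move_move hP, move_move hP]
  · rcases hsf b hb a ha hab (ep y P) q r s h1 h2 (b.symm h4) (a.symm h3) with ⟨e1, e2⟩ | ⟨e1, e2⟩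
    · subst e2
      rw [← e1, move_self hP]
      have := move_self (θ := b) (red_move (x := r) hP ha h3)
      rw [ep_move] at this
      exact this.symm
    · subst e1
      rw [e2, move_self hP]
      have := move_self (θ := a) (red_move (x := q) hP hb h1)
      rw [ep_move] at this
      exact this

/-! ### Folding a sequence -/

noncomputable def fold (y : E) (P : Pth E) (u : ℕ → E) (c : ℕ → Setoid E) : ℕ → Pth E
  | 0 => P
  | n + 1 => move y (fold y P u c n) (c n) (u (n + 1))

def full (u : ℕ → E) (c : ℕ → Setoid E) : ℕ → Pth E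
  | 0 => []
  | n + 1 => (c n, u (n + 1)) :: full u c n

lemma length_full (u : ℕ → E) (c : ℕ → Setoid E) (n : ℕ) : (full u c n).length = n := by
  induction n with
  | zero => rfl
  | succ n ih => simp [full, ih]

lemma ep_fold {y : E} {P : Pth E} {u : ℕ → E} {c : ℕ → Setoid E} (h : ep y P = u 0) (n : ℕ) :
    ep y (fold y P u c n) = u n := by
  cases n with
  | zero => exact h
  | succ n => exact ep_move _ _ _ _

lemma red_fold {F : Set (Setoid E)} {y : E} {P : Pth E} {u : ℕ → E} {c : ℕ → Setoid E}
    (hP : Red F y P) (h : ep y P = u 0) (hc : ∀ n, c n ∈ F) (hu : ∀ n, c n (u n) (u (n + 1)))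
    (n : ℕ) : Red F y (fold y P u c n) := by
  induction n with
  | zero => exact hP
  | succ n ih =>
    refine red_move ih (hc n) ?_
    rw [ep_fold h]
    exact hu n

lemma length_fold_le (y : E) (P : Pth E) (u : ℕ → E) (c : ℕ → Setoid E) (n : ℕ) :
    (fold y P u c n).length ≤ P.length + n := by
  induction n with
  | zero => exact le_rfl
  | succ n ih =>
    have := length_move_le y (fold y P u c n) (c n) (u (n + 1))
    simp only [fold]
    omega

lemma fold_eq_full {y : E} {u : ℕ → E} {c : ℕ → Setoid E} (h : u 0 = y) {n : ℕ}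
    (hn : (fold y [] u c n).length = n) :
    fold y [] u c n = full u c n ∧ ∀ k < n, u (k + 1) ≠ u k := by
  induction n with
  | zero => exact ⟨rfl, by intro k hk; omega⟩
  | succ n ih =>
    have h1 := length_fold_le y [] u c n
    simp only [List.length_nil, zero_add] at h1
    have h2 := length_move_le y (fold y [] u c n) (c n) (u (n + 1))
    simp only [fold] at hn
    have h3 : (fold y [] u c n).length = n := by omega
    obtain ⟨e1, e2⟩ := ih h3
    have h4 : (move y (fold y [] u c n) (c n) (u (n + 1))).length =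
        (fold y [] u c n).length + 1 := by omega
    obtain ⟨e3, e4⟩ := move_eq_of_length h4
    refine ⟨?_, ?_⟩
    · simp only [fold, full]
      rw [e3, e1]
    · intro k hk
      rcases Nat.lt_succ_iff_lt_or_eq.mp hk with h5 | h5
      · exact e2 k h5
      · subst h5
        rwa [ep_fold (by simpa [ep] using h.symm)] at e4

lemma full_inj {u u' : ℕ → E} {c c' : ℕ → Setoid E} {n : ℕ} (h : full u c n = full u' c' n) :
    (∀ k < n, c k = c' k) ∧ (∀ k < n, u (k + 1) = u' (k + 1)) := by
  induction n with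
  | zero => exact ⟨by intro k hk; omega, by intro k hk; omega⟩
  | succ n ih =>
    simp only [full, List.cons.injEq, Prod.mk.injEq] at h
    obtain ⟨e1, e2⟩ := ih h.2
    refine ⟨?_, ?_⟩
    · intro k hk
      rcases Nat.lt_succ_iff_lt_or_eq.mp hk with h5 | h5
      · exact e1 k h5
      · subst h5; exact h.1.1
    · intro k hk
      rcases Nat.lt_succ_iff_lt_or_eq.mp hk with h5 | h5
      · exact e2 k h5
      · subst h5; exact h.1.2

/-! ### Rays -/

/-- An infinite reduced walk. -/
structure IsRay (F : Set (Setoid E)) (w : ℕ → E) (c : ℕ → Setoid E) : Prop where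
  mem : ∀ n, c n ∈ F
  rel : ∀ n, c n (w n) (w (n + 1))
  ne : ∀ n, w n ≠ w (n + 1)
  cne : ∀ n, c n ≠ c (n + 1)

lemma hd_full {u : ℕ → E} {c : ℕ → Setoid E} {θ : Setoid E} {n : ℕ}
    (h : ∀ m, m + 1 = n → c m ≠ θ) : hd θ (full u c n) := by
  cases n with
  | zero => trivial
  | succ n => exact h n rfl

lemma ep_full {y : E} {u : ℕ → E} {c : ℕ → Setoid E} (h : y = u 0) (n : ℕ) :
    ep y (full u c n) = u n := by
  cases n with
  | zero => exact h
  | succ n => rfl

lemma IsRay.fold_eq {F : Set (Setoid E)} {w : ℕ → E} {c : ℕ → Setoid E} (hw : IsRay F w c)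
    (n : ℕ) : fold (w 0) [] w c n = full w c n := by
  induction n with
  | zero => rfl
  | succ n ih =>
    simp only [fold, full]
    rw [ih]
    refine move_cons (hd_full ?_) ?_
    · intro m hm
      subst hm
      exact hw.cne m
    · rw [ep_full rfl]
      exact (hw.ne n).symm

lemma exists_ray {F : Set (Setoid E)} (hl : TwoBlocks F) {x₀ x₁ : E} {θ : Setoid E} (hθ : θ ∈ F)
    (hne : x₀ ≠ x₁) (hr : θ x₀ x₁) :
    ∃ w c, IsRay F w c ∧ w 0 = x₀ ∧ w 1 = x₁ ∧ c 0 = θ := by
  have hnext : ∀ s : E × Setoid E, ∃ t : E × Setoid E,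
      t.2 ∈ F ∧ s.2 ≠ t.2 ∧ s.1 ≠ t.1 ∧ t.2 s.1 t.1 := by
    rintro ⟨b, φ⟩
    obtain ⟨α, hα, β, hβ, hαβ, ⟨y, hy1, hy2⟩, ⟨z, hz1, hz2⟩⟩ := hl b
    by_cases h : φ = α
    · refine ⟨(z, β), hβ, ?_, hz1.symm, hz2⟩
      rw [h]; exact hαβ
    · exact ⟨(y, α), hα, h, hy1.symm, hy2⟩
  choose nx hnx using hnext
  let s : ℕ → E × Setoid E := fun n => Nat.rec (x₁, θ) (fun _ t => nx t) n
  have s0 : s 0 = (x₁, θ) := rfl
  have ss : ∀ n, s (n + 1) = nx (s n) := fun n => rfl
  refine ⟨fun n => Nat.casesOn n x₀ (fun m => (s m).1), fun n => (s n).2, ?_, rfl, rfl, rfl⟩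
  refine ⟨?_, ?_, ?_, ?_⟩
  · intro n
    cases n with
    | zero => exact hθ
    | succ n => rw [ss]; exact (hnx (s n)).1
  · intro n
    cases n with
    | zero => exact hr
    | succ n =>
      show (s (n + 1)).2 (s n).1 (s (n + 1)).1
      rw [ss]; exact (hnx (s n)).2.2.2
  · intro n
    cases n with
    | zero => exact hne
    | succ n =>
      show (s n).1 ≠ (s (n + 1)).1
      rw [ss]; exact (hnx (s n)).2.2.1
  · intro n
    show (s n).2 ≠ (s (n + 1)).2
    rw [ss]; exact (hnx (s n)).2.1

/-! ### Closed reduced walks -/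

/-- There is a closed reduced walk of length `n`. -/
def ClosedF (F : Set (Setoid E)) (n : ℕ) : Prop :=
  0 < n ∧ ∃ (w : ℕ → E) (c : ℕ → Setoid E),
    (∀ i < n, c i ∈ F ∧ c i (w i) (w (i + 1)) ∧ w i ≠ w (i + 1)) ∧
    (∀ i, i + 1 < n → c i ≠ c (i + 1)) ∧ w 0 = w n

lemma exists_closed [Finite E] {F : Set (Setoid E)} {w : ℕ → E} {c : ℕ → Setoid E}
    (hw : IsRay F w c) : ∃ n, ClosedF F n := by
  obtain ⟨a, b, hab, he⟩ : ∃ a b, a < b ∧ w a = w b := by
    obtain ⟨a, b, hab, he⟩ := Finite.exists_ne_map_eq_of_infinite w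
    rcases lt_or_gt_of_ne hab with h | h
    · exact ⟨a, b, h, he⟩
    · exact ⟨b, a, h, he.symm⟩
  refine ⟨b - a, by omega, fun i => w (a + i), fun i => c (a + i), ?_, ?_, ?_⟩
  · intro i _
    exact ⟨hw.mem _, hw.rel _, hw.ne _⟩
  · intro i _
    exact hw.cne _
  · show w (a + 0) = w (a + (b - a))
    rw [Nat.add_zero, Nat.add_sub_cancel' hab.le]
    exact he

lemma red_to_fun {F : Set (Setoid E)} {y : E} {P : Pth E} (h : Red F y P) :
    ∃ (w : ℕ → E) (c : ℕ → Setoid E), w 0 = y ∧ w P.length = ep y P ∧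
      (∀ i < P.length, c i ∈ F ∧ c i (w i) (w (i + 1)) ∧ w i ≠ w (i + 1)) ∧
      (∀ i, i + 1 < P.length → c i ≠ c (i + 1)) ∧
      (∀ θ, hd θ P → ∀ i, i + 1 = P.length → c i ≠ θ) := by
  induction P with
  | nil =>
    refine ⟨fun _ => y, fun _ => ⊤, rfl, rfl, ?_, ?_, ?_⟩
    · intro i hi; simp at hi
    · intro i hi; simp at hi
    · intro θ _ i hi; simp at hi
  | cons a Q ih =>
    obtain ⟨θ, x⟩ := a
    obtain ⟨hF, hrel, hne, hh, hQ⟩ := h
    obtain ⟨w, c, h0, hl, h1, h2, h3⟩ := ih hQ
    refine ⟨fun i => if i ≤ Q.length then w i else x, fun i => if i < Q.length then c i else θ,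
      ?_, ?_, ?_, ?_, ?_⟩
    · simp [h0]
    · simp [ep]
    · intro i hi
      simp only [List.length_cons] at hi
      beta_reduce
      by_cases hi' : i < Q.length
      · rw [if_pos hi', if_pos hi'.le, if_pos (by omega)]
        exact h1 i hi'
      · have : i = Q.length := by omega
        subst this
        rw [if_neg (by omega), if_pos le_rfl, if_neg (by omega), hl]
        exact ⟨hF, hrel, hne.symm⟩
    · intro i hi
      simp only [List.length_cons] at hi
      beta_reduce
      by_cases hi' : i + 1 < Q.length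
      · rw [if_pos (by omega), if_pos hi']
        exact h2 i hi'
      · have : i + 1 = Q.length := by omega
        rw [if_pos (by omega), if_neg (by omega)]
        exact h3 θ hh i this
    · intro φ hφ i hi
      simp only [List.length_cons] at hi
      beta_reduce
      rw [if_neg (by omega)]
      exact hφ

lemma closed_of_red {F : Set (Setoid E)} {y : E} {P : Pth E} (h : Red F y P)
    (hy : ep y P = y) (hP : P ≠ []) : ClosedF F P.length := by
  obtain ⟨w, c, h0, hl, h1, h2, _⟩ := red_to_fun h
  refine ⟨List.length_pos_iff.mpr hP, w, c, h1, h2, ?_⟩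
  rw [h0, hl, hy]

/-- A shortest closed reduced walk extends to a periodic ray. -/
lemma exists_periodic_ray {F : Set (Setoid E)} {L : ℕ} (hL : ClosedF F L)
    (hmin : ∀ n, ClosedF F n → L ≤ n) :
    ∃ w c, IsRay F w c ∧ w L = w 0 ∧ 0 < L ∧ (∀ m, m + 1 = L → c m ≠ c 0) ∧
      (∀ n, w n = w (n % L)) := by
  obtain ⟨hpos, w, c, h1, h2, h3⟩ := hL
  have hcyc : ∀ m, m + 1 = L → c m ≠ c 0 := by
    intro m hm heq
    by_cases hL1 : L = 1
    · subst hL1
      exact (h1 0 (by omega)).2.2 h3
    by_cases hL2 : L = 2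
    · subst hL2
      have : m = 1 := by omega
      subst this
      exact h2 0 (by omega) heq.symm
    have hL3 : 3 ≤ L := by omega
    by_cases hw : w 1 = w m
    · have : ClosedF F (L - 2) := by
        refine ⟨by omega, fun i => w (i + 1), fun i => c (i + 1), ?_, ?_, ?_⟩
        · intro i hi
          exact h1 (i + 1) (by omega)
        · intro i hi
          exact h2 (i + 1) (by omega)
        · show w (0 + 1) = w (L - 2 + 1)
          have : L - 2 + 1 = m := by omega
          rw [this, Nat.zero_add]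
          exact hw
      have := hmin _ this
      omega
    · have : ClosedF F (L - 1) := by
        refine ⟨by omega, fun i => if i < L - 1 then w (i + 1) else w 1, fun i => c (i + 1),
          ?_, ?_, ?_⟩
        · intro i hi
          beta_reduce
          by_cases hi' : i + 1 < L - 1
          · rw [if_pos hi, if_pos hi']
            exact h1 (i + 1) (by omega)
          · have hi2 : i + 1 = m := by omega
            rw [if_pos hi, if_neg hi', hi2]
            refine ⟨(h1 m (by omega)).1, ?_, fun h => hw h.symm⟩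
            have a1 := (h1 m (by omega)).2.1
            have a2 := (h1 0 (by omega)).2.1
            rw [hm, ← h3] at a1
            rw [← heq] at a2
            exact (c m).trans a1 a2
        · intro i hi
          exact h2 (i + 1) (by omega)
        · show (if 0 < L - 1 then w (0 + 1) else w 1) = (if L - 1 < L - 1 then _ else w 1)
          rw [if_pos (by omega), if_neg (by omega)]
      have := hmin _ this
      omega
  refine ⟨fun i => w (i % L), fun i => c (i % L), ?_, ?_, hpos, ?_, ?_⟩
  · have key : ∀ n, (n % L + 1 < L ∧ (n + 1) % L = n % L + 1) ∨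
        (n % L + 1 = L ∧ (n + 1) % L = 0) := by
      intro n
      have h4 := Nat.mod_lt n hpos
      rcases Nat.lt_or_ge (n % L + 1) L with h5 | h5
      · left
        refine ⟨h5, ?_⟩
        rw [Nat.add_mod, Nat.mod_eq_of_lt (a := 1) (by omega), Nat.mod_eq_of_lt h5]
      · right
        have h6 : n % L + 1 = L := by omega
        refine ⟨h6, ?_⟩
        have : (n + 1) % L = (n % L + 1) % L := by
          rw [Nat.mod_add_mod]
        rw [this, h6, Nat.mod_self]
    refine ⟨?_, ?_, ?_, ?_⟩
    · intro n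
      exact (h1 _ (Nat.mod_lt n hpos)).1
    · intro n
      show c (n % L) (w (n % L)) (w ((n + 1) % L))
      rcases key n with ⟨h5, h6⟩ | ⟨h5, h6⟩
      · rw [h6]
        exact (h1 _ (by omega)).2.1
      · rw [h6, h3]
        have := (h1 (n % L) (by omega)).2.1
        rwa [h5] at this
    · intro n
      show w (n % L) ≠ w ((n + 1) % L)
      rcases key n with ⟨h5, h6⟩ | ⟨h5, h6⟩
      · rw [h6]
        exact (h1 _ (by omega)).2.2
      · rw [h6, h3]
        have := (h1 (n % L) (by omega)).2.2
        rwa [h5] at this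
    · intro n
      show c (n % L) ≠ c ((n + 1) % L)
      rcases key n with ⟨h5, h6⟩ | ⟨h5, h6⟩
      · rw [h6]
        exact h2 _ h5
      · rw [h6]
        exact hcyc _ h5
  · show w (L % L) = w (0 % L)
    rw [Nat.mod_self, Nat.zero_mod]
  · intro m hm
    show c (m % L) ≠ c (0 % L)
    rw [Nat.zero_mod, Nat.mod_eq_of_lt (by omega)]
    exact hcyc m hm
  · intro n
    show w (n % L) = w (n % L % L)
    rw [Nat.mod_mod]

/-! ### The main dichotomy on a shortest closed walk -/

section Main

variable {F : Set (Setoid E)} {f : E → E → E}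

lemma pres_left (hf : ∀ θ ∈ F, Preserves f θ) {θ : Setoid E} (hθ : θ ∈ F) {x x' : E} (y : E)
    (h : θ x x') : θ (f x y) (f x' y) := hf θ hθ x x' y y h (θ.refl y)

lemma pres_right (hf : ∀ θ ∈ F, Preserves f θ) {θ : Setoid E} (hθ : θ ∈ F) (x : E) {y y' : E}
    (h : θ y y') : θ (f x y) (f x y') := hf θ hθ x x y y' (θ.refl x) h

lemma slide (hsf : SquareFree F) (hf : ∀ θ ∈ F, Preserves f θ) {w : ℕ → E} {c : ℕ → Setoid E}
    (hc : ∀ n, c n ∈ F) (hw : ∀ n, c n (w n) (w (n + 1))) {y : E} {P : Pth E} (t : ℕ)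
    (hP : Red F y P) (he : ep y P = f (w 0) (w t)) (n : ℕ) :
    move y (fold y P (fun s => f (w s) (w t)) c n) (c t) (f (w n) (w (t + 1))) =
      fold y (move y P (c t) (f (w 0) (w (t + 1)))) (fun s => f (w s) (w (t + 1))) c n := by
  induction n with
  | zero => rfl
  | succ n ih =>
    have hR : Red F y (fold y P (fun s => f (w s) (w t)) c n) :=
      red_fold hP he hc (fun m => pres_left hf (hc m) _ (hw m)) n
    have hE : ep y (fold y P (fun s => f (w s) (w t)) c n) = f (w n) (w t) :=
      ep_fold (u := fun s => f (w s) (w t)) he n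
    simp only [fold]
    rw [← ih]
    refine (square_comm hsf hR (hc n) (hc t) ?_ ?_ ?_ ?_).symm
    · rw [hE]; exact pres_right hf (hc t) _ (hw t)
    · exact pres_left hf (hc n) _ (hw n)
    · rw [hE]; exact pres_left hf (hc n) _ (hw n)
    · exact pres_right hf (hc t) _ (hw t)

lemma triangle (hsf : SquareFree F) (hid : ∀ x, f x x = x) (hf : ∀ θ ∈ F, Preserves f θ)
    {w : ℕ → E} {c : ℕ → Setoid E}
    (hc : ∀ n, c n ∈ F) (hw : ∀ n, c n (w n) (w (n + 1))) (n : ℕ) :
    fold (w 0) [] w c n =
      fold (w 0) (fold (w 0) [] (fun t => f (w 0) (w t)) c n) (fun s => f (w s) (w n)) c n := by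
  induction n with
  | zero => rfl
  | succ n ih =>
    have hW : Red F (w 0) (fold (w 0) [] w c n) := red_fold (red_nil F (w 0)) rfl hc hw n
    have hR : Red F (w 0) (fold (w 0) [] (fun t => f (w 0) (w t)) c n) :=
      red_fold (red_nil F (w 0)) (by simp [ep, hid]) hc (fun m => pres_right hf (hc m) _ (hw m)) n
    have hE : ep (w 0) (fold (w 0) [] (fun t => f (w 0) (w t)) c n) = f (w 0) (w n) :=
      ep_fold (u := fun t => f (w 0) (w t)) (by simp [ep, hid]) n
    have h1 := slide hsf hf hc hw n hR hE n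
    have h2 : fold (w 0) [] w c (n + 1) =
        move (w 0) (move (w 0) (fold (w 0) [] w c n) (c n) (f (w n) (w (n + 1)))) (c n)
          (f (w (n + 1)) (w (n + 1))) := by
      rw [move_move hW, hid]
      rfl
    rw [h2, ih, h1]
    rfl

lemma length_fold_add {y : E} {P : Pth E} {u : ℕ → E} {c : ℕ → Setoid E} (h : ep y P = u 0)
    (hh : hd (c 0) P) {L : ℕ} (hne : ∀ k < L, u (k + 1) ≠ u k)
    (hc : ∀ k, c k ≠ c (k + 1)) {n : ℕ} (hn : n ≤ L) :
    (fold y P u c n).length = P.length + n ∧ hd (c n) (fold y P u c n) := by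
  induction n with
  | zero => exact ⟨rfl, hh⟩
  | succ n ih =>
    obtain ⟨e1, e2⟩ := ih (by omega)
    have h3 : u (n + 1) ≠ ep y (fold y P u c n) := by
      rw [ep_fold h]
      exact hne n (by omega)
    simp only [fold]
    rw [move_cons e2 h3]
    refine ⟨by simp only [List.length_cons, e1]; omega, hc n⟩

lemma dichotomy (hsf : SquareFree F) (hid : ∀ x, f x x = x) (hf : ∀ θ ∈ F, Preserves f θ)
    {w : ℕ → E} {c : ℕ → Setoid E} (hr : IsRay F w c) {L : ℕ} (hL : w L = w 0) (hpos : 0 < L)
    (hcyc : ∀ m, m + 1 = L → c m ≠ c 0) (hmin : ∀ n, ClosedF F n → L ≤ n) :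
    (∀ s < L, f (w s) (w 0) = w s) ∨ (∀ s < L, f (w 0) (w s) = w s) := by
  have hW : fold (w 0) [] w c L = full w c L := hr.fold_eq L
  have hWl : (fold (w 0) [] w c L).length = L := by rw [hW, length_full]
  set R := fold (w 0) [] (fun t => f (w 0) (w t)) c L with hRdef
  set C := fold (w 0) [] (fun s => f (w s) (w 0)) c L with hCdef
  -- the two triangles
  have t1 : full w c L = fold (w 0) R (fun s => f (w s) (w 0)) c L := by
    have := triangle hsf hid hf hr.mem hr.rel L
    rw [hW, hL] at this
    exact this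
  have hf' : ∀ θ ∈ F, Preserves (fun x y => f y x) θ :=
    fun θ hθ x x' y y' h h' => hf θ hθ y y' x x' h' h
  have t2 : full w c L = fold (w 0) C (fun s => f (w 0) (w s)) c L := by
    have := triangle (f := fun x y => f y x) hsf hid hf' hr.mem hr.rel L
    rw [hW, hL] at this
    exact this
  have hRred : Red F (w 0) R :=
    red_fold (red_nil F (w 0)) (by simp [ep, hid]) hr.mem (fun m => pres_right hf (hr.mem m) _ (hr.rel m)) L
  have hCred : Red F (w 0) C :=
    red_fold (red_nil F (w 0)) (by simp [ep, hid]) hr.mem (fun m => pres_left hf (hr.mem m) _ (hr.rel m)) L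
  have hRep : ep (w 0) R = w 0 := by
    rw [hRdef, ep_fold (u := fun t => f (w 0) (w t)) (by simp [ep, hid])]
    show f (w 0) (w L) = w 0
    rw [hL, hid]
  have hCep : ep (w 0) C = w 0 := by
    rw [hCdef, ep_fold (u := fun s => f (w s) (w 0)) (by simp [ep, hid])]
    show f (w L) (w 0) = w 0
    rw [hL, hid]
  have hRle : R.length ≤ L := by
    have := length_fold_le (w 0) [] (fun t => f (w 0) (w t)) c L
    simpa using this
  have hCle : C.length ≤ L := by
    have := length_fold_le (w 0) [] (fun s => f (w s) (w 0)) c L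
    simpa using this
  by_cases hR : R = []
  · left
    rw [hR] at t1
    have h1 : (fold (w 0) [] (fun s => f (w s) (w 0)) c L).length = L := by
      rw [← t1, length_full]
    obtain ⟨e1, _⟩ := fold_eq_full (u := fun s => f (w s) (w 0)) (hid _) h1
    rw [e1] at t1
    have h2 := (full_inj t1).2
    intro s hs
    cases s with
    | zero => exact hid _
    | succ s => exact (h2 s (by omega)).symm
  by_cases hC : C = []
  · right
    rw [hC] at t2
    have h1 : (fold (w 0) [] (fun s => f (w 0) (w s)) c L).length = L := by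
      rw [← t2, length_full]
    obtain ⟨e1, _⟩ := fold_eq_full (u := fun s => f (w 0) (w s)) (hid _) h1
    rw [e1] at t2
    have h2 := (full_inj t2).2
    intro s hs
    cases s with
    | zero => exact hid _
    | succ s => exact (h2 s (by omega)).symm
  exfalso
  have hRL : R.length = L := le_antisymm hRle (hmin _ (closed_of_red hRred hRep hR))
  have hCL : C.length = L := le_antisymm hCle (hmin _ (closed_of_red hCred hCep hC))
  obtain ⟨eR, _⟩ := fold_eq_full (u := fun t => f (w 0) (w t)) (hid _) hRL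
  obtain ⟨_, nC⟩ := fold_eq_full (u := fun s => f (w s) (w 0)) (hid _) hCL
  have hhd : hd (c 0) R := by
    rw [hRdef, eR]
    exact hd_full hcyc
  have := (length_fold_add (u := fun s => f (w s) (w 0)) (c := c) (L := L)
    (by rw [hRep]; exact (hid _).symm) hhd nC hr.cne le_rfl).1
  rw [← t1, length_full, hRL] at this
  omega

/-! ### Spreading -/

def adj (F : Set (Setoid E)) (x y : E) : Prop := ∃ θ ∈ F, θ x y

def steps (F : Set (Setoid E)) : ℕ → E → E → Prop
  | 0, x, y => x = y
  | n + 1, x, y => ∃ z, steps F n x z ∧ adj F z y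

lemma exists_steps (hconn : sSup F = ⊤) (x y : E) : ∃ n, steps F n x y := by
  have h1 : (sSup F) x y := by rw [hconn]; trivial
  rw [Setoid.sSup_eq_eqvGen] at h1
  have h3 : Relation.EqvGen (fun x y => ∃ r ∈ F, r x y) x y := h1
  clear h1
  have h2 : Relation.ReflTransGen (adj F) x y ∧ Relation.ReflTransGen (adj F) y x := by
    induction h3 with
    | rel a b h =>
      obtain ⟨θ, hθ, h⟩ := h
      exact ⟨Relation.ReflTransGen.single ⟨θ, hθ, h⟩,
        Relation.ReflTransGen.single ⟨θ, hθ, θ.symm h⟩⟩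
    | refl a => exact ⟨Relation.ReflTransGen.refl, Relation.ReflTransGen.refl⟩
    | symm a b _ ih => exact ⟨ih.2, ih.1⟩
    | trans a b c _ _ ih1 ih2 => exact ⟨ih1.1.trans ih2.1, ih2.2.trans ih1.2⟩
  replace h2 := h2.1
  clear h3
  induction h2 with
  | refl => exact ⟨0, rfl⟩
  | tail _ h ih =>
    obtain ⟨n, hn⟩ := ih
    exact ⟨n + 1, _, hn, h⟩

lemma exists_bound [Finite E] (hconn : sSup F = ⊤) :
    ∃ D, ∀ x y : E, ∃ n ≤ D, steps F n x y := by
  choose N hN using fun p : E × E => exists_steps hconn p.1 p.2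
  obtain ⟨D, hD⟩ := (Set.finite_range N).bddAbove
  exact ⟨D, fun x y => ⟨N (x, y), hD ⟨(x, y), rfl⟩, hN (x, y)⟩⟩

lemma edge_fix (hsf : SquareFree F) (hf : ∀ θ ∈ F, Preserves f θ) {φ θ : Setoid E}
    (hφ : φ ∈ F) (hθ : θ ∈ F) (hne : φ ≠ θ) {x x' z z' : E} (hx : x ≠ x') (h1 : φ x x')
    (h2 : θ z z') (h3 : f x z = x) (h4 : f x' z = x') : f x z' = x ∧ f x' z' = x' := by
  rcases hsf φ hφ θ hθ hne (f x z) (f x' z) (f x' z') (f x z')
    (pres_left hf hφ _ h1) (pres_right hf hθ _ h2) (pres_left hf hφ _ (φ.symm h1))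
    (pres_right hf hθ _ (θ.symm h2)) with ⟨e1, _⟩ | ⟨e1, e2⟩
  · rw [h3, h4] at e1
    exact absurd e1 hx
  · rw [h3] at e2
    rw [h4] at e1
    exact ⟨e2, e1.symm⟩

lemma interior [Finite E] (hsf : SquareFree F) (hf : ∀ θ ∈ F, Preserves f θ)
    (hconn : sSup F = ⊤) {w : ℕ → E} {c : ℕ → Setoid E} (hr : IsRay F w c) (z₀ : E)
    (h : ∀ s, f (w s) z₀ = w s) : ∃ y, ∀ z, f y z = y := by
  obtain ⟨D, hD⟩ := exists_bound (F := F) hconn
  have key : ∀ n z, steps F n z₀ z → ∀ s, n ≤ s → f (w s) z = w s := by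
    intro n
    induction n with
    | zero =>
      intro z hz s _
      rw [← (show z₀ = z from hz)]
      exact h s
    | succ n ih =>
      rintro z' ⟨z, hz, θ, hθ, hzz⟩ s hs
      obtain ⟨m, rfl⟩ : ∃ m, s = m + 1 := ⟨s - 1, by omega⟩
      have ihz := ih z hz
      by_cases hcm : c m = θ
      · have hcm' : c (m + 1) ≠ θ := by
          rw [← hcm]; exact (hr.cne m).symm
        exact (edge_fix hsf hf (hr.mem (m + 1)) hθ hcm' (hr.ne (m + 1)) (hr.rel (m + 1)) hzz
          (ihz (m + 1) (by omega)) (ihz (m + 1 + 1) (by omega))).1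
      · exact (edge_fix hsf hf (hr.mem m) hθ hcm (hr.ne m) (hr.rel m) hzz
          (ihz m (by omega)) (ihz (m + 1) (by omega))).2
  refine ⟨w D, fun z => ?_⟩
  obtain ⟨n, hn, hs⟩ := hD z₀ z
  exact key n z hs D hn

lemma spread_one [Finite E] (hsf : SquareFree F) (hl : TwoBlocks F) (hid : ∀ x, f x x = x)
    (hf : ∀ θ ∈ F, Preserves f θ)
    (hconn : sSup F = ⊤) {y x : E} (hy : ∀ z, f y z = y) (hyx : adj F y x) :
    ∀ z, f x z = x := by
  by_cases hne : y = x
  · subst hne; exact hy
  obtain ⟨θ₀, hθ₀, hrel⟩ := hyx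
  obtain ⟨w, c, hr, hw0, hw1, _⟩ := exists_ray hl hθ₀ hne hrel
  obtain ⟨D, hD⟩ := exists_bound (F := F) hconn
  -- the general step
  have step : ∀ t z z', (∃ θ ∈ F, θ z z') → (∀ s ≤ t + 1, f (w s) z = w s) →
      ∀ s ≤ t, f (w s) z' = w s := by
    rintro t z z' ⟨θ, hθ, hzz⟩ hz s hs
    cases s with
    | zero => rw [hw0]; exact hy z'
    | succ m =>
      by_cases hcm : c m = θ
      · have hcm' : c (m + 1) ≠ θ := by
          rw [← hcm]; exact (hr.cne m).symm
        exact (edge_fix hsf hf (hr.mem (m + 1)) hθ hcm' (hr.ne (m + 1)) (hr.rel (m + 1)) hzz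
          (hz (m + 1) (by omega)) (hz (m + 1 + 1) (by omega))).1
      · exact (edge_fix hsf hf (hr.mem m) hθ hcm (hr.ne m) (hr.rel m) hzz
          (hz m (by omega)) (hz (m + 1) (by omega))).2
  have diag : ∀ t, ∀ s ≤ t, f (w s) (w t) = w s := by
    intro t
    induction t with
    | zero =>
      intro s hs
      obtain rfl : s = 0 := by omega
      exact hid _
    | succ t ih =>
      intro s hs
      rcases Nat.lt_or_ge t s with hs' | hs'
      · obtain rfl : s = t + 1 := by omega
        exact hid _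
      cases s with
      | zero => rw [hw0]; exact hy _
      | succ m =>
        by_cases hcm : c m = c t
        · have hmt : m + 1 < t := by
            rcases Nat.lt_or_ge (m + 1) t with h | h
            · exact h
            · exfalso
              obtain rfl : t = m + 1 := by omega
              exact hr.cne m hcm
          have hcm' : c (m + 1) ≠ c t := by
            rw [← hcm]; exact (hr.cne m).symm
          exact (edge_fix hsf hf (hr.mem (m + 1)) (hr.mem t) hcm' (hr.ne (m + 1))
            (hr.rel (m + 1)) (hr.rel t)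
            (ih (m + 1) (by omega)) (ih (m + 1 + 1) (by omega))).1
        · exact (edge_fix hsf hf (hr.mem m) (hr.mem t) hcm (hr.ne m) (hr.rel m) (hr.rel t)
            (ih m (by omega)) (ih (m + 1) (by omega))).2
  have key : ∀ n z₁ z t, steps F n z₁ z → (∀ s ≤ t + n, f (w s) z₁ = w s) →
      ∀ s ≤ t, f (w s) z = w s := by
    intro n
    induction n with
    | zero =>
      intro z₁ z t hz h
      rw [← (show z₁ = z from hz)]
      simpa using h
    | succ n ih =>
      rintro z₁ z' t ⟨z, hz, hzz⟩ h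
      have := ih z₁ z (t + 1) hz (by
        intro s hs
        exact h s (by omega))
      exact step t z z' hzz this
  intro z
  obtain ⟨n, hn, hs⟩ := hD (w (D + 1)) z
  have := key n (w (D + 1)) z 1 hs (by
    intro s hs'
    exact diag (D + 1) s (by omega)) 1 le_rfl
  rwa [hw1] at this

lemma spread_all [Finite E] (hsf : SquareFree F) (hl : TwoBlocks F) (hid : ∀ x, f x x = x)
    (hf : ∀ θ ∈ F, Preserves f θ)
    (hconn : sSup F = ⊤) {y : E} (hy : ∀ z, f y z = y) : ∀ x z, f x z = x := by
  intro x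
  obtain ⟨n, hn⟩ := exists_steps (F := F) hconn y x
  induction n generalizing x with
  | zero =>
    rw [← (show y = x from hn)]
    exact hy
  | succ n ih =>
    obtain ⟨z, hz, hzx⟩ := hn
    exact spread_one hsf hl hid hf hconn (ih z hz) hzx

theorem propertyP_of_leafless [Finite E] [Nonempty E] (hsf : SquareFree F) (hconn : sSup F = ⊤)
    (hl : TwoBlocks F) : PropertyP F := by
  intro f hid hf
  obtain ⟨x₀⟩ := ‹Nonempty E›
  obtain ⟨θ, hθ, _, _, _, ⟨x₁, hx1, hx2⟩, _⟩ := hl x₀
  obtain ⟨w, c, hr, _⟩ := exists_ray hl hθ hx1.symm hx2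
  have hex := exists_closed hr
  obtain ⟨w, c, hr, hL, hpos, hcyc, hper⟩ := exists_periodic_ray (F := F) (Nat.find_spec hex)
    (fun n hn => Nat.find_min' hex hn)
  rcases dichotomy hsf hid hf hr hL hpos hcyc (fun n hn => Nat.find_min' hex hn) with h | h
  · left
    have h' : ∀ s, f (w s) (w 0) = w s := by
      intro s
      rw [hper s]
      exact h _ (Nat.mod_lt _ hpos)
    obtain ⟨y, hy⟩ := interior hsf hf hconn hr (w 0) h'
    exact spread_all hsf hl hid hf hconn hy
  · right
    have hf' : ∀ θ ∈ F, Preserves (fun x y => f y x) θ :=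
      fun θ hθ x x' y y' h h' => hf θ hθ y y' x x' h' h
    have h' : ∀ s, (fun x y => f y x) (w s) (w 0) = w s := by
      intro s
      rw [hper s]
      exact h _ (Nat.mod_lt _ hpos)
    obtain ⟨y, hy⟩ := interior (f := fun x y => f y x) hsf hf' hconn hr (w 0) h'
    have := spread_all (f := fun x y => f y x) hsf hl hid hf' hconn hy
    exact fun x y => this y x

end Main

/-! ### Necessity (for arbitrary families) -/

theorem sSup_eq_top_of_propertyP {F : Set (Setoid E)} (hP : PropertyP F) : sSup F = ⊤ := by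
  by_contra hne
  have h1 : ∃ a b, ¬ (sSup F) a b := by
    by_contra hcon
    push Not at hcon
    exact hne (eq_top_iff.mpr (fun {a b} _ => hcon a b))
  obtain ⟨a, b, hab⟩ := h1
  set J := sSup F with hJ
  have hle : ∀ θ ∈ F, ∀ {x y}, θ x y → J x y := fun θ hθ x y h => le_sSup hθ h
  have hne' : a ≠ b := fun h => hab (h ▸ J.refl a)
  rcases hP (fun x y => if J a x ∧ ¬ J a y then y else x) (by
    intro x; simp) (by
    intro θ hθ x x' y y' hx hy
    have e1 : J a x ↔ J a x' := ⟨fun h => J.trans h (hle θ hθ hx),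
      fun h => J.trans h (J.symm (hle θ hθ hx))⟩
    have e2 : J a y ↔ J a y' := ⟨fun h => J.trans h (hle θ hθ hy),
      fun h => J.trans h (J.symm (hle θ hθ hy))⟩
    show θ (if J a x ∧ ¬ J a y then y else x) (if J a x' ∧ ¬ J a y' then y' else x')
    rw [← e1, ← e2]
    split_ifs
    · exact hy
    · exact hx) with h | h
  · have := h a b
    rw [if_pos ⟨J.refl a, hab⟩] at this
    exact hne' this.symm
  · have := h b a
    rw [if_neg (fun h => hab h.1)] at this
    exact hne' this.symm

theorem not_dominated_of_propertyP [Nontrivial E] {F : Set (Setoid E)} (hP : PropertyP F)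
    {z w : E} (hzw : w ≠ z) (h : ∀ θ ∈ F, (∀ y, θ z y → y = z) ∨ θ z w) : False := by
  rcases hP (fun x y => if x = z ∧ y ≠ z then w else x) (by intro x; by_cases h : x = z <;> simp [h])
    (by
      intro θ hθ x x' y y' hx hy
      show θ (if x = z ∧ y ≠ z then w else x) (if x' = z ∧ y' ≠ z then w else x')
      rcases h θ hθ with h1 | h1
      · have ex : x = z ↔ x' = z := ⟨fun e => h1 _ (e ▸ hx), fun e => h1 _ (e ▸ θ.symm hx)⟩
        have ey : y = z ↔ y' = z := ⟨fun e => h1 _ (e ▸ hy), fun e => h1 _ (e ▸ θ.symm hy)⟩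
        by_cases hc : x = z ∧ y ≠ z
        · rw [if_pos hc, if_pos ⟨ex.mp hc.1, fun e => hc.2 (ey.mpr e)⟩]
        · rw [if_neg hc, if_neg (fun h => hc ⟨ex.mpr h.1, fun e => h.2 (ey.mp e)⟩)]
          exact hx
      · have key : ∀ x y : E, θ x (if x = z ∧ y ≠ z then w else x) := by
          intro x y
          split_ifs with h2
          · rw [h2.1]; exact h1
          · exact θ.refl _
        exact θ.trans (θ.symm (key x y)) (θ.trans hx (key x' y'))) with h' | h'
  · obtain ⟨y, hy⟩ := exists_ne z
    have := h' z y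
    rw [if_pos ⟨rfl, hy⟩] at this
    exact hzw this
  · have := h' w z
    rw [if_neg (fun h => h.2 rfl)] at this
    exact hzw this

theorem leafless_of_propertyP [Nontrivial E] {F : Set (Setoid E)} (hP : PropertyP F) :
    TwoBlocks F := by
  intro z
  by_contra hcon
  by_cases hex : ∃ θ ∈ F, ∃ y, y ≠ z ∧ θ z y
  · obtain ⟨θ, hθ, w, hw, hzw⟩ := hex
    refine not_dominated_of_propertyP hP hw ?_
    intro φ hφ
    by_cases hφθ : φ = θ
    · right; rw [hφθ]; exact hzw
    · left
      intro y hy
      by_contra hyz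
      exact hcon ⟨φ, hφ, θ, hθ, hφθ, ⟨y, hyz, hy⟩, ⟨w, hw, hzw⟩⟩
  · obtain ⟨w, hw⟩ := exists_ne z
    refine not_dominated_of_propertyP hP hw ?_
    intro φ hφ
    left
    intro y hy
    by_contra hyz
    exact hex ⟨φ, hφ, y, hyz, hy⟩

theorem main [Finite E] [Nontrivial E] (F : Set (Setoid E)) (hsf : SquareFree F) :
    PropertyP F ↔ sSup F = ⊤ ∧ TwoBlocks F :=
  ⟨fun h => ⟨sSup_eq_top_of_propertyP h, leafless_of_propertyP h⟩,
    fun h => propertyP_of_leafless hsf h.1 h.2⟩

end Pool.Agent.Helper70.SqFree
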