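import Pool.Agent.Helper70.SPhi

/-!
The big wreath product.
-/

set_option autoImplicit false

namespace Pool.Agent.Helper70

open Subgroup

abbrev E5 := alternatingGroup (Fin 5)
abbrev Om := SS ⧸ U0
abbrev MM := Om → E5
abbrev act : SS →* MulAut MM := mulAutArrow
abbrev GG := MM ⋊[act] SS

noncomputable instance : DecidableEq Om := Classical.decEq _
instance : Finite GG := Finite.of_equiv _ (SemidirectProduct.equivProd).symm
instance : IsSimpleGroup E5 := alternatingGroup.isSimpleGroup (by simp)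

abbrev im : MM →* GG := SemidirectProduct.inl
abbrev pr : GG →* SS := SemidirectProduct.rightHom

lemma pr_surj : Function.Surjective pr := SemidirectProduct.rightHom_surjective

lemma E5_noncomm : ∃ a b : E5, a * b ≠ b * a := by decide

lemma act_single (s : SS) (ω : Om) (e : E5) :
    act s (Pi.mulSingle ω e) = Pi.mulSingle (s • ω) e := by
  funext x
  change (Pi.mulSingle ω e : MM) (s⁻¹ • x) = (Pi.mulSingle (s • ω) e : MM) x
  by_cases h : x = s • ω
  · subst h
    rw [inv_smul_smul, Pi.mulSingle_eq_same, Pi.mulSingle_eq_same]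
  · rw [Pi.mulSingle_eq_of_ne h, Pi.mulSingle_eq_of_ne]
    intro h'
    apply h
    rw [← h', smul_inv_smul]

noncomputable def ew (ω : Om) : E5 →* GG := im.comp (MonoidHom.mulSingle (fun _ : Om => E5) ω)

lemma ew_apply (ω : Om) (e : E5) : ew ω e = im (Pi.mulSingle ω e) := rfl

noncomputable def EW (ω : Om) : Subgroup GG := (ew ω).range

lemma ew_inj (ω : Om) : Function.Injective (ew ω) := by
  intro a b h
  have h1 : (Pi.mulSingle ω a : MM) = Pi.mulSingle ω b := SemidirectProduct.inl_injective h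
  exact Pi.mulSingle_injective ω h1

lemma conj_single (m : MM) (ω : Om) (e : E5) :
    m * Pi.mulSingle ω e * m⁻¹ = Pi.mulSingle ω (m ω * e * (m ω)⁻¹) := by
  funext x
  by_cases h : x = ω
  · subst h
    simp
  · simp [Pi.mulSingle_eq_of_ne h]

lemma conj_ew (x : GG) (ω : Om) (e : E5) :
    x * ew ω e * x⁻¹ =
      ew (x.right • ω) (x.left (x.right • ω) * e * (x.left (x.right • ω))⁻¹) := by
  rw [ew_apply, ew_apply, ← conj_single, ← act_single]
  apply SemidirectProduct.ext
  · simp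
  · simp

lemma cj_EW (x : GG) (ω : Om) : cj x (EW ω) = EW (x.right • ω) := by
  ext y
  constructor
  · rintro ⟨_, ⟨e, rfl⟩, rfl⟩
    change x * ew ω e * x⁻¹ ∈ _
    rw [conj_ew]
    exact ⟨_, rfl⟩
  · rintro ⟨e, rfl⟩
    refine ⟨ew ω ((x.left (x.right • ω))⁻¹ * e * x.left (x.right • ω)), ⟨_, rfl⟩, ?_⟩
    change x * ew ω _ * x⁻¹ = _
    rw [conj_ew]
    congr 1
    group

lemma EW_inj {ω ω' : Om} (h : EW ω = EW ω') : ω = ω' := by
  by_contra hne
  obtain ⟨a, b, hab⟩ := E5_noncomm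
  have ha : a ≠ 1 := by
    rintro rfl
    simp at hab
  have h1 : ew ω a ∈ EW ω' := by rw [← h]; exact ⟨a, rfl⟩
  obtain ⟨c, hc⟩ := h1
  have h2 : (Pi.mulSingle ω' c : MM) = Pi.mulSingle ω a := SemidirectProduct.inl_injective hc
  have h3 := congrFun h2 ω
  rw [Pi.mulSingle_eq_same, Pi.mulSingle_eq_of_ne hne] at h3
  exact ha h3.symm

lemma normalizer_EW (ω : Om) :
    normalizer (EW ω : Set GG) = (MulAction.stabilizer SS ω).comap pr := by
  ext x
  rw [← cj_eq_iff_mem_normalizer, cj_EW, Subgroup.mem_comap, MulAction.mem_stabilizer_iff]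
  exact ⟨fun h => EW_inj h, fun h => congrArg EW h⟩

lemma im_range_normal : (im.range : Subgroup GG).Normal := by
  rw [SemidirectProduct.range_inl_eq_ker_rightHom]
  exact MonoidHom.normal_ker _

lemma single_normal (ω : Om) : (MonoidHom.mulSingle (fun _ : Om => E5) ω).range.Normal := by
  constructor
  rintro _ ⟨e, rfl⟩ m
  refine ⟨m ω * e * (m ω)⁻¹, ?_⟩
  exact (conj_single m ω e).symm

lemma EW_subnormal (ω : Om) : (EW ω).IsSubnormal := by
  have h := isSubnormal_map_inj (f := im) im_range_normal.isSubnormal (single_normal ω).isSubnormal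
  rw [← MonoidHom.range_comp] at h
  exact h

lemma EW_head (ω : Om) : IsHead (EW ω) := isHead_range E5_noncomm (ew_inj ω) (EW_subnormal ω)

lemma heads_GG {Y : Subgroup GG} (hY : IsHead Y) (hk : Y ≤ pr.ker) : ∃ ω, Y = EW ω := by
  rw [← SemidirectProduct.range_inl_eq_ker_rightHom] at hk
  obtain ⟨ω, hω⟩ := hY.exists_le EW EW_subnormal hk (by
    intro C hC
    rintro _ ⟨m, rfl⟩
    have h1 : m ∈ C.comap im := by
      refine Subgroup.pi_mem_of_mulSingle_mem m ?_
      intro ω
      exact hC ω ⟨m ω, rfl⟩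
    exact h1)
  exact ⟨ω, eq_range_of_le hY hω⟩

lemma ker_le_normalizer_EW (ω : Om) : pr.ker ≤ normalizer (EW ω : Set GG) := by
  rw [normalizer_EW]
  intro x hx
  rw [MonoidHom.mem_ker] at hx
  rw [Subgroup.mem_comap, hx]
  exact one_mem _

lemma le_norm_L {x : SS} (hx : x.right = 1) {L : Subgroup SS} (hL : L = L1 ∨ L = L2) :
    x ∈ normalizer (L : Set SS) := by
  rw [← cj_eq_iff_mem_normalizer]
  obtain ⟨⟨p, q⟩, w⟩ := x
  change w = 1 at hx
  subst hx
  rcases hL with rfl | rfl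
  · exact cj_one_L1 p q
  · exact cj_one_L2 p q

lemma L_right {x : SS} {L : Subgroup SS} (hL : L = L1 ∨ L = L2) (hx : x ∈ L) : x.right = 1 := by
  rcases hL with rfl | rfl
  · obtain ⟨a, _, rfl⟩ := mem_L1.mp hx
    rfl
  · obtain ⟨a, _, rfl⟩ := mem_L2.mp hx
    rfl

lemma adm_GG {Z Y : Subgroup GG} (hA : Adm Z Y) :
    (∃ ω, Y = EW ω) ∧ ¬ Z ≤ pr.ker ∧ (Z.map pr = L1 ∨ Z.map pr = L2) := by
  have hYk : Y ≤ pr.ker := by
    by_contra hYk
    have hYL := heads_SS (hA.hY.map pr_surj hYk)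
    apply hA.not_le
    by_cases hZk : Z ≤ pr.ker
    · exact hZk.trans (hA.hY.normal_le_normalizer (MonoidHom.normal_ker _) hYk)
    · have hZL := heads_SS (hA.hZ.map pr_surj hZk)
      intro z hz
      rw [hA.hY.mem_normalizer_map pr_surj hYk]
      exact le_norm_L (L_right hZL ⟨z, hz, rfl⟩) hYL
  obtain ⟨ω, rfl⟩ := heads_GG hA.hY hYk
  refine ⟨⟨ω, rfl⟩, ?_, ?_⟩
  · intro hZk
    exact hA.not_le (hZk.trans (ker_le_normalizer_EW ω))
  · refine heads_SS (hA.hZ.map pr_surj ?_)
    intro hZk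
    exact hA.not_le (hZk.trans (ker_le_normalizer_EW ω))

lemma phi_conj {G : Type*} [Group G] (x g : G) (Z T : Subgroup G) :
    Phi (x⁻¹ * g * x) (cj x⁻¹ Z) T ↔ Phi g Z (cj x T) := by
  have hinj : Function.Injective (MulAut.conj x⁻¹).toMonoidHom := (MulAut.conj x⁻¹).injective
  have hi : ∀ A B : Subgroup G, A = B ↔ A.map (MulAut.conj x⁻¹).toMonoidHom =
    B.map (MulAut.conj x⁻¹).toMonoidHom := fun A B => (Subgroup.map_injective hinj).eq_iff.symm
  have h := phi_map (f := (MulAut.conj x⁻¹).toMonoidHom) (Z := Z) (T := T) (g := g)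
    (radOK_inj hinj _) (radOK_inj hinj _) (by rw [hi, map_cj]) (by rw [hi, map_cj, map_cj])
  have e1 : (MulAut.conj x⁻¹).toMonoidHom g = x⁻¹ * g * x := by simp
  have e2 : T.comap (MulAut.conj x⁻¹).toMonoidHom = cj x T := by
    ext y
    rw [Subgroup.mem_comap, mem_cj]
    simp
  rw [e1, e2] at h
  exact h

lemma stab_one : MulAction.stabilizer SS ((1 : SS) : Om) = U0 := MulAction.stabilizer_quotient U0

lemma stab_eq (d : SS) : MulAction.stabilizer SS (d • ((1 : SS) : Om)) = cj d U0 := by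
  rw [MulAction.stabilizer_smul_eq_stabilizer_map_conj, stab_one]
  rfl

lemma cj_L (x : SS) {L : Subgroup SS} (hL : L = L1 ∨ L = L2) : cj x L = L1 ∨ cj x L = L2 := by
  obtain ⟨p, q, rfl | rfl⟩ := SS_cases x <;> rcases hL with rfl | rfl
  · left; exact cj_one_L1 p q
  · right; exact cj_one_L2 p q
  · right; exact cj_sw_L1 p q
  · left; exact cj_sw_L2 p q

/-- The normal subgroup which is factored out. -/
def ND (D : Subgroup SS) : Subgroup GG where
  carrier := {x | x.right = 1 ∧ ∀ d ∈ D, x.left (d • ((1 : SS) : Om)) = 1}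
  one_mem' := ⟨rfl, fun _ _ => rfl⟩
  mul_mem' := by
    rintro x y ⟨h1, h2⟩ ⟨h3, h4⟩
    refine ⟨by rw [SemidirectProduct.mul_right, h1, h3, one_mul], fun d hd => ?_⟩
    rw [SemidirectProduct.mul_left, h1, map_one, Pi.mul_apply, h2 d hd]
    change 1 * y.left (d • ((1 : SS) : Om)) = 1
    rw [h4 d hd, one_mul]
  inv_mem' := by
    rintro x ⟨h1, h2⟩
    refine ⟨by rw [SemidirectProduct.inv_right, h1, inv_one], fun d hd => ?_⟩
    rw [SemidirectProduct.inv_left, h1, inv_one, map_one]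
    change (x.left (d • ((1 : SS) : Om)))⁻¹ = 1
    rw [h2 d hd, inv_one]

lemma ND_normal (D : Subgroup SS) : ((ND D).subgroupOf (D.comap pr)).Normal := by
  have hle : ND D ≤ D.comap pr := by
    rintro x ⟨h1, _⟩
    rw [Subgroup.mem_comap]
    change x.right ∈ D
    rw [h1]; exact one_mem _
  rw [Subgroup.normal_subgroupOf_iff hle]
  rintro h k ⟨h1, h2⟩ hk
  refine ⟨?_, fun d hd => ?_⟩
  · rw [SemidirectProduct.mul_right, SemidirectProduct.mul_right, SemidirectProduct.inv_right, h1]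
    group
  · have hk' : k.right ∈ D := hk
    have h3 := h2 _ (D.mul_mem (D.inv_mem hk') hd)
    have e : (k * h * k⁻¹).left (d • ((1 : SS) : Om)) =
      k.left (d • ((1 : SS) : Om)) * h.left (k.right⁻¹ • d • ((1 : SS) : Om)) *
        (k.left (d • ((1 : SS) : Om)))⁻¹ := by
      rw [SemidirectProduct.mul_left, SemidirectProduct.mul_left, SemidirectProduct.inv_left,
        SemidirectProduct.mul_right, h1, mul_one, ← MulAut.mul_apply, ← map_mul, mul_inv_cancel,
        map_one]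
      rfl
    rw [e, smul_smul, h3, mul_one, mul_inv_cancel]

/-- The quotient belongs to the class. -/
lemma FF_quot {D : Subgroup SS} (hD : D.IsSubnormal)
    (hPhi : ∀ d ∈ D, ∀ Z : Subgroup SS, Z = L1 ∨ Z = L2 → Phi d Z U0) {Q : Type*} [Group Q]
    (q : ↥(D.comap pr) →* Q) (hq : Function.Surjective q)
    (hk : q.ker = (ND D).subgroupOf (D.comap pr)) : FF Q := by
  intro Z Y hA x
  obtain ⟨Z, hZ, rfl, hZk⟩ := exists_head_lift hq hA.hZ
  obtain ⟨Y, hY, rfl, hYk⟩ := exists_head_lift hq hA.hY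
  obtain ⟨g, rfl⟩ := hq x
  rw [adm_surj hq hZ hY hZk hYk] at hA
  rw [phi_surj hq hZ hY hZk hYk]
  have hinj : Function.Injective (D.comap pr).subtype := (D.comap pr).subtype_injective
  have hr : (D.comap pr).subtype.range.IsSubnormal := by
    rw [Subgroup.range_subtype]
    exact hD.comap pr
  rw [← adm_inj hinj hr] at hA
  rw [← phi_inj hinj]
  obtain ⟨⟨ω, hω⟩, hZ1, hL⟩ := adm_GG hA
  obtain ⟨d, hd, rfl⟩ : ∃ d ∈ D, ω = d • ((1 : SS) : Om) := by
    by_contra hno
    push Not at hno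
    apply hYk
    rw [hk]
    intro y hy
    have hy1 : (y : GG) ∈ EW ω := by
      rw [← hω]; exact ⟨y, hy, rfl⟩
    obtain ⟨e, he⟩ := hy1
    rw [Subgroup.mem_subgroupOf, ← he]
    refine ⟨rfl, fun d hd => ?_⟩
    change (Pi.mulSingle ω e : MM) (d • ((1 : SS) : Om)) = 1
    rw [Pi.mulSingle_eq_of_ne (hno d hd).symm]
  rw [hω, normalizer_EW, ← phi_surj' pr_surj hA.hZ hZ1, stab_eq, ← phi_conj]
  refine hPhi _ ?_ _ (cj_L _ hL)
  have hg : pr (g : GG) ∈ D := g.2
  exact D.mul_mem (D.mul_mem (D.inv_mem hd) hg) hd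

/-- Normal subgroups of the big group with quotient in the class contain the first factor. -/
lemma EW_le_ker {Q : Type*} [Group Q] (q : GG →* Q) (hq : Function.Surjective q) (h : FF Q) :
    EW ((1 : SS) : Om) ≤ q.ker := by
  by_contra hne
  obtain ⟨Z, hZ, hZL, hZk⟩ := exists_head_lift pr_surj L2_head
  have hA : Adm Z (EW ((1 : SS) : Om)) := by
    refine ⟨hZ, EW_head _, ?_, ?_⟩
    · rw [normalizer_EW, stab_one]
      intro z hz
      have h1 := (hZ.mem_rad_map pr_surj hZk (rad_le _ hz)).mp hz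
      rw [hZL, rad_L2, Subgroup.mem_bot] at h1
      rw [Subgroup.mem_comap, h1]
      exact one_mem _
    · rw [normalizer_EW, stab_one, ← Subgroup.map_le_iff_le_comap, hZL]
      exact L2_not_le_U0
  have h1 := h.phi_of_surjective hq hA hne (SemidirectProduct.inr (⟨(1, tau), 1⟩ : SS))
  rw [normalizer_EW, stab_one, ← phi_surj' pr_surj hZ hZk, hZL, SemidirectProduct.rightHom_inr]
    at h1
  exact not_phi h1

end Pool.Agent.Helper70
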