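import Pool.Agent.Helper70.Head

/-!
Heads under surjections and injections, and the group of elements acting trivially on the head.
-/

set_option autoImplicit false

namespace Pool.Agent.Helper70

open Subgroup
open scoped commutatorElement

variable {G : Type*} [Group G]

/-- Elements acting trivially on `Y / rad Y`. -/
def cent (Y : Subgroup G) : Subgroup G where
  carrier := {g | g ∈ normalizer (Y : Set G) ∧ ∀ y ∈ Y, g * y * g⁻¹ * y⁻¹ ∈ rad Y}
  one_mem' := ⟨one_mem _, fun y _ => by simp⟩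
  mul_mem' := by
    rintro a b ⟨ha, ha'⟩ ⟨hb, hb'⟩
    refine ⟨mul_mem ha hb, fun y hy => ?_⟩
    have h1 := norm_conj_mem (normalizer_le_normalizer_rad Y ha) (hb' y hy)
    have h2 := mul_mem h1 (ha' y hy)
    have e : a * b * y * (a * b)⁻¹ * y⁻¹ = a * (b * y * b⁻¹ * y⁻¹) * a⁻¹ * (a * y * a⁻¹ * y⁻¹) := by
      group
    rw [e]; exact h2
  inv_mem' := by
    rintro a ⟨ha, ha'⟩
    refine ⟨inv_mem ha, fun y hy => ?_⟩
    have h1 := inv_mem (ha' _ (norm_conj_mem' ha hy))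
    have e : a⁻¹ * y * a⁻¹⁻¹ * y⁻¹ = (a * (a⁻¹ * y * a) * a⁻¹ * (a⁻¹ * y * a)⁻¹)⁻¹ := by group
    rw [e]; exact h1

lemma cent_le_normalizer (Y : Subgroup G) : cent Y ≤ normalizer (Y : Set G) := fun _ h => h.1

lemma mem_cent {Y : Subgroup G} {g : G} :
    g ∈ cent Y ↔ g ∈ normalizer (Y : Set G) ∧ ∀ y ∈ Y, g * y * g⁻¹ * y⁻¹ ∈ rad Y := Iff.rfl

lemma IsHead.not_le_rad [Finite G] {Y : Subgroup G} (hY : IsHead Y) : ¬ Y ≤ rad Y :=
  fun h => hY.rad_ne (le_antisymm (rad_le Y) h)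

lemma IsHead.not_le_cent [Finite G] {Y : Subgroup G} (hY : IsHead Y) : ¬ Y ≤ cent Y := by
  intro h
  apply hY.not_le_rad
  conv_lhs => rw [← hY.perfect]
  rw [commutator_le]
  intro a ha b hb
  exact (h ha).2 b hb

lemma IsHead.inf_le_rad {Y K : Subgroup G} (hK : Y ≤ normalizer (K : Set G)) (hne : ¬ Y ≤ K) :
    Y ⊓ K ≤ rad Y := by
  refine le_rad inf_le_left ?_ (fun h => hne (inf_eq_left.mp h))
  rw [le_norm_iff]
  intro a ha b hb
  exact ⟨Y.mul_mem (Y.mul_mem ha hb.1) (Y.inv_mem ha), norm_conj_mem (hK ha) hb.2⟩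

/-- A normal subgroup not containing the head `Y` acts trivially on `Y / rad Y`. -/
lemma IsHead.normal_le_cent {Y K : Subgroup G} (hY : IsHead Y) (hK : K.Normal)
    (hne : ¬ Y ≤ K) : K ≤ cent Y := by
  intro k hk
  have hkN := hY.normal_le_normalizer hK hne hk
  refine ⟨hkN, fun y hy => ?_⟩
  refine IsHead.inf_le_rad (K := K) ?_ hne ⟨?_, ?_⟩
  · rw [normalizer_eq_top_iff.mpr hK]; exact le_top
  · exact Y.mul_mem (norm_conj_mem hkN hy) (Y.inv_mem hy)
  · have := K.mul_mem hk (hK.conj_mem _ (K.inv_mem hk) y)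
    simpa [mul_assoc] using this

section Surj

variable {Q : Type*} [Group Q] {f : G →* Q}

lemma map_cj (f : G →* Q) (g : G) (Y : Subgroup G) : (cj g Y).map f = cj (f g) (Y.map f) := by
  ext x
  constructor
  · rintro ⟨y, hy, rfl⟩
    change y ∈ cj g Y at hy
    rw [mem_cj] at hy ⊢
    exact ⟨_, hy, by simp⟩
  · intro h
    rw [mem_cj] at h
    obtain ⟨y, hy, e⟩ := h
    refine ⟨g * y * g⁻¹, conj_mem_cj hy, ?_⟩
    simp [e, mul_assoc]

lemma cj_comap (f : G →* Q) (g : G) (T : Subgroup Q) : cj g (T.comap f) = (cj (f g) T).comap f := by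
  ext x
  simp [mem_cj, mem_comap]

lemma map_normalizer_mem {n : G} {Y : Subgroup G} (h : n ∈ normalizer (Y : Set G)) :
    f n ∈ normalizer (Y.map f : Set Q) := by
  rw [← cj_eq_iff_mem_normalizer] at *
  rw [← map_cj, h]

lemma map_le_normalizer_map {A Y : Subgroup G} (h : Y ≤ normalizer (A : Set G)) :
    Y.map f ≤ normalizer (A.map f : Set Q) := by
  rintro _ ⟨y, hy, rfl⟩
  exact map_normalizer_mem (h hy)

/-- Pull back a normal subgroup of the image. -/
lemma le_normalizer_inf_comap {Y : Subgroup G} {A : Subgroup Q}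
    (hA : Y.map f ≤ normalizer (A : Set Q)) :
    Y ≤ normalizer ((Y ⊓ A.comap f : Subgroup G) : Set G) := by
  rw [le_norm_iff]
  intro a ha b hb
  refine ⟨Y.mul_mem (Y.mul_mem ha hb.1) (Y.inv_mem ha), ?_⟩
  have h1 : f a ∈ normalizer (A : Set Q) := hA ⟨a, ha, rfl⟩
  have h2 : f b ∈ A := hb.2
  have h3 := norm_conj_mem h1 h2
  refine Subgroup.mem_comap.mpr ?_
  simpa using h3

lemma map_inf_comap {Y : Subgroup G} {A : Subgroup Q} (hA : A ≤ Y.map f) :
    (Y ⊓ A.comap f).map f = A := by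
  ext x
  constructor
  · rintro ⟨y, hy, rfl⟩
    exact hy.2
  · intro hx
    obtain ⟨y, hy, rfl⟩ := hA hx
    exact ⟨y, ⟨hy, hx⟩, rfl⟩

lemma le_of_map_le {Y W : Subgroup G} (hW : W ≤ Y) (hk : Y ⊓ f.ker ≤ W) (h : Y.map f ≤ W.map f) :
    Y ≤ W := by
  intro y hy
  obtain ⟨w, hw, e⟩ := h ⟨y, hy, rfl⟩
  have : w⁻¹ * y ∈ Y ⊓ f.ker := by
    refine ⟨Y.mul_mem (Y.inv_mem (hW hw)) hy, MonoidHom.mem_ker.mpr ?_⟩
    rw [map_mul, map_inv, e, inv_mul_cancel]
  have := W.mul_mem hw (hk this)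
  simpa using this

/-- The image of a head under a surjection, if nontrivial, is a head. -/
lemma IsHead.map (hf : Function.Surjective f) {Y : Subgroup G} (hY : IsHead Y)
    (hne : ¬ Y ≤ f.ker) : IsHead (Y.map f) where
  subnormal := hY.subnormal.map hf
  ne_bot := by
    intro h
    rw [Subgroup.map_eq_bot_iff] at h
    exact hne h
  perfect := by
    rw [← map_commutator, hY.perfect]
  prime := by
    intro A B hA hB hA' hB' hAB
    have k1 : Y ⊓ f.ker ≤ (Y ⊓ A.comap f) ⊔ (Y ⊓ B.comap f) := by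
      refine le_trans ?_ le_sup_left
      refine inf_le_inf_left _ ?_
      intro x hx
      rw [MonoidHom.mem_ker] at hx
      rw [mem_comap, hx]; exact A.one_mem
    have k2 : Y ≤ (Y ⊓ A.comap f) ⊔ (Y ⊓ B.comap f) := by
      refine le_of_map_le (sup_le inf_le_left inf_le_left) k1 ?_
      rw [Subgroup.map_sup, map_inf_comap hA, map_inf_comap hB, hAB]
    rcases hY.eq_of_le_sup inf_le_left inf_le_left (le_normalizer_inf_comap hA')
      (le_normalizer_inf_comap hB') k2 with h | h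
    · left; rw [← map_inf_comap hA, h]
    · right; rw [← map_inf_comap hB, h]

lemma IsHead.mem_rad_map [Finite G] (hf : Function.Surjective f) {Y : Subgroup G} (hY : IsHead Y)
    (hne : ¬ Y ≤ f.ker) {z : G} (hz : z ∈ Y) : z ∈ rad Y ↔ f z ∈ rad (Y.map f) := by
  have hfin : Finite Q := Finite.of_surjective f hf
  have hM := hY.map hf hne
  constructor
  · intro h
    have : (rad Y).map f ≤ rad (Y.map f) := by
      refine le_rad (Subgroup.map_mono (rad_le Y)) (map_le_normalizer_map (le_normalizer_rad Y)) ?_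
      intro h
      apply hY.not_le_rad
      have hk : Y ⊓ f.ker ≤ rad Y := IsHead.inf_le_rad
        (by rw [normalizer_eq_top_iff.mpr f.normal_ker]; exact le_top) hne
      exact le_of_map_le (rad_le Y) hk h.ge
    exact this ⟨z, h, rfl⟩
  · intro h
    have : Y ⊓ (rad (Y.map f)).comap f ≤ rad Y := by
      refine le_rad inf_le_left (le_normalizer_inf_comap (le_normalizer_rad _)) ?_
      intro h
      apply hM.not_le_rad
      rintro _ ⟨y, hy, rfl⟩
      rw [← h] at hy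
      exact hy.2
    exact this ⟨hz, h⟩

lemma IsHead.le_of_map_eq (hf : Function.Surjective f) {Y Y' : Subgroup G} (hY : IsHead Y)
    (hY' : IsHead Y') (hne : ¬ Y ≤ f.ker) (h : Y.map f = Y'.map f) : Y ≤ Y' := by
  have hne' : ¬ Y' ≤ f.ker := by
    intro h'
    rw [← Subgroup.map_eq_bot_iff, ← h, Subgroup.map_eq_bot_iff] at h'
    exact hne h'
  have k1 := hY.normal_le_normalizer f.normal_ker hne
  have k2 := hY'.normal_le_normalizer f.normal_ker hne'
  have hmul : ∀ y ∈ Y, ∃ y' ∈ Y', ∃ n ∈ f.ker, y = y' * n := by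
    intro y hy
    obtain ⟨y', hy', e⟩ := h.le ⟨y, hy, rfl⟩
    refine ⟨y', hy', y'⁻¹ * y, ?_, by simp⟩
    rw [MonoidHom.mem_ker, map_mul, map_inv, e, inv_mul_cancel]
  refine hY.le_of_mul (N := f.ker) hmul ?_ ?_ k1 ?_ ?_ hne
  · intro y hy
    obtain ⟨y', hy', n, hn, rfl⟩ := hmul y hy
    exact mul_mem (le_normalizer hy') (k2 hn)
  · intro y' hy'
    obtain ⟨y, hy, e⟩ := h.ge ⟨y', hy', rfl⟩
    have : y⁻¹ * y' ∈ f.ker := by
      rw [MonoidHom.mem_ker, map_mul, map_inv, e, inv_mul_cancel]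
    have := mul_mem (le_normalizer hy : _ ∈ normalizer (Y : Set G)) (k1 this)
    simpa using this
  · rw [normalizer_eq_top_iff.mpr f.normal_ker]; exact le_top
  · rw [normalizer_eq_top_iff.mpr f.normal_ker]; exact le_top

lemma IsHead.eq_of_map_eq (hf : Function.Surjective f) {Y Y' : Subgroup G} (hY : IsHead Y)
    (hY' : IsHead Y') (hne : ¬ Y ≤ f.ker) (h : Y.map f = Y'.map f) : Y = Y' := by
  refine le_antisymm (hY.le_of_map_eq hf hY' hne h) (hY'.le_of_map_eq hf hY ?_ h.symm)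
  intro h'
  rw [← Subgroup.map_eq_bot_iff, ← h, Subgroup.map_eq_bot_iff] at h'
  exact hne h'

lemma not_cj_le_ker {Y : Subgroup G} (hne : ¬ Y ≤ f.ker) (g : G) : ¬ cj g Y ≤ f.ker := by
  intro h
  apply hne
  have := cj_mono (g := g⁻¹) h
  rwa [cj_inv_cj, cj_normal f.normal_ker] at this

lemma IsHead.map_cj_eq_iff (hf : Function.Surjective f) {Y : Subgroup G} (hY : IsHead Y)
    (hne : ¬ Y ≤ f.ker) {g : G} :
    cj g Y = Y ↔ cj (f g) (Y.map f) = Y.map f := by
  constructor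
  · intro h
    rw [← map_cj, h]
  · intro h
    rw [← map_cj] at h
    exact (hY.conj g).eq_of_map_eq hf hY (not_cj_le_ker hne g) h

lemma IsHead.mem_normalizer_map (hf : Function.Surjective f) {Y : Subgroup G} (hY : IsHead Y)
    (hne : ¬ Y ≤ f.ker) {n : G} :
    n ∈ normalizer (Y : Set G) ↔ f n ∈ normalizer (Y.map f : Set Q) := by
  rw [← cj_eq_iff_mem_normalizer, ← cj_eq_iff_mem_normalizer, hY.map_cj_eq_iff hf hne]

/-- Heads lift through surjections of finite groups. -/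
lemma exists_head_lift [Finite G] (hf : Function.Surjective f) {Z : Subgroup Q} (hZ : IsHead Z) :
    ∃ Y : Subgroup G, IsHead Y ∧ Y.map f = Z ∧ ¬ Y ≤ f.ker := by
  classical
  set T : Set (Subgroup G) := {Y | Y.IsSubnormal ∧ Y.map f = Z}
  have hfin : T.Finite := Set.toFinite T
  have hne : T.Nonempty := ⟨Z.comap f, hZ.subnormal.comap f, Subgroup.map_comap_eq_self_of_surjective hf Z⟩
  obtain ⟨Y, hY⟩ := hfin.exists_minimal hne
  have hmin : ∀ A : Subgroup G, A ≤ Y → A.IsSubnormal → A.map f = Z → A = Y := by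
    intro A h1 h2 h3
    exact le_antisymm h1 (hY.2 ⟨h2, h3⟩ h1)
  have hmap : Y.map f = Z := hY.1.2
  have hsub : ∀ A : Subgroup G, A ≤ Y → Y ≤ normalizer (A : Set G) → A.IsSubnormal := by
    intro A h1 h2
    exact IsSubnormal.step A Y h1 hY.1.1 ((normal_subgroupOf_iff_le_normalizer h1).mpr h2)
  refine ⟨Y, ⟨hY.1.1, ?_, ?_, ?_⟩, hmap, ?_⟩
  · rintro rfl
    rw [Subgroup.map_bot] at hmap
    exact hZ.ne_bot hmap.symm
  · have hle : ⁅Y, Y⁆ ≤ Y := by
      rw [commutator_le]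
      intro a ha b hb
      exact Y.mul_mem (Y.mul_mem (Y.mul_mem ha hb) (Y.inv_mem ha)) (Y.inv_mem hb)
    have hno : Y ≤ normalizer ((⁅Y, Y⁆ : Subgroup G) : Set G) := by
      intro y hy
      rw [← cj_eq_iff_mem_normalizer]
      have := map_commutator Y Y (MulAut.conj y).toMonoidHom
      change cj y ⁅Y, Y⁆ = ⁅cj y Y, cj y Y⁆ at this
      rw [this, cj_eq_of_mem hy]
    refine hmin _ hle (hsub _ hle hno) ?_
    rw [map_commutator, hmap, hZ.perfect]
  · intro A B hA hB hA' hB' hAB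
    have h1 : A.map f ⊔ B.map f = Z := by rw [← Subgroup.map_sup, hAB, hmap]
    rcases hZ.prime (A.map f) (B.map f) (hmap ▸ Subgroup.map_mono hA)
      (hmap ▸ Subgroup.map_mono hB) (hmap ▸ map_le_normalizer_map hA')
      (hmap ▸ map_le_normalizer_map hB') h1 with h | h
    · left; exact hmin A hA (hsub A hA hA') h
    · right; exact hmin B hB (hsub B hB hB') h
  · intro h
    rw [← Subgroup.map_eq_bot_iff, hmap] at h
    exact hZ.ne_bot h

end Surj

end Pool.Agent.Helper70
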