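import Mathlib

/-!
Three equivalence relations attached to a graph with a base vertex.
-/

namespace Pool.Agent.Helper70.CoverDefs

variable {V : Type*} (G : SimpleGraph V) (v₀ : V)

/-- The graph on `V × {0, 1, 2}` in which `(v, i)` and `(w, j)` are adjacent when `v` and `w`
are adjacent in `G` and `i ≠ j`, with one more edge, between `(v₀, 0)` and `(v₀, 1)`. -/
def cover : SimpleGraph (V × Fin 3) where
  Adj p q := (G.Adj p.1 q.1 ∧ p.2 ≠ q.2) ∨
    (p.1 = v₀ ∧ q.1 = v₀ ∧ ((p.2 = 0 ∧ q.2 = 1) ∨ (p.2 = 1 ∧ q.2 = 0)))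
  symm := ⟨by
    rintro p q (⟨h1, h2⟩ | ⟨h1, h2, h3⟩)
    · exact Or.inl ⟨h1.symm, h2.symm⟩
    · exact Or.inr ⟨h2, h1, h3.elim (fun h => Or.inr ⟨h.2, h.1⟩) (fun h => Or.inl ⟨h.2, h.1⟩)⟩⟩
  loopless := ⟨by
    rintro p (⟨h1, h2⟩ | ⟨h1, h2, h3⟩)
    · exact h2 rfl
    · rcases h3 with ⟨h3, h4⟩ | ⟨h3, h4⟩ <;> simp [h3] at h4⟩

/-- The points: the darts (oriented edges) of `G` together with the darts of the cover. -/
abbrev Pt := G.Dart ⊕ (cover G v₀).Dart

/-- Two points are related when they are darts of the same graph with the same source. -/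
def relA : Setoid (Pt G v₀) :=
  Setoid.ker (Sum.map (fun d => d.fst) (fun d => d.fst) : Pt G v₀ → V ⊕ (V × Fin 3))

/-- Two points are related when they are darts of the same graph with the same underlying
(unoriented) edge. -/
def relB : Setoid (Pt G v₀) :=
  Setoid.ker (Sum.map (fun d => d.edge) (fun d => d.edge) :
    Pt G v₀ → Sym2 V ⊕ Sym2 (V × Fin 3))

open Classical in
/-- The shadow of a dart `(v, w)` of `G` is `(v, w)`; the shadow of a dart from `(v, i)` to
`(w, j)` of the cover is `(v, w)` if `v ≠ w`, and `(v, w)` together with `i` if `v = w`. -/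
noncomputable def shadow : Pt G v₀ → (V × V) × Option (Fin 3)
  | Sum.inl d => ((d.fst, d.snd), none)
  | Sum.inr d => ((d.fst.1, d.snd.1), if d.fst.1 = d.snd.1 then some d.fst.2 else none)

/-- Two points are related when they have the same shadow. -/
noncomputable def relC : Setoid (Pt G v₀) := Setoid.ker (shadow G v₀)

end Pool.Agent.Helper70.CoverDefs
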