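import Pool.Agent.Helper70.Phi

/-!
The class and its closure properties, except closure under normal products.
-/

set_option autoImplicit false

namespace Pool.Agent.Helper70

open Subgroup
open scoped commutatorElement

variable {G : Type*} [Group G]

/-- Admissible pairs of heads. -/
structure Adm (Z Y : Subgroup G) : Prop where
  hZ : IsHead Z
  hY : IsHead Y
  rad_le : rad Z ≤ normalizer (Y : Set G)
  not_le : ¬ Z ≤ normalizer (Y : Set G)

/-- The class, relative version for a subnormal subgroup. -/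
def FR (X : Subgroup G) : Prop :=
  ∀ Z Y : Subgroup G, Z ≤ X → Y ≤ X → Adm Z Y → ∀ g ∈ X, Phi g Z (normalizer (Y : Set G))

/-- The class. -/
def FF (G : Type*) [Group G] : Prop :=
  ∀ Z Y : Subgroup G, Adm Z Y → ∀ g : G, Phi g Z (normalizer (Y : Set G))

section Surj

variable {Q : Type*} [Group Q] {f : G →* Q}

lemma normalizer_eq_comap (hf : Function.Surjective f) {Y : Subgroup G} (hY : IsHead Y)
    (hYk : ¬ Y ≤ f.ker) :
    normalizer (Y : Set G) = (normalizer (Y.map f : Set Q)).comap f := by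
  ext n
  rw [Subgroup.mem_comap]
  exact hY.mem_normalizer_map hf hYk

lemma radOK_surj [Finite G] (hf : Function.Surjective f) {Z : Subgroup G} (hZ : IsHead Z)
    (hZk : ¬ Z ≤ f.ker) : RadOK f Z := fun _ hz => hZ.mem_rad_map hf hZk hz

lemma phi_surj' [Finite G] (hf : Function.Surjective f) {Z : Subgroup G} (hZ : IsHead Z)
    (hZk : ¬ Z ≤ f.ker) (T : Subgroup Q) (g : G) :
    Phi (f g) (Z.map f) T ↔ Phi g Z (T.comap f) := by
  refine phi_map (radOK_surj hf hZ hZk) (radOK_surj hf (hZ.conj g) (not_cj_le_ker hZk g))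
    (hZ.map_cj_eq_iff hf hZk) ?_
  rw [cj_cj, cj_cj, ← map_mul]
  exact hZ.map_cj_eq_iff hf hZk

lemma phi_surj [Finite G] (hf : Function.Surjective f) {Z Y : Subgroup G} (hZ : IsHead Z)
    (hY : IsHead Y) (hZk : ¬ Z ≤ f.ker) (hYk : ¬ Y ≤ f.ker) (g : G) :
    Phi (f g) (Z.map f) (normalizer (Y.map f : Set Q)) ↔ Phi g Z (normalizer (Y : Set G)) := by
  rw [normalizer_eq_comap hf hY hYk]
  exact phi_surj' hf hZ hZk _ g

lemma adm_surj [Finite G] (hf : Function.Surjective f) {Z Y : Subgroup G} (hZ : IsHead Z)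
    (hY : IsHead Y) (hZk : ¬ Z ≤ f.ker) (hYk : ¬ Y ≤ f.ker) :
    Adm (Z.map f) (Y.map f) ↔ Adm Z Y := by
  have hr := radOK_surj hf hZ hZk
  constructor
  · intro h
    refine ⟨hZ, hY, ?_, ?_⟩
    · intro z hz
      rw [hY.mem_normalizer_map hf hYk]
      exact h.rad_le ((hr z (rad_le _ hz)).mp hz)
    · intro h'
      exact h.not_le (map_le_normalizer_map h')
  · intro h
    refine ⟨hZ.map hf hZk, hY.map hf hYk, ?_, ?_⟩
    · intro x hx
      obtain ⟨z, hz, rfl⟩ := rad_le _ hx
      exact map_normalizer_mem (h.rad_le ((hr z hz).mpr hx))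
    · intro h'
      apply h.not_le
      intro z hz
      rw [hY.mem_normalizer_map hf hYk]
      exact h' ⟨z, hz, rfl⟩

/-- Closure under quotients. -/
lemma FF.of_surjective [Finite G] (hf : Function.Surjective f) (h : FF G) : FF Q := by
  intro Z Y hA x
  obtain ⟨Z, hZ, rfl, hZk⟩ := exists_head_lift hf hA.hZ
  obtain ⟨Y, hY, rfl, hYk⟩ := exists_head_lift hf hA.hY
  obtain ⟨g, rfl⟩ := hf x
  rw [adm_surj hf hZ hY hZk hYk] at hA
  rw [phi_surj hf hZ hY hZk hYk]
  exact h Z Y hA g

/-- The transfer back from a quotient in which the smaller head survives. -/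
lemma FF.phi_of_surjective [Finite G] (hf : Function.Surjective f) (h : FF Q) {Z Y : Subgroup G}
    (hA : Adm Z Y) (hYk : ¬ Y ≤ f.ker) (g : G) : Phi g Z (normalizer (Y : Set G)) := by
  have hZk : ¬ Z ≤ f.ker := by
    intro hZ
    exact hA.not_le (hZ.trans (hA.hY.normal_le_normalizer f.normal_ker hYk))
  rw [← phi_surj hf hA.hZ hA.hY hZk hYk]
  exact h _ _ ((adm_surj hf hA.hZ hA.hY hZk hYk).mpr hA) _

end Surj

/-- Closure under subdirect products. -/
lemma FF.subdirect [Finite G] {Q₁ Q₂ Q : Type*} [Group Q₁] [Group Q₂] [Group Q]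
    (f₁ : G →* Q₁) (f₂ : G →* Q₂) (f : G →* Q) (hf₁ : Function.Surjective f₁)
    (hf₂ : Function.Surjective f₂) (hf : Function.Surjective f) (hk : f.ker = f₁.ker ⊓ f₂.ker)
    (h₁ : FF Q₁) (h₂ : FF Q₂) : FF Q := by
  intro Z Y hA x
  obtain ⟨Z, hZ, rfl, hZk⟩ := exists_head_lift hf hA.hZ
  obtain ⟨Y, hY, rfl, hYk⟩ := exists_head_lift hf hA.hY
  obtain ⟨g, rfl⟩ := hf x
  rw [adm_surj hf hZ hY hZk hYk] at hA
  rw [phi_surj hf hZ hY hZk hYk]
  by_cases hY1 : Y ≤ f₁.ker
  · have hY2 : ¬ Y ≤ f₂.ker := by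
      intro hY2
      apply hYk
      rw [hk]
      exact le_inf hY1 hY2
    exact h₂.phi_of_surjective hf₂ hA hY2 g
  · exact h₁.phi_of_surjective hf₁ hA hY1 g

section Inj

variable {Q : Type*} [Group Q] {f : G →* Q}

lemma radOK_inj (hf : Function.Injective f) (Z : Subgroup G) : RadOK f Z :=
  fun _ _ => (mem_rad_map_inj hf).symm

lemma normalizer_eq_comap_inj (hf : Function.Injective f) (Y : Subgroup G) :
    normalizer (Y : Set G) = (normalizer (Y.map f : Set Q)).comap f := by
  ext n
  rw [Subgroup.mem_comap]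
  exact (mem_normalizer_map_inj hf).symm

lemma phi_inj (hf : Function.Injective f) (Z Y : Subgroup G) (g : G) :
    Phi (f g) (Z.map f) (normalizer (Y.map f : Set Q)) ↔ Phi g Z (normalizer (Y : Set G)) := by
  have hi : ∀ A B : Subgroup G, A = B ↔ A.map f = B.map f := fun A B =>
    (Subgroup.map_injective hf).eq_iff.symm
  rw [normalizer_eq_comap_inj hf Y]
  refine phi_map (radOK_inj hf _) (radOK_inj hf _) ?_ ?_
  · rw [hi, map_cj]
  · rw [hi, map_cj, map_cj]

lemma adm_inj (hf : Function.Injective f) (hr : f.range.IsSubnormal) (Z Y : Subgroup G) :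
    Adm (Z.map f) (Y.map f) ↔ Adm Z Y := by
  constructor
  · intro h
    refine ⟨h.hZ.of_map_inj hf, h.hY.of_map_inj hf, ?_, ?_⟩
    · rw [← map_le_normalizer_map_iff hf, rad_map_inj hf]
      exact h.rad_le
    · rw [← map_le_normalizer_map_iff hf]
      exact h.not_le
  · intro h
    refine ⟨h.hZ.map_inj hf hr, h.hY.map_inj hf hr, ?_, ?_⟩
    · rw [← rad_map_inj hf, map_le_normalizer_map_iff hf]
      exact h.rad_le
    · rw [map_le_normalizer_map_iff hf]
      exact h.not_le

end Inj

lemma FF_iff_FR {X : Subgroup G} (hX : X.IsSubnormal) : FF X ↔ FR X := by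
  have hinj : Function.Injective X.subtype := X.subtype_injective
  have hr : X.subtype.range.IsSubnormal := by rwa [Subgroup.range_subtype]
  constructor
  · intro h Z Y hZ hY hA g hg
    have e1 : (Z.subgroupOf X).map X.subtype = Z := by
      rw [Subgroup.subgroupOf_map_subtype, inf_eq_left.mpr hZ]
    have e2 : (Y.subgroupOf X).map X.subtype = Y := by
      rw [Subgroup.subgroupOf_map_subtype, inf_eq_left.mpr hY]
    rw [← e1, ← e2] at hA ⊢
    rw [adm_inj hinj hr] at hA
    have := (phi_inj hinj (Z.subgroupOf X) (Y.subgroupOf X) ⟨g, hg⟩).mpr (h _ _ hA _)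
    exact this
  · intro h Z Y hA g
    rw [← phi_inj hinj]
    refine h _ _ ?_ ?_ ((adm_inj hinj hr Z Y).mpr hA) _ g.2
    · exact Subgroup.map_subtype_le Z
    · exact Subgroup.map_subtype_le Y

/-- Closure under normal subgroups. -/
lemma FF.normal {N : Subgroup G} (hN : N.Normal) (h : FF G) : FF N := by
  rw [FF_iff_FR hN.isSubnormal]
  intro Z Y _ _ hA g _
  exact h Z Y hA g

lemma IsHead.not_solvable {Y N : Subgroup G} (hY : IsHead Y) (hN : Group.IsSolvable N) : ¬ Y ≤ N := by
  intro hle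
  have hN' : Group.IsSolvable N := hN
  have hs : Group.IsSolvable Y := by
    have hinj : Function.Injective (Subgroup.inclusion hle) := Subgroup.inclusion_injective hle
    exact Group.isSolvable_of_isSolvable_injective hinj
  have hp : ⁅(⊤ : Subgroup Y), (⊤ : Subgroup Y)⁆ = ⊤ := by
    apply Subgroup.map_injective Y.subtype_injective
    rw [map_commutator, ← MonoidHom.range_eq_map, Subgroup.range_subtype, hY.perfect]
  obtain ⟨n, hn⟩ := hs.solvable
  have : ∀ n, derivedSeries Y n = ⊤ := by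
    intro n
    induction n with
    | zero => rfl
    | succ n ih => rw [derivedSeries_succ, ih, hp]
  rw [this] at hn
  apply hY.ne_bot
  have h2 := congrArg (Subgroup.map Y.subtype) hn
  rwa [← MonoidHom.range_eq_map, Subgroup.range_subtype, Subgroup.map_bot] at h2

/-- The class is solubly saturated. -/
lemma FF.saturated [Finite G] {N : Subgroup G} (hs : Group.IsSolvable N) {Q : Type*}
    [Group Q] (f : G →* Q) (hf : Function.Surjective f)
    (hk : f.ker = (frattini N).map N.subtype) (h : FF Q) : FF G := by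
  intro Z Y hA g
  refine h.phi_of_surjective hf hA ?_ g
  intro hle
  refine hA.hY.not_solvable hs (hle.trans ?_)
  rw [hk]
  exact Subgroup.map_subtype_le _

end Pool.Agent.Helper70
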