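import Pool.Agent.Helper70.HK

/-!
The residuals in the example.
-/

set_option autoImplicit false

namespace Pool.Agent.Helper70

open Subgroup

lemma res_top (J : Subgroup GG) (hJ : J = ⊤) :
    EW ((1 : SS) : Om) ≤ (⨅ (N : Subgroup ↥J) (_ : N.Normal ∧ ∀ (Q : Type) [Group Q] (f : ↥J →* Q),
      Function.Surjective f → f.ker = N → FF Q), N).map J.subtype := by
  subst hJ
  intro x hx
  refine ⟨⟨x, trivial⟩, ?_, rfl⟩
  rw [SetLike.mem_coe, Subgroup.mem_iInf]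
  intro N
  rw [Subgroup.mem_iInf]
  rintro ⟨hN, hQ⟩
  have hF := hQ (↥(⊤ : Subgroup GG) ⧸ N) (QuotientGroup.mk' N) (QuotientGroup.mk'_surjective N)
    (QuotientGroup.ker_mk' N)
  have h1 := EW_le_ker ((QuotientGroup.mk' N).comp (Subgroup.topEquiv (G := GG)).symm.toMonoidHom)
    ((QuotientGroup.mk'_surjective N).comp (Subgroup.topEquiv (G := GG)).symm.surjective) hF hx
  rw [MonoidHom.mem_ker] at h1
  have h2 : QuotientGroup.mk' N ⟨x, trivial⟩ = 1 := h1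
  rwa [← MonoidHom.mem_ker, QuotientGroup.ker_mk'] at h2

lemma res_le {D : Subgroup SS} (hD : D.IsSubnormal)
    (hPhi : ∀ d ∈ D, ∀ Z : Subgroup SS, Z = L1 ∨ Z = L2 → Phi d Z U0) :
    (⨅ (N : Subgroup ↥(D.comap pr)) (_ : N.Normal ∧ ∀ (Q : Type) [Group Q]
      (f : ↥(D.comap pr) →* Q), Function.Surjective f → f.ker = N → FF Q), N).map
        (D.comap pr).subtype ≤ ND ⊥ := by
  have h1 : (⨅ (N : Subgroup ↥(D.comap pr)) (_ : N.Normal ∧ ∀ (Q : Type) [Group Q]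
      (f : ↥(D.comap pr) →* Q), Function.Surjective f → f.ker = N → FF Q), N) ≤
      (ND D).subgroupOf (D.comap pr) :=
    iInf₂_le _ ⟨ND_normal D, fun Q _ f hf hk => FF_quot hD hPhi f hf hk⟩
  refine (Subgroup.map_mono h1).trans ?_
  rw [Subgroup.subgroupOf_map_subtype]
  refine inf_le_left.trans ?_
  rintro x ⟨h2, h3⟩
  refine ⟨h2, fun d hd => ?_⟩
  rw [Subgroup.mem_bot] at hd
  subst hd
  exact h3 1 (one_mem _)

lemma not_EW_le : ¬ EW ((1 : SS) : Om) ≤ ND ⊥ := by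
  intro h
  obtain ⟨a, b, hab⟩ := E5_noncomm
  have ha : a ≠ 1 := by
    rintro rfl
    simp at hab
  have h1 := (h (⟨a, rfl⟩ : ew ((1 : SS) : Om) a ∈ EW ((1 : SS) : Om))).2 1 (one_mem _)
  rw [one_smul] at h1
  have h2 : (Pi.mulSingle ((1 : SS) : Om) a : MM) ((1 : SS) : Om) = 1 := h1
  rw [Pi.mulSingle_eq_same] at h2
  exact ha h2

lemma HK_top : HS.comap pr ⊔ KS.comap pr = ⊤ := by
  rw [Subgroup.comap_sup_eq pr HS KS pr_surj, HS_sup_KS, Subgroup.comap_top]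

end Pool.Agent.Helper70
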