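import Pool.Agent.Helper70.Big

/-!
The two subnormal subgroups.
-/

set_option autoImplicit false

namespace Pool.Agent.Helper70

open Subgroup

def HS : Subgroup SS where
  carrier := {x | x.right = 1 ∧ Equiv.Perm.sign x.left.2 = 1}
  one_mem' := ⟨rfl, by simp⟩
  mul_mem' := by
    rintro ⟨⟨a, b⟩, w⟩ ⟨⟨a', b'⟩, w'⟩ ⟨h1, h2⟩ ⟨h3, h4⟩
    change w = 1 at h1
    change w' = 1 at h3
    subst h1 h3
    refine ⟨mul_one _, ?_⟩
    change Equiv.Perm.sign (b * b') = 1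
    change Equiv.Perm.sign b = 1 at h2
    change Equiv.Perm.sign b' = 1 at h4
    rw [map_mul, h2, h4]; rfl
  inv_mem' := by
    rintro ⟨⟨a, b⟩, w⟩ ⟨h1, h2⟩
    change w = 1 at h1
    subst h1
    refine ⟨inv_one, ?_⟩
    change Equiv.Perm.sign b⁻¹ = 1
    change Equiv.Perm.sign b = 1 at h2
    rw [map_inv, h2]; rfl

def KS : Subgroup SS where
  carrier := {x | Equiv.Perm.sign x.left.1 = 1 ∧ Equiv.Perm.sign x.left.2 = 1}
  one_mem' := ⟨by simp, by simp⟩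
  mul_mem' := by
    rintro ⟨⟨a, b⟩, w⟩ ⟨⟨a', b'⟩, w'⟩ ⟨h1, h2⟩ ⟨h3, h4⟩
    change Equiv.Perm.sign a = 1 at h1
    change Equiv.Perm.sign b = 1 at h2
    change Equiv.Perm.sign a' = 1 at h3
    change Equiv.Perm.sign b' = 1 at h4
    rcases WW_cases w with rfl | rfl
    · refine ⟨?_, ?_⟩
      · change Equiv.Perm.sign (a * a') = 1
        rw [map_mul, h1, h3]; rfl
      · change Equiv.Perm.sign (b * b') = 1
        rw [map_mul, h2, h4]; rfl
    · refine ⟨?_, ?_⟩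
      · change Equiv.Perm.sign (a * b') = 1
        rw [map_mul, h1, h4]; rfl
      · change Equiv.Perm.sign (b * a') = 1
        rw [map_mul, h2, h3]; rfl
  inv_mem' := by
    rintro ⟨⟨a, b⟩, w⟩ ⟨h1, h2⟩
    change Equiv.Perm.sign a = 1 at h1
    change Equiv.Perm.sign b = 1 at h2
    rcases WW_cases w with rfl | rfl
    · refine ⟨?_, ?_⟩
      · change Equiv.Perm.sign a⁻¹ = 1
        rw [map_inv, h1]; rfl
      · change Equiv.Perm.sign b⁻¹ = 1
        rw [map_inv, h2]; rfl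
    · refine ⟨?_, ?_⟩
      · change Equiv.Perm.sign b⁻¹ = 1
        rw [map_inv, h2]; rfl
      · change Equiv.Perm.sign a⁻¹ = 1
        rw [map_inv, h1]; rfl

/-- The product of the signs of the two coordinates. -/
def sgn2 : SS →* ℤˣ where
  toFun x := Equiv.Perm.sign x.left.1 * Equiv.Perm.sign x.left.2
  map_one' := by simp
  map_mul' := by
    rintro ⟨⟨a, b⟩, w⟩ ⟨⟨a', b'⟩, w'⟩
    rcases WW_cases w with rfl | rfl
    · change Equiv.Perm.sign (a * a') * Equiv.Perm.sign (b * b') =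
        (Equiv.Perm.sign a * Equiv.Perm.sign b) * (Equiv.Perm.sign a' * Equiv.Perm.sign b')
      rw [map_mul, map_mul, mul_mul_mul_comm]
    · change Equiv.Perm.sign (a * b') * Equiv.Perm.sign (b * a') =
        (Equiv.Perm.sign a * Equiv.Perm.sign b) * (Equiv.Perm.sign a' * Equiv.Perm.sign b')
      rw [map_mul, map_mul, mul_mul_mul_comm, mul_comm (Equiv.Perm.sign b')]

lemma HS_le : HS ≤ (SemidirectProduct.rightHom : SS →* WW).ker := by
  rintro x ⟨h1, _⟩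
  exact h1

lemma KS_le : KS ≤ sgn2.ker := by
  rintro x ⟨h1, h2⟩
  rw [MonoidHom.mem_ker]
  change Equiv.Perm.sign x.left.1 * Equiv.Perm.sign x.left.2 = 1
  rw [h1, h2]; rfl

lemma HS_conj {h k : SS} (hh : h ∈ HS) (hk : k ∈ (SemidirectProduct.rightHom : SS →* WW).ker) :
    k * h * k⁻¹ ∈ HS := by
  obtain ⟨⟨a, b⟩, w⟩ := h
  obtain ⟨⟨p, q⟩, v⟩ := k
  obtain ⟨h1, h2⟩ := hh
  change w = 1 at h1
  change v = 1 at hk
  subst h1 hk
  change Equiv.Perm.sign b = 1 at h2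
  refine ⟨by simp, ?_⟩
  change Equiv.Perm.sign (q * b * q⁻¹) = 1
  rw [sgn_conj, h2]

lemma units_aux {u v : ℤˣ} (h : u * v = 1) : u = v := by
  rcases Int.units_eq_one_or u with rfl | rfl <;> rcases Int.units_eq_one_or v with rfl | rfl <;>
    first | rfl | (exfalso; revert h; decide)

lemma KS_conj {h k : SS} (hh : h ∈ KS) (hk : k ∈ sgn2.ker) : k * h * k⁻¹ ∈ KS := by
  obtain ⟨⟨a, b⟩, w⟩ := h
  obtain ⟨⟨p, q⟩, v⟩ := k
  obtain ⟨h1, h2⟩ := hh
  change Equiv.Perm.sign a = 1 at h1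
  change Equiv.Perm.sign b = 1 at h2
  have hpq : Equiv.Perm.sign p = Equiv.Perm.sign q := units_aux hk
  have hself : Equiv.Perm.sign q * (Equiv.Perm.sign q)⁻¹ = 1 := mul_inv_cancel _
  rcases WW_cases w with rfl | rfl <;> rcases WW_cases v with rfl | rfl
  · refine ⟨?_, ?_⟩
    · change Equiv.Perm.sign (p * a * p⁻¹) = 1
      rw [sgn_conj, h1]
    · change Equiv.Perm.sign (q * b * q⁻¹) = 1
      rw [sgn_conj, h2]
  · refine ⟨?_, ?_⟩
    · change Equiv.Perm.sign (p * b * p⁻¹) = 1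
      rw [sgn_conj, h2]
    · change Equiv.Perm.sign (q * a * q⁻¹) = 1
      rw [sgn_conj, h1]
  · refine ⟨?_, ?_⟩
    · change Equiv.Perm.sign (p * a * q⁻¹) = 1
      rw [map_mul, map_mul, map_inv, h1, hpq, mul_one, hself]
    · change Equiv.Perm.sign (q * b * p⁻¹) = 1
      rw [map_mul, map_mul, map_inv, h2, hpq, mul_one, hself]
  · refine ⟨?_, ?_⟩
    · change Equiv.Perm.sign (p * b * q⁻¹) = 1
      rw [map_mul, map_mul, map_inv, h2, hpq, mul_one, hself]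
    · change Equiv.Perm.sign (q * a * p⁻¹) = 1
      rw [map_mul, map_mul, map_inv, h1, hpq, mul_one, hself]

lemma HS_phi : ∀ d ∈ HS, ∀ Z : Subgroup SS, Z = L1 ∨ Z = L2 → Phi d Z U0 := by
  rintro ⟨⟨p, q⟩, w⟩ ⟨h1, h2⟩ Z hZ
  change w = 1 at h1
  subst h1
  exact phi_H h2 hZ

lemma KS_phi : ∀ d ∈ KS, ∀ Z : Subgroup SS, Z = L1 ∨ Z = L2 → Phi d Z U0 := by
  rintro d ⟨h1, h2⟩ Z hZ
  exact phi_K h1 h2 hZ

lemma HS_sub : HS.IsSubnormal :=
  IsSubnormal.step _ _ HS_le (MonoidHom.normal_ker _).isSubnormal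
    ((Subgroup.normal_subgroupOf_iff HS_le).mpr fun _ _ h k => HS_conj h k)

lemma KS_sub : KS.IsSubnormal :=
  IsSubnormal.step _ _ KS_le (MonoidHom.normal_ker _).isSubnormal
    ((Subgroup.normal_subgroupOf_iff KS_le).mpr fun _ _ h k => KS_conj h k)

lemma HS_sup_KS : HS ⊔ KS = ⊤ := by
  have h1 : ∀ p : P8, (⟨(p, 1), 1⟩ : SS) ∈ HS ⊔ KS := fun p =>
    mem_sup_left ⟨rfl, map_one _⟩
  have h2 : (⟨(1, 1), swW⟩ : SS) ∈ HS ⊔ KS := mem_sup_right ⟨map_one _, map_one _⟩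
  have h3 : ∀ q : P8, (⟨(1, q), 1⟩ : SS) ∈ HS ⊔ KS := by
    intro q
    have := mul_mem (mul_mem h2 (h1 q)) (inv_mem h2)
    have e : (⟨(1, 1), swW⟩ : SS) * ⟨(q, 1), 1⟩ * (⟨(1, 1), swW⟩ : SS)⁻¹ = ⟨(1, q), 1⟩ := by
      have := conj_il_sw 1 1 q 1
      simpa using this
    rwa [e] at this
  have h4 : ∀ p q : P8, (⟨(p, q), 1⟩ : SS) ∈ HS ⊔ KS := by
    intro p q
    have := mul_mem (h1 p) (h3 q)
    have e : (⟨(p, 1), 1⟩ : SS) * ⟨(1, q), 1⟩ = ⟨(p, q), 1⟩ := by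
      apply SemidirectProduct.ext
      · change (p * 1, 1 * q) = (p, q)
        simp
      · rfl
    rwa [e] at this
  rw [eq_top_iff]
  intro x _
  obtain ⟨p, q, rfl | rfl⟩ := SS_cases x
  · exact h4 p q
  · have := mul_mem (h4 p q) h2
    have e : (⟨(p, q), 1⟩ : SS) * ⟨(1, 1), swW⟩ = ⟨(p, q), swW⟩ := by
      apply SemidirectProduct.ext
      · change (p * 1, q * 1) = (p, q)
        simp
      · exact one_mul _
    rwa [e] at this

lemma chain_aux {G : Type*} [Group G] {H B : Subgroup G} (h1 : H ≤ B)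
    (h2 : ∀ h k : G, h ∈ H → k ∈ B → k * h * k⁻¹ ∈ H) (h3 : B.Normal) :
    ∃ n : ℕ, ∃ c : ℕ → Subgroup G, c 0 = H ∧ c n = ⊤ ∧
        ∀ i < n, c i ≤ c (i + 1) ∧ ((c i).subgroupOf (c (i + 1))).Normal := by
  refine ⟨2, fun i => if i = 0 then H else if i = 1 then B else ⊤, rfl, rfl, ?_⟩
  intro i hi
  have hi' : i = 0 ∨ i = 1 := by omega
  rcases hi' with rfl | rfl
  · refine ⟨h1, ?_⟩
    exact (Subgroup.normal_subgroupOf_iff h1).mpr h2
  · refine ⟨le_top, ?_⟩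
    change (B.subgroupOf ⊤).Normal
    exact (Subgroup.normal_subgroupOf_iff le_top).mpr fun h k hh _ => h3.conj_mem h hh k

end Pool.Agent.Helper70
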