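import Mathlib

/-!
Perfect single-headed subnormal subgroups (Wielandt's eingradige subgroups).
-/

set_option autoImplicit false

namespace Pool.Agent.Helper70

open Subgroup
open scoped commutatorElement

variable {G : Type*} [Group G]

/-- The conjugate subgroup `g Y g⁻¹`. -/
def cj (g : G) (Y : Subgroup G) : Subgroup G := Y.map (MulAut.conj g).toMonoidHom

lemma mem_cj {g x : G} {Y : Subgroup G} : x ∈ cj g Y ↔ g⁻¹ * x * g ∈ Y := by
  constructor
  · rintro ⟨y, hy, rfl⟩
    simpa [mul_assoc] using hy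
  · intro h
    exact ⟨g⁻¹ * x * g, h, by simp [mul_assoc]⟩

lemma conj_mem_cj {g x : G} {Y : Subgroup G} (hx : x ∈ Y) : g * x * g⁻¹ ∈ cj g Y := by
  rw [mem_cj]; simpa [mul_assoc] using hx

lemma conj_mem_cj_iff {g x : G} {Y : Subgroup G} : g * x * g⁻¹ ∈ cj g Y ↔ x ∈ Y := by
  rw [mem_cj]; simp [mul_assoc]

lemma cj_one (Y : Subgroup G) : cj 1 Y = Y := by
  ext x; simp [mem_cj]

lemma cj_cj (g h : G) (Y : Subgroup G) : cj g (cj h Y) = cj (g * h) Y := by
  ext x; simp [mem_cj, mul_assoc]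

lemma cj_inv_cj (g : G) (Y : Subgroup G) : cj g⁻¹ (cj g Y) = Y := by
  rw [cj_cj, inv_mul_cancel, cj_one]

lemma cj_cj_inv (g : G) (Y : Subgroup G) : cj g (cj g⁻¹ Y) = Y := by
  rw [cj_cj, mul_inv_cancel, cj_one]

lemma cj_injective (g : G) : Function.Injective (cj g : Subgroup G → Subgroup G) := by
  intro A B h
  have := congrArg (cj g⁻¹) h
  rwa [cj_inv_cj, cj_inv_cj] at this

lemma cj_mono {g : G} {A B : Subgroup G} (h : A ≤ B) : cj g A ≤ cj g B := by
  intro x hx; rw [mem_cj] at *; exact h hx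

lemma cj_le_cj_iff {g : G} {A B : Subgroup G} : cj g A ≤ cj g B ↔ A ≤ B := by
  refine ⟨fun h => ?_, cj_mono⟩
  have := cj_mono (g := g⁻¹) h
  rwa [cj_inv_cj, cj_inv_cj] at this

lemma cj_eq_iff_mem_normalizer {g : G} {Y : Subgroup G} :
    cj g Y = Y ↔ g ∈ normalizer (Y : Set G) := by
  rw [mem_normalizer_iff]
  constructor
  · intro h x
    constructor
    · intro hx
      rw [← h]; exact conj_mem_cj hx
    · intro hx
      rw [← h] at hx
      exact conj_mem_cj_iff.mp hx
  · intro h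
    ext x
    rw [mem_cj, h (g⁻¹ * x * g)]
    simp [mul_assoc]

lemma cj_eq_of_mem {g : G} {Y : Subgroup G} (hg : g ∈ Y) : cj g Y = Y :=
  cj_eq_iff_mem_normalizer.mpr (le_normalizer hg)

lemma cj_sup (g : G) (A B : Subgroup G) : cj g (A ⊔ B) = cj g A ⊔ cj g B := map_sup _ _ _

lemma cj_bot (g : G) : cj g (⊥ : Subgroup G) = ⊥ := map_bot _

lemma cj_normal {g : G} {K : Subgroup G} (hK : K.Normal) : cj g K = K := by
  rw [cj_eq_iff_mem_normalizer, normalizer_eq_top_iff.mpr hK]; trivial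

/-- normalizer of a conjugate -/
lemma mem_normalizer_cj {g n : G} {Y : Subgroup G} :
    n ∈ normalizer (cj g Y : Set G) ↔ g⁻¹ * n * g ∈ normalizer (Y : Set G) := by
  rw [← cj_eq_iff_mem_normalizer, ← cj_eq_iff_mem_normalizer, cj_cj]
  constructor
  · intro h
    have := congrArg (cj g⁻¹) h
    rwa [cj_inv_cj, cj_cj, ← mul_assoc] at this
  · intro h
    have := congrArg (cj g) h
    rwa [cj_cj, mul_assoc, mul_inv_cancel_left] at this

lemma normalizer_cj (g : G) (Y : Subgroup G) :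
    normalizer (cj g Y : Set G) = cj g (normalizer (Y : Set G)) := by
  ext n; rw [mem_normalizer_cj, mem_cj]

/-- Elementwise: `A` normalises `B`. -/
lemma le_norm_iff {A B : Subgroup G} :
    A ≤ normalizer (B : Set G) ↔ ∀ a ∈ A, ∀ b ∈ B, a * b * a⁻¹ ∈ B := by
  constructor
  · intro h a ha b hb
    exact (mem_normalizer_iff.mp (h ha) b).mp hb
  · intro h a ha
    rw [mem_normalizer_iff]
    intro b
    constructor
    · exact h a ha b
    · intro hb
      have := h a⁻¹ (A.inv_mem ha) _ hb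
      simpa [mul_assoc] using this

lemma norm_conj_mem {n b : G} {B : Subgroup G} (hn : n ∈ normalizer (B : Set G)) (hb : b ∈ B) :
    n * b * n⁻¹ ∈ B := (mem_normalizer_iff.mp hn b).mp hb

lemma norm_conj_mem' {n b : G} {B : Subgroup G} (hn : n ∈ normalizer (B : Set G)) (hb : b ∈ B) :
    n⁻¹ * b * n ∈ B := by
  have := norm_conj_mem (inv_mem hn) hb
  simpa using this

/-- Perfect single-headed subnormal subgroups. -/
structure IsHead (Y : Subgroup G) : Prop where
  subnormal : Y.IsSubnormal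
  ne_bot : Y ≠ ⊥
  perfect : ⁅Y, Y⁆ = Y
  prime : ∀ A B : Subgroup G, A ≤ Y → B ≤ Y → Y ≤ normalizer (A : Set G) →
    Y ≤ normalizer (B : Set G) → A ⊔ B = Y → A = Y ∨ B = Y

/-- The join of all proper normal subgroups of `Y`. -/
def rad (Y : Subgroup G) : Subgroup G :=
  sSup {A : Subgroup G | A ≤ Y ∧ Y ≤ normalizer (A : Set G) ∧ A ≠ Y}

lemma rad_le (Y : Subgroup G) : rad Y ≤ Y := sSup_le fun _ hA => hA.1

lemma le_rad {A Y : Subgroup G} (h1 : A ≤ Y) (h2 : Y ≤ normalizer (A : Set G)) (h3 : A ≠ Y) :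
    A ≤ rad Y := le_sSup ⟨h1, h2, h3⟩

lemma normalizer_sup_le {A B N : Subgroup G} (hA : N ≤ normalizer (A : Set G))
    (hB : N ≤ normalizer (B : Set G)) : N ≤ normalizer ((A ⊔ B : Subgroup G) : Set G) := by
  intro n hn
  rw [← cj_eq_iff_mem_normalizer, cj_sup, cj_eq_iff_mem_normalizer.mpr (hA hn),
    cj_eq_iff_mem_normalizer.mpr (hB hn)]

lemma cj_normalizer_set {g : G} {A Y : Subgroup G} :
    (cj g A ≤ cj g Y ∧ cj g Y ≤ normalizer (cj g A : Set G) ∧ cj g A ≠ cj g Y) ↔
      (A ≤ Y ∧ Y ≤ normalizer (A : Set G) ∧ A ≠ Y) := by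
  rw [cj_le_cj_iff, normalizer_cj, cj_le_cj_iff, (cj_injective g).ne_iff]

lemma cj_rad (g : G) (Y : Subgroup G) : cj g (rad Y) = rad (cj g Y) := by
  have key : ∀ (g : G) (Y : Subgroup G), cj g (rad Y) ≤ rad (cj g Y) := by
    intro g Y
    have : rad Y ≤ cj g⁻¹ (rad (cj g Y)) := by
      refine sSup_le fun A hA => ?_
      have h1 := (cj_normalizer_set (g := g)).mpr hA
      have h2 := le_rad h1.1 h1.2.1 h1.2.2
      have h3 := cj_mono (g := g⁻¹) h2
      rwa [cj_inv_cj] at h3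
    have h4 := cj_mono (g := g) this
    rwa [cj_cj_inv] at h4
  refine le_antisymm (key g Y) ?_
  have := cj_mono (g := g) (key g⁻¹ (cj g Y))
  rwa [cj_inv_cj, cj_cj_inv] at this

/-- Whatever normalises `Y` normalises `rad Y`. -/
lemma normalizer_le_normalizer_rad (Y : Subgroup G) :
    normalizer (Y : Set G) ≤ normalizer (rad Y : Set G) := by
  intro n hn
  rw [← cj_eq_iff_mem_normalizer] at *
  rw [cj_rad, hn]

lemma le_normalizer_rad (Y : Subgroup G) : Y ≤ normalizer (rad Y : Set G) :=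
  le_normalizer.trans (normalizer_le_normalizer_rad Y)

lemma IsHead.rad_ne [Finite G] {Y : Subgroup G} (hY : IsHead Y) : rad Y ≠ Y := by
  classical
  set T : Set (Subgroup G) := {A : Subgroup G | A ≤ Y ∧ Y ≤ normalizer (A : Set G) ∧ A ≠ Y}
  have hfin : T.Finite := Set.toFinite T
  have hbot : (⊥ : Subgroup G) ∈ T := by
    refine ⟨bot_le, ?_, fun h => hY.ne_bot h.symm⟩
    rw [le_norm_iff]
    intro a _ b hb
    rw [mem_bot] at hb
    simp [hb]
  obtain ⟨B, hB⟩ := hfin.exists_maximal ⟨_, hbot⟩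
  have hBT := hB.1
  have hmax : ∀ A ∈ T, A ≤ B := by
    intro A hA
    have hAB : A ⊔ B ∈ T := by
      refine ⟨sup_le hA.1 hBT.1, normalizer_sup_le hA.2.1 hBT.2.1, ?_⟩
      intro h
      rcases hY.prime A B hA.1 hBT.1 hA.2.1 hBT.2.1 h with h | h
      · exact hA.2.2 h
      · exact hBT.2.2 h
    exact le_sup_left.trans (hB.2 hAB le_sup_right)
  have : rad Y = B := le_antisymm (sSup_le hmax) (le_rad hBT.1 hBT.2.1 hBT.2.2)
  rw [this]; exact hBT.2.2

lemma IsHead.conj {Y : Subgroup G} (hY : IsHead Y) (g : G) : IsHead (cj g Y) where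
  subnormal := hY.subnormal.map (MulAut.conj g).surjective
  ne_bot := by
    intro h
    apply hY.ne_bot
    apply cj_injective g
    rw [h, cj_bot]
  perfect := by
    have := map_commutator Y Y (MulAut.conj g).toMonoidHom
    rw [hY.perfect] at this
    exact this.symm
  prime := by
    intro A B hA hB hA' hB' hAB
    have hA1 := cj_mono (g := g⁻¹) hA
    have hB1 := cj_mono (g := g⁻¹) hB
    rw [cj_inv_cj] at hA1 hB1
    have hA2 := cj_mono (g := g⁻¹) hA'
    have hB2 := cj_mono (g := g⁻¹) hB'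
    rw [cj_inv_cj, ← normalizer_cj] at hA2 hB2
    have hAB1 := congrArg (cj g⁻¹) hAB
    rw [cj_sup, cj_inv_cj] at hAB1
    rcases hY.prime _ _ hA1 hB1 hA2 hB2 hAB1 with h | h
    · left; rw [← h, cj_cj_inv]
    · right; rw [← h, cj_cj_inv]

lemma isHead_cj_iff {Y : Subgroup G} {g : G} : IsHead (cj g Y) ↔ IsHead Y := by
  refine ⟨fun h => ?_, fun h => h.conj g⟩
  have := h.conj g⁻¹
  rwa [cj_inv_cj] at this

/-- If `Y` is a head and `A, B` are normal in `Y` with join containing `Y`. -/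
lemma IsHead.eq_of_le_sup {Y A B : Subgroup G} (hY : IsHead Y) (hA : A ≤ Y) (hB : B ≤ Y)
    (hA' : Y ≤ normalizer (A : Set G)) (hB' : Y ≤ normalizer (B : Set G)) (h : Y ≤ A ⊔ B) :
    A = Y ∨ B = Y := hY.prime A B hA hB hA' hB' (le_antisymm (sup_le hA hB) h)

/-- The basic absorption lemma. -/
lemma IsHead.le_of_mul {Y Y' N : Subgroup G} (hY : IsHead Y)
    (hmul : ∀ y ∈ Y, ∃ y' ∈ Y', ∃ n ∈ N, y = y' * n)
    (h1 : Y ≤ normalizer (Y' : Set G)) (h2 : Y' ≤ normalizer (Y : Set G))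
    (h3 : N ≤ normalizer (Y : Set G)) (h4 : Y ≤ normalizer (N : Set G))
    (h5 : Y' ≤ normalizer (N : Set G)) (hne : ¬ Y ≤ N) : Y ≤ Y' := by
  have hW : Y ≤ (Y ⊓ Y') ⊔ (Y ⊓ N) := by
    conv_lhs => rw [← hY.perfect]
    rw [commutator_le]
    intro a ha b hb
    obtain ⟨b', hb', n, hn, rfl⟩ := hmul b hb
    rw [commutatorElement_mul_right_eq_mul_conj]
    have e1 : ⁅a, b'⁆ ∈ Y ⊓ Y' := by
      constructor
      · have := norm_conj_mem (h2 hb') (Y.inv_mem ha)
        have h := Y.mul_mem ha this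
        rw [commutatorElement_def]
        simpa [mul_assoc] using h
      · have := norm_conj_mem (h1 ha) hb'
        have h := Y'.mul_mem this (Y'.inv_mem hb')
        rw [commutatorElement_def]
        exact h
    have e2 : ⁅a, n⁆ ∈ Y ⊓ N := by
      constructor
      · have := norm_conj_mem (h3 hn) (Y.inv_mem ha)
        have h := Y.mul_mem ha this
        rw [commutatorElement_def]
        simpa [mul_assoc] using h
      · have := norm_conj_mem (h4 ha) hn
        have h := N.mul_mem this (N.inv_mem hn)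
        rw [commutatorElement_def]
        exact h
    have e3 : b' * ⁅a, n⁆ * b'⁻¹ ∈ Y ⊓ N :=
      ⟨norm_conj_mem (h2 hb') e2.1, norm_conj_mem (h5 hb') e2.2⟩
    have e4 : ⁅a, b'⁆ * (b' * ⁅a, n⁆ * b'⁻¹) ∈ (Y ⊓ Y') ⊔ (Y ⊓ N) :=
      mul_mem (mem_sup_left e1) (mem_sup_right e3)
    have e5 : ⁅a, b'⁆ * b' * ⁅a, n⁆ * b'⁻¹ = ⁅a, b'⁆ * (b' * ⁅a, n⁆ * b'⁻¹) := by group
    rw [e5]; exact e4
  have n1 : Y ≤ normalizer ((Y ⊓ Y' : Subgroup G) : Set G) := by
    rw [le_norm_iff]
    intro a ha b hb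
    exact ⟨Y.mul_mem (Y.mul_mem ha hb.1) (Y.inv_mem ha), norm_conj_mem (h1 ha) hb.2⟩
  have n2 : Y ≤ normalizer ((Y ⊓ N : Subgroup G) : Set G) := by
    rw [le_norm_iff]
    intro a ha b hb
    exact ⟨Y.mul_mem (Y.mul_mem ha hb.1) (Y.inv_mem ha), norm_conj_mem (h4 ha) hb.2⟩
  rcases hY.eq_of_le_sup inf_le_left inf_le_left n1 n2 hW with h | h
  · exact inf_eq_left.mp h
  · exact absurd (inf_eq_left.mp h) hne

/-- One step of the induction for `IsHead.normal_le_normalizer`. -/
lemma IsHead.step {Y H K' K : Subgroup G} (hY : IsHead Y) (hYH : Y ≤ H)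
    (hK' : K' ≤ normalizer (H : Set G)) (hK : K.Normal) (hKH : K ⊓ H ≤ normalizer (Y : Set G))
    (hne : ¬ Y ≤ K) : K ⊓ K' ≤ normalizer (Y : Set G) := by
  have key : ∀ k ∈ K ⊓ K', Y ≤ cj k Y := by
    intro k hk
    have hkH : k ∈ normalizer (H : Set G) := hK' hk.2
    have hkN : k ∈ normalizer ((K ⊓ H : Subgroup G) : Set G) := by
      rw [mem_normalizer_iff]
      intro x
      constructor
      · intro hx
        exact ⟨hK.conj_mem x hx.1 k, norm_conj_mem hkH hx.2⟩
      · intro hx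
        have a1 := hK.conj_mem _ hx.1 k⁻¹
        have a2 := norm_conj_mem' hkH hx.2
        refine ⟨by simpa [mul_assoc] using a1, by simpa [mul_assoc] using a2⟩
    -- `N := K ⊓ H` normalises the conjugate
    have hN' : K ⊓ H ≤ normalizer (cj k Y : Set G) := by
      intro n hn
      rw [mem_normalizer_cj]
      exact hKH (norm_conj_mem' hkN hn)
    have hcom : ∀ y ∈ Y, y⁻¹ * (k * y * k⁻¹) ∈ K ⊓ H := by
      intro y hy
      constructor
      · have a1 := hK.conj_mem _ hk.1 y⁻¹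
        have a2 := K.mul_mem a1 (K.inv_mem hk.1)
        simpa [mul_assoc] using a2
      · exact H.mul_mem (H.inv_mem (hYH hy)) (norm_conj_mem hkH (hYH hy))
    have hmul : ∀ y ∈ Y, ∃ y' ∈ cj k Y, ∃ n ∈ K ⊓ H, y = y' * n := by
      intro y hy
      refine ⟨k * y * k⁻¹, conj_mem_cj hy, (y⁻¹ * (k * y * k⁻¹))⁻¹, inv_mem (hcom y hy), ?_⟩
      group
    have hYN : Y ≤ normalizer (cj k Y : Set G) := by
      intro y hy
      obtain ⟨y', hy', n, hn, rfl⟩ := hmul y hy
      exact mul_mem (le_normalizer hy') (hN' hn)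
    have hcN : cj k Y ≤ normalizer (Y : Set G) := by
      intro y' hy'
      rw [mem_cj] at hy'
      have := hcom _ hy'
      have h2 := mul_mem (le_normalizer hy' : _ ∈ normalizer (Y : Set G)) (hKH this)
      simpa [mul_assoc] using h2
    refine hY.le_of_mul hmul hYN hcN hKH ?_ ?_ ?_
    · rw [le_norm_iff]
      intro a ha b hb
      exact ⟨hK.conj_mem b hb.1 a, H.mul_mem (H.mul_mem (hYH ha) hb.2) (H.inv_mem (hYH ha))⟩
    · rw [le_norm_iff]
      intro a ha b hb
      have haH : a ∈ H := by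
        rw [mem_cj] at ha
        have := norm_conj_mem hkH (hYH ha)
        simpa [mul_assoc] using this
      exact ⟨hK.conj_mem b hb.1 a, H.mul_mem (H.mul_mem haH hb.2) (H.inv_mem haH)⟩
    · exact fun h => hne (h.trans inf_le_left)
  intro k hk
  rw [← cj_eq_iff_mem_normalizer]
  refine le_antisymm ?_ (key k hk)
  have := cj_mono (g := k) (key k⁻¹ (inv_mem hk))
  rwa [cj_cj_inv] at this

/-- If `Y` is a head and `K` a normal subgroup not containing `Y`, then `K` normalises `Y`. -/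
lemma IsHead.normal_le_normalizer {Y K : Subgroup G} (hY : IsHead Y) (hK : K.Normal)
    (hne : ¬ Y ≤ K) : K ≤ normalizer (Y : Set G) := by
  have key : ∀ H : Subgroup G, H.IsSubnormal → Y ≤ H → K ⊓ H ≤ normalizer (Y : Set G) →
      K ≤ normalizer (Y : Set G) := by
    intro H hH
    induction hH with
    | top => intro _ h; simpa using h
    | step H K' hle hS hN ih =>
      intro h1 h2
      refine ih (h1.trans hle) ?_
      rw [normal_subgroupOf_iff_le_normalizer hle] at hN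
      exact hY.step h1 hN hK h2 hne
  exact key Y hY.subnormal le_rfl (inf_le_right.trans le_normalizer)

end Pool.Agent.Helper70
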