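import Pool.Agent.Helper70.Cent

/-!
Heads under injections with subnormal image, absorption by subnormal subgroups.
-/

set_option autoImplicit false

namespace Pool.Agent.Helper70

open Subgroup
open scoped commutatorElement

variable {G : Type*} [Group G]

section Inj

variable {Q : Type*} [Group Q] {f : G →* Q}

lemma mem_normalizer_map_inj (hf : Function.Injective f) {n : G} {Y : Subgroup G} :
    f n ∈ normalizer (Y.map f : Set Q) ↔ n ∈ normalizer (Y : Set G) := by
  rw [← cj_eq_iff_mem_normalizer, ← cj_eq_iff_mem_normalizer, ← map_cj]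
  exact (Subgroup.map_injective hf).eq_iff

lemma map_le_normalizer_map_iff (hf : Function.Injective f) {A Y : Subgroup G} :
    Y.map f ≤ normalizer (A.map f : Set Q) ↔ Y ≤ normalizer (A : Set G) := by
  constructor
  · intro h y hy
    exact (mem_normalizer_map_inj hf).mp (h ⟨y, hy, rfl⟩)
  · exact map_le_normalizer_map

lemma IsHead.of_map_inj (hf : Function.Injective f) {Y : Subgroup G} (h : IsHead (Y.map f)) :
    IsHead Y where
  subnormal := by
    have := h.subnormal.comap f
    rwa [Subgroup.comap_map_eq_self_of_injective hf] at this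
  ne_bot := by
    rintro rfl
    exact h.ne_bot (Subgroup.map_bot f)
  perfect := by
    apply Subgroup.map_injective hf
    rw [map_commutator, h.perfect]
  prime := by
    intro A B hA hB hA' hB' hAB
    rcases h.prime (A.map f) (B.map f) (Subgroup.map_mono hA) (Subgroup.map_mono hB)
      (map_le_normalizer_map hA') (map_le_normalizer_map hB')
      (by rw [← Subgroup.map_sup, hAB]) with h | h
    · left; exact Subgroup.map_injective hf h
    · right; exact Subgroup.map_injective hf h

lemma isSubnormal_map_inj (hr : f.range.IsSubnormal) {Y : Subgroup G}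
    (hY : Y.IsSubnormal) : (Y.map f).IsSubnormal := by
  have h1 : (Y.map f.rangeRestrict).IsSubnormal := hY.map f.rangeRestrict_surjective
  have h2 := h1.trans' hr
  rw [Subgroup.map_map] at h2
  exact h2

lemma IsHead.map_inj (hf : Function.Injective f) (hr : f.range.IsSubnormal) {Y : Subgroup G}
    (hY : IsHead Y) : IsHead (Y.map f) where
  subnormal := isSubnormal_map_inj hr hY.subnormal
  ne_bot := by
    intro h
    rw [Subgroup.map_eq_bot_iff] at h
    apply hY.ne_bot
    rw [eq_bot_iff]
    exact h.trans ((MonoidHom.ker_eq_bot_iff f).mpr hf).le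
  perfect := by rw [← map_commutator, hY.perfect]
  prime := by
    intro A B hA hB hA' hB' hAB
    have e : (Y ⊓ A.comap f) ⊔ (Y ⊓ B.comap f) = Y := by
      apply Subgroup.map_injective hf
      rw [Subgroup.map_sup, map_inf_comap hA, map_inf_comap hB, hAB]
    rcases hY.prime (Y ⊓ A.comap f) (Y ⊓ B.comap f) inf_le_left inf_le_left
      (le_normalizer_inf_comap hA') (le_normalizer_inf_comap hB') e with h | h
    · left; rw [← map_inf_comap hA, h]
    · right; rw [← map_inf_comap hB, h]

lemma isHead_map_iff (hf : Function.Injective f) (hr : f.range.IsSubnormal) {Y : Subgroup G} :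
    IsHead (Y.map f) ↔ IsHead Y := ⟨fun h => h.of_map_inj hf, fun h => h.map_inj hf hr⟩

lemma rad_map_inj (hf : Function.Injective f) (Y : Subgroup G) :
    (rad Y).map f = rad (Y.map f) := by
  apply le_antisymm
  · rw [Subgroup.map_le_iff_le_comap]
    refine sSup_le fun A hA => ?_
    rw [← Subgroup.map_le_iff_le_comap]
    refine le_rad (Subgroup.map_mono hA.1) (map_le_normalizer_map hA.2.1) ?_
    exact fun h => hA.2.2 (Subgroup.map_injective hf h)
  · refine sSup_le fun A hA => ?_
    rw [← map_inf_comap hA.1]
    refine Subgroup.map_mono (le_rad inf_le_left (le_normalizer_inf_comap hA.2.1) ?_)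
    intro h
    apply hA.2.2
    rw [← map_inf_comap hA.1, h]

lemma mem_rad_map_inj (hf : Function.Injective f) {Y : Subgroup G} {z : G} :
    f z ∈ rad (Y.map f) ↔ z ∈ rad Y := by
  rw [← rad_map_inj hf]
  exact Subgroup.mem_map_iff_mem hf

end Inj

/-- A subnormal subgroup not containing the head `Y` acts trivially on `Y / rad Y`. -/
lemma IsHead.subnormal_le_cent {Y K : Subgroup G} (hY : IsHead Y) (hK : K.IsSubnormal)
    (hne : ¬ Y ≤ K) : K ≤ cent Y := by
  induction hK with
  | top => exact absurd le_top hne
  | step K K' hle hS hN ih =>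
    by_cases h : Y ≤ K'
    · -- pass to the group `K'`
      have hinj : Function.Injective K'.subtype := K'.subtype_injective
      have e : (Y.subgroupOf K').map K'.subtype = Y := by
        rw [Subgroup.subgroupOf_map_subtype, inf_eq_left.mpr h]
      have hY' : IsHead (Y.subgroupOf K') := by
        apply IsHead.of_map_inj hinj
        rwa [e]
      have hne' : ¬ Y.subgroupOf K' ≤ K.subgroupOf K' := by
        intro h'
        apply hne
        have := Subgroup.map_mono (f := K'.subtype) h'
        rw [e, Subgroup.subgroupOf_map_subtype] at this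
        exact this.trans inf_le_left
      have hc := hY'.normal_le_cent hN hne'
      intro k hk
      have hk' : (⟨k, hle hk⟩ : K') ∈ K.subgroupOf K' := hk
      obtain ⟨h1, h2⟩ := hc hk'
      constructor
      · have := (mem_normalizer_map_inj (f := K'.subtype) hinj).mpr h1
        rw [e] at this
        exact this
      · intro y hy
        have hy' : (⟨y, h hy⟩ : K') ∈ Y.subgroupOf K' := hy
        have := (mem_rad_map_inj (f := K'.subtype) hinj).mpr (h2 _ hy')
        rw [e] at this
        exact this
    · exact hle.trans (ih h)

lemma IsHead.le_cent_of_ne [Finite G] {Z : Subgroup G} (hZ : IsHead Z) {g h : G}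
    (hne : cj g Z ≠ cj h Z) : cj g Z ≤ cent (cj h Z) := by
  refine (hZ.conj h).subnormal_le_cent (hZ.conj g).subnormal ?_
  intro hle
  apply hne
  symm
  apply Subgroup.eq_of_le_of_card_ge hle
  apply le_of_eq
  have hc : ∀ g : G, Nat.card (cj g Z) = Nat.card Z := by
    intro g
    exact (Nat.card_congr (Z.equivMapOfInjective _ (MulAut.conj g).injective).toEquiv).symm
  rw [hc, hc]

end Pool.Agent.Helper70
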