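import Mathlib

/-!
Abstract part of the proof that, for a continuum on which the Jones set function `T` is
continuous, the sets `T(x)` form a partition (MP_3a3191_gt).  Everything is derived from the
properties of `F x = T({x})` collected in `PointData`.
-/

namespace Helper70.JonesAbstract

open Set Topology

/-- The properties of `F x = T({x})` which are used. -/
structure PointData {S : Type*} [TopologicalSpace S] (F : S → Set S) : Prop where
  isClosed : ∀ x, IsClosed (F x)
  self_mem : ∀ x, x ∈ F x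
  conn : ∀ x, IsPreconnected (F x)
  trans : ∀ x y, y ∈ F x → F y ⊆ F x
  usc : ∀ x (U : Set S), IsOpen U → F x ⊆ U → ∃ N : Set S, IsOpen N ∧ x ∈ N ∧ ∀ y ∈ N, F y ⊆ U
  lsc : ∀ x (U : Set S), IsOpen U → (F x ∩ U).Nonempty →
    ∃ N : Set S, IsOpen N ∧ x ∈ N ∧ ∀ y ∈ N, (F y ∩ U).Nonempty
  sub : ∀ x z (H : Set S), IsClosed H → IsConnected H → z ∈ interior H → x ∉ H → z ∉ F x

variable {S : Type*} [TopologicalSpace S] {F : S → Set S}

/-- The points whose `F`-set is minimal. -/
def minimalSet (F : S → Set S) : Set S := {z | ∀ w ∈ F z, z ∈ F w}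

theorem exists_minimal [CompactSpace S] (hF : PointData F) (x : S) :
    (F x ∩ minimalSet F).Nonempty := by
  classical
  obtain ⟨m, hm⟩ := zorn_superset (F '' (F x)) (by
    intro c hc hchain
    rcases c.eq_empty_or_nonempty with rfl | hne
    · exact ⟨F x, ⟨x, hF.self_mem x, rfl⟩, by simp⟩
    · have hne' : (⋂₀ c).Nonempty := by
        have : Nonempty c := hne.to_subtype
        have := IsCompact.nonempty_sInter_of_directed_nonempty_isCompact_isClosed
          (S := c) (hS := hne.to_subtype) (hSd := by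
            intro a ha b hb
            rcases hchain.total ha hb with h | h
            · exact ⟨a, ha, subset_rfl, h⟩
            · exact ⟨b, hb, h, subset_rfl⟩) (hSn := by
            intro U hU
            obtain ⟨y, hy, rfl⟩ := hc hU
            exact ⟨y, hF.self_mem y⟩) (hSc := by
            intro U hU
            obtain ⟨y, hy, rfl⟩ := hc hU
            exact (hF.isClosed y).isCompact) (hScl := by
            intro U hU
            obtain ⟨y, hy, rfl⟩ := hc hU
            exact hF.isClosed y)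
        exact this
      obtain ⟨q, hq⟩ := hne'
      obtain ⟨s, hs⟩ := hne
      obtain ⟨y, hy, rfl⟩ := hc hs
      refine ⟨F q, ⟨q, hF.trans x y hy (hq _ hs), rfl⟩, ?_⟩
      intro t ht
      obtain ⟨y', hy', rfl⟩ := hc ht
      exact hF.trans y' q (hq _ ht))
  obtain ⟨y, hy, rfl⟩ := hm.prop
  refine ⟨y, hy, ?_⟩
  intro w hw
  have h1 : F w ⊆ F y := hF.trans y w hw
  have h2 : F w ∈ F '' (F x) := ⟨w, hF.trans x y hy hw, rfl⟩
  have h3 : F y ⊆ F w := hm.le_of_le h2 h1
  exact h3 (hF.self_mem y)

theorem subset_minimalSet (hF : PointData F) {z : S} (hz : z ∈ minimalSet F) :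
    F z ⊆ minimalSet F := by
  intro w hw u hu
  have h1 : z ∈ F u := hz u (hF.trans z w hw hu)
  exact hF.trans u z h1 hw

theorem isClosed_minimalSet [CompactSpace S] [T2Space S] (hF : PointData F) :
    IsClosed (minimalSet F) := by
  rw [← isOpen_compl_iff, isOpen_iff_forall_mem_open]
  intro z hz
  simp only [minimalSet, mem_compl_iff, mem_ofPred_eq, not_forall] at hz
  obtain ⟨w, hw, hzw⟩ := hz
  obtain ⟨A, B, hA, hB, hFA, hzB, hdisj⟩ :=
    ((hF.isClosed w).isCompact).separation_of_notMem hzw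
  obtain ⟨Nw, hNw, hwN, hN⟩ := hF.usc w A hA hFA
  obtain ⟨Nz, hNz, hzN, hN'⟩ := hF.lsc z Nw hNw ⟨w, hw, hwN⟩
  refine ⟨Nz ∩ B, ?_, hNz.inter hB, hzN, hzB⟩
  intro y hy hyM
  obtain ⟨w', hw', hw'N⟩ := hN' y hy.1
  have h1 : y ∈ A := hN w' hw'N (hyM w' hw')
  exact (Set.disjoint_left.mp hdisj) h1 hy.2

theorem isPreconnected_minimalSet [CompactSpace S] [T2Space S] [PreconnectedSpace S]
    (hF : PointData F) : IsPreconnected (minimalSet F) := by
  have hMc := isClosed_minimalSet hF
  rw [isPreconnected_iff_subset_of_fully_disjoint_closed hMc]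
  intro u v hu hv hsub hdisj
  by_contra hcon
  push Not at hcon
  obtain ⟨hcu, hcv⟩ := hcon
  obtain ⟨z2, hz2M, hz2u⟩ := Set.not_subset.mp hcu
  obtain ⟨z1, hz1M, hz1v⟩ := Set.not_subset.mp hcv
  have hz1u : z1 ∈ u := (hsub hz1M).resolve_right hz1v
  have hz2v : z2 ∈ v := (hsub hz2M).resolve_left hz2u
  -- for a minimal point the set `F z` lies in `u` or in `v`
  have key : ∀ z ∈ minimalSet F, F z ⊆ u ∨ F z ⊆ v := by
    intro z hz
    have h1 := (isPreconnected_iff_subset_of_fully_disjoint_closed (hF.isClosed z)).mp (hF.conn z)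
      u v hu hv ((subset_minimalSet hF hz).trans hsub) hdisj
    exact h1
  set J : Set S := {x | (F x ∩ (minimalSet F ∩ u)).Nonempty} with hJ
  have hJclosed : IsClosed J := by
    rw [← isOpen_compl_iff, isOpen_iff_forall_mem_open]
    intro x hx
    have hx' : F x ⊆ (minimalSet F ∩ u)ᶜ := by
      intro y hy hy'
      exact hx ⟨y, hy, hy'⟩
    obtain ⟨N, hN, hxN, hN'⟩ := hF.usc x _ (hMc.inter hu).isOpen_compl hx'
    refine ⟨N, ?_, hN, hxN⟩
    intro y hy ⟨w, hw, hw'⟩
    exact hN' y hy hw hw'
  have hJopen : IsOpen J := by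
    rw [isOpen_iff_forall_mem_open]
    rintro x ⟨z, hzx, hzM, hzu⟩
    have hzsub : F z ⊆ u := by
      rcases key z hzM with h | h
      · exact h
      · exact absurd (h (hF.self_mem z)) (Set.disjoint_left.mp hdisj hzu)
    have hzv : F z ⊆ vᶜ := fun y hy hyv => Set.disjoint_left.mp hdisj (hzsub hy) hyv
    obtain ⟨N, hN, hzN, hN'⟩ := hF.usc z _ hv.isOpen_compl hzv
    obtain ⟨Nx, hNx, hxN, hNx'⟩ := hF.lsc x N hN ⟨z, hzx, hzN⟩
    refine ⟨Nx, ?_, hNx, hxN⟩
    intro y hy
    obtain ⟨b, hb, hbN⟩ := hNx' y hy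
    obtain ⟨m, hm, hmM⟩ := exists_minimal hF b
    have hmv : m ∉ v := hN' b hbN hm
    exact ⟨m, hF.trans y b hb hm, hmM, (hsub hmM).resolve_right hmv⟩
  have hJuniv : J = univ := IsClopen.eq_univ ⟨hJclosed, hJopen⟩
    ⟨z1, z1, hF.self_mem z1, hz1M, hz1u⟩
  have hz2J : z2 ∈ J := by rw [hJuniv]; trivial
  obtain ⟨w, hw, hwM, hwu⟩ := hz2J
  rcases key z2 hz2M with h | h
  · exact hz2u (h (hF.self_mem z2))
  · exact Set.disjoint_left.mp hdisj hwu (h hw)

theorem minimalSet_eq_univ [CompactSpace S] [T2Space S] [PreconnectedSpace S]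
    (hF : PointData F) : minimalSet F = univ := by
  rw [eq_univ_iff_forall]
  intro x
  by_contra hx
  obtain ⟨z, hzx, hzM⟩ := exists_minimal hF x
  have hMc := isClosed_minimalSet hF
  have hxz : x ∉ F z := fun h => hx (subset_minimalSet hF hzM h)
  obtain ⟨O, B, hO, hB, hFO, hxB, hdisj⟩ :=
    ((hF.isClosed z).isCompact).separation_of_notMem hxz
  have hxO : x ∉ closure O := by
    intro h
    have h1 : closure O ⊆ Bᶜ :=
      closure_minimal (fun y hy hyB => Set.disjoint_left.mp hdisj hy hyB) hB.isClosed_compl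
    exact h1 h hxB
  obtain ⟨N, hN, hzN, hN'⟩ := hF.usc z O hO hFO
  set H0 : Set S := minimalSet F ∪ ⋃ w ∈ N, F w with hH0
  have hH0conn : IsPreconnected H0 := by
    have h1 : H0 = ⋃₀ ((fun w => minimalSet F ∪ F w) '' N) := by
      ext y
      simp only [hH0, mem_union, mem_iUnion, exists_prop, sUnion_image]
      constructor
      · rintro (h | ⟨w, hw, h⟩)
        · exact ⟨z, hzN, Or.inl h⟩
        · exact ⟨w, hw, Or.inr h⟩
      · rintro ⟨w, hw, h | h⟩
        · exact Or.inl h
        · exact Or.inr ⟨w, hw, h⟩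
    rw [h1]
    apply isPreconnected_sUnion z
    · rintro _ ⟨w, hw, rfl⟩
      exact Or.inl hzM
    · rintro _ ⟨w, hw, rfl⟩
      obtain ⟨m, hm, hmM⟩ := exists_minimal hF w
      exact IsPreconnected.union m hmM hm (isPreconnected_minimalSet hF) (hF.conn w)
  have hHconn : IsConnected (closure H0) :=
    ⟨⟨z, subset_closure (Or.inl hzM)⟩, hH0conn.closure⟩
  have hzH : z ∈ interior (closure H0) := by
    rw [mem_interior]
    refine ⟨N, ?_, hN, hzN⟩
    intro w hw
    apply subset_closure
    right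
    simp only [mem_iUnion, exists_prop]
    exact ⟨w, hw, hF.self_mem w⟩
  have hxH : x ∉ closure H0 := by
    rw [hH0, closure_union, hMc.closure_eq]
    rintro (h | h)
    · exact hx h
    · apply hxO
      refine closure_mono ?_ h
      intro y hy
      simp only [mem_iUnion, exists_prop] at hy
      obtain ⟨w, hw, hyw⟩ := hy
      exact hN' w hw hyw
  exact hF.sub x z (closure H0) isClosed_closure hHconn hzH hxH hzx

/-- The relation `y ∈ F x` is symmetric. -/
theorem symm [CompactSpace S] [T2Space S] [PreconnectedSpace S]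
    (hF : PointData F) {x y : S} (h : y ∈ F x) : x ∈ F y := by
  have hx : x ∈ minimalSet F := by rw [minimalSet_eq_univ hF]; trivial
  exact hx y h

theorem eq_of_mem [CompactSpace S] [T2Space S] [PreconnectedSpace S]
    (hF : PointData F) {x y : S} (h : y ∈ F x) : F y = F x :=
  Subset.antisymm (hF.trans x y h) (hF.trans y x (symm hF h))

/-- If some `F p` has nonempty interior then all `F x` are the whole space. -/
theorem eq_univ_of_interior [CompactSpace S] [T2Space S] [PreconnectedSpace S]
    (hF : PointData F) {p : S} (hp : (interior (F p)).Nonempty) (x : S) : F x = univ := by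
  have hopen : IsOpen (F p) := by
    rw [isOpen_iff_forall_mem_open]
    intro y hy
    have h1 : (F y ∩ interior (F p)).Nonempty := by
      rw [eq_of_mem hF hy]
      obtain ⟨w, hw⟩ := hp
      exact ⟨w, interior_subset hw, hw⟩
    obtain ⟨N, hN, hyN, hN'⟩ := hF.lsc y _ isOpen_interior h1
    refine ⟨N, ?_, hN, hyN⟩
    intro u hu
    obtain ⟨w, hw, hwp⟩ := hN' u hu
    rw [← eq_of_mem hF (interior_subset hwp), eq_of_mem hF hw]
    exact hF.self_mem u
  have hpu : F p = univ := IsClopen.eq_univ ⟨hF.isClosed p, hopen⟩ ⟨p, hF.self_mem p⟩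
  have hx : x ∈ F p := by rw [hpu]; trivial
  rw [eq_of_mem hF hx, hpu]

/-- If some `F p` has nonempty interior, the space is not a union of two proper subcontinua. -/
theorem indecomposable_of_interior [CompactSpace S] [T2Space S] [PreconnectedSpace S]
    (hF : PointData F) {p : S} (hp : (interior (F p)).Nonempty)
    {A B : Set S} (hA : IsClosed A) (hAc : IsConnected A) (hB : IsClosed B)
    (hAB : A ∪ B = univ) : A = univ ∨ B = univ := by
  by_contra hcon
  push Not at hcon
  obtain ⟨hA1, hB1⟩ := hcon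
  obtain ⟨z, hz⟩ := (Set.ne_univ_iff_exists_notMem B).mp hB1
  obtain ⟨x, hx⟩ := (Set.ne_univ_iff_exists_notMem A).mp hA1
  have hzA : z ∈ interior A := by
    rw [mem_interior]
    refine ⟨Bᶜ, ?_, hB.isOpen_compl, hz⟩
    intro y hy
    have : y ∈ A ∪ B := by rw [hAB]; trivial
    exact this.resolve_right hy
  have h1 := hF.sub x z A hA hAc hzA hx
  apply h1
  rw [eq_univ_of_interior hF hp x]
  trivial

end Helper70.JonesAbstract
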