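import Mathlib

/-!
`T(p)` is connected for every point `p` of a continuum (no continuity needed; MP_3a3191_gt).
-/

namespace Helper70.JonesConn

open Set Topology

variable {S : Type*} [TopologicalSpace S]

/-- The Jones set function on points. -/
def Tpt (p : S) : Set S :=
  {x | ∀ W : Set S, IsClosed W → IsConnected W → x ∈ interior W → p ∈ W}

/-- Boundary bumping in the form which is needed: if the frontier of an open set `U` is covered by
the interiors of finitely many continua missing `p`, and `p` is not in the closure of `U`, then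
every point of `U` has a continuum neighbourhood which misses `p`. -/
theorem exists_continuum [PreconnectedSpace S] {ι : Type*} (I : Finset ι) (W : ι → Set S)
    (hWc : ∀ i ∈ I, IsClosed (W i)) (hW : ∀ i ∈ I, IsPreconnected (W i))
    {U : Set S} (hU : IsOpen U) (hcov : frontier U ⊆ ⋃ i ∈ I, W i)
    {p q : S} (hq : q ∈ U) (hp : p ∉ closure U) (hpW : ∀ i ∈ I, p ∉ W i) :
    ∃ K : Set S, IsClosed K ∧ IsConnected K ∧ q ∈ interior K ∧ p ∉ K := by
  classical
  set H : Set S := closure U ∪ ⋃ i ∈ I, W i with hH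
  have hHc : IsClosed H := isClosed_closure.union (isClosed_biUnion_finset hWc)
  have hpH : p ∉ H := by
    rintro (h | h)
    · exact hp h
    · simp only [mem_iUnion, exists_prop] at h
      obtain ⟨i, hi, h⟩ := h
      exact hpW i hi h
  have hUH : U ⊆ H := fun x hx => Or.inl (subset_closure hx)
  let good : Set S → Prop := fun Z => IsClosed Z ∧ IsClosed (H \ Z) ∧ Z ⊆ H ∧ q ∈ Z
  let n : Set S → ℕ := fun Z => (I.filter (fun i => W i ⊆ Z)).card
  have hgoodH : good H := ⟨hHc, by simp, subset_rfl, hUH hq⟩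
  obtain ⟨Z, hZ, hmin⟩ : ∃ Z, good Z ∧ ∀ Z', good Z' → n Z ≤ n Z' := by
    have hex : ∃ k, ∃ Z, good Z ∧ n Z = k := ⟨_, H, hgoodH, rfl⟩
    obtain ⟨Z, hZ, hZn⟩ := Nat.find_spec hex
    refine ⟨Z, hZ, fun Z' hZ' => ?_⟩
    rw [hZn]
    exact Nat.find_min' hex ⟨Z', hZ', rfl⟩
  obtain ⟨hZc, hZc', hZH, hqZ⟩ := hZ
  -- the main step
  have main : ∀ u v : Set S, IsClosed u → IsClosed v → Z ⊆ u ∪ v → Disjoint u v → q ∈ u →
      Z ⊆ u := by
    intro u v hu hv hsub hdisj hqu
    by_contra hcon
    obtain ⟨y, hyZ, hyu⟩ := Set.not_subset.mp hcon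
    have hyv : y ∈ v := (hsub hyZ).resolve_left hyu
    have hdiff : H \ (Z ∩ u) = (H \ Z) ∪ (Z ∩ v) := by
      ext x
      constructor
      · rintro ⟨hxH, hx⟩
        by_cases hxZ : x ∈ Z
        · right
          exact ⟨hxZ, (hsub hxZ).resolve_left (fun h => hx ⟨hxZ, h⟩)⟩
        · left
          exact ⟨hxH, hxZ⟩
      · rintro (⟨hxH, hx⟩ | ⟨hxZ, hxv⟩)
        · exact ⟨hxH, fun h => hx h.1⟩
        · exact ⟨hZH hxZ, fun h => Set.disjoint_left.mp hdisj h.2 hxv⟩
    have hgood1 : good (Z ∩ u) := by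
      refine ⟨hZc.inter hu, ?_, fun x hx => hZH hx.1, hqZ, hqu⟩
      rw [hdiff]
      exact hZc'.union (hZc.inter hv)
    have hle := hmin _ hgood1
    have hsubF : I.filter (fun i => W i ⊆ Z ∩ u) ⊆ I.filter (fun i => W i ⊆ Z) := by
      intro i hi
      rw [Finset.mem_filter] at hi ⊢
      exact ⟨hi.1, fun x hx => (hi.2 hx).1⟩
    have heq : I.filter (fun i => W i ⊆ Z ∩ u) = I.filter (fun i => W i ⊆ Z) :=
      Finset.eq_of_subset_of_card_le hsubF hle
    -- no `W i` meets `Z ∩ v`
    have hno : ∀ i ∈ I, ∀ x ∈ W i, x ∉ Z ∩ v := by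
      intro i hi x hx hxZv
      have h1 : W i ⊆ Z ∪ (H \ Z) := by
        intro t ht
        by_cases htZ : t ∈ Z
        · exact Or.inl htZ
        · refine Or.inr ⟨Or.inr ?_, htZ⟩
          simp only [mem_iUnion, exists_prop]
          exact ⟨i, hi, ht⟩
      have h2 := (isPreconnected_iff_subset_of_fully_disjoint_closed (hWc i hi)).mp (hW i hi)
        Z (H \ Z) hZc hZc' h1 disjoint_sdiff_right
      rcases h2 with h2 | h2
      · have h3 : i ∈ I.filter (fun i => W i ⊆ Z) := Finset.mem_filter.mpr ⟨hi, h2⟩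
        rw [← heq] at h3
        have h4 := (Finset.mem_filter.mp h3).2
        exact Set.disjoint_left.mp hdisj (h4 hx).2 hxZv.2
      · exact (h2 hx).2 hxZv.1
    have hZvU : Z ∩ v ⊆ U := by
      intro x hx
      have hxH := hZH hx.1
      rcases hxH with h | h
      · by_contra hxU
        have hxf : x ∈ frontier U := by
          rw [frontier, hU.interior_eq]
          exact ⟨h, hxU⟩
        have := hcov hxf
        simp only [mem_iUnion, exists_prop] at this
        obtain ⟨i, hi, h'⟩ := this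
        exact hno i hi x h' hx
      · simp only [mem_iUnion, exists_prop] at h
        obtain ⟨i, hi, h'⟩ := h
        exact absurd hx (hno i hi x h')
    have hopen : IsOpen (Z ∩ v) := by
      have h1 : Z ∩ v = U \ (H \ (Z ∩ v)) := by
        ext x
        constructor
        · intro hx
          exact ⟨hZvU hx, fun h => h.2 hx⟩
        · rintro ⟨hxU, hx⟩
          by_contra hcon
          exact hx ⟨hUH hxU, hcon⟩
      have hdiff' : H \ (Z ∩ v) = (H \ Z) ∪ (Z ∩ u) := by
        ext x
        constructor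
        · rintro ⟨hxH, hx⟩
          by_cases hxZ : x ∈ Z
          · right
            exact ⟨hxZ, (hsub hxZ).resolve_right (fun h => hx ⟨hxZ, h⟩)⟩
          · left
            exact ⟨hxH, hxZ⟩
        · rintro (⟨hxH, hx⟩ | ⟨hxZ, hxu⟩)
          · exact ⟨hxH, fun h => hx h.1⟩
          · exact ⟨hZH hxZ, fun h => Set.disjoint_left.mp hdisj hxu h.2⟩
      rw [h1, hdiff']
      exact hU.sdiff (hZc'.union (hZc.inter hu))
    have huniv : Z ∩ v = univ := IsClopen.eq_univ ⟨hZc.inter hv, hopen⟩ ⟨y, hyZ, hyv⟩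
    apply hpH
    have : p ∈ Z ∩ v := by rw [huniv]; trivial
    exact hZH this.1
  refine ⟨Z, hZc, ⟨⟨q, hqZ⟩, ?_⟩, ?_, fun h => hpH (hZH h)⟩
  · rw [isPreconnected_iff_subset_of_fully_disjoint_closed hZc]
    intro u v hu hv hsub hdisj
    rcases hsub hqZ with h | h
    · exact Or.inl (main u v hu hv hsub hdisj h)
    · exact Or.inr (main v u hv hu (by rwa [union_comm]) hdisj.symm h)
  · rw [mem_interior]
    refine ⟨U \ (H \ Z), ?_, hU.sdiff hZc', hq, fun h => h.2 hqZ⟩
    rintro x ⟨hxU, hx⟩
    by_contra hcon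
    exact hx ⟨hUH hxU, hcon⟩

theorem isClosed_Tpt (p : S) : IsClosed (Tpt p) := by
  rw [← isOpen_compl_iff, isOpen_iff_forall_mem_open]
  intro x hx
  simp only [Tpt, mem_compl_iff, mem_ofPred_eq, not_forall] at hx
  obtain ⟨W, hWc, hW, hxW, hpW⟩ := hx
  exact ⟨interior W, fun y hy hy' => hpW (hy' W hWc hW hy), isOpen_interior, hxW⟩

theorem self_mem_Tpt (p : S) : p ∈ Tpt p := fun _ _ _ h => interior_subset h

/-- `T(p)` is connected. -/
theorem isPreconnected_Tpt [CompactSpace S] [T2Space S] [PreconnectedSpace S] (p : S) :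
    IsPreconnected (Tpt p) := by
  have main : ∀ u v : Set S, IsClosed u → IsClosed v → Tpt p ⊆ u ∪ v → Disjoint u v → p ∈ u →
      Tpt p ⊆ u := by
    intro u v hu hv hsub hdisj hpu q hq
    by_contra hqu
    have hqv : q ∈ v := (hsub hq).resolve_left hqu
    obtain ⟨U, hU, hvU, hUu⟩ := normal_exists_closure_subset hv hu.isOpen_compl
      (fun x hx hxu => Set.disjoint_left.mp hdisj hxu hx)
    have hfr : ∀ y ∈ frontier U, ∃ W : Set S, IsClosed W ∧ IsConnected W ∧ y ∈ interior W ∧
        p ∉ W := by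
      intro y hy
      have hyT : y ∉ Tpt p := by
        intro h
        rcases hsub h with h' | h'
        · exact hUu (frontier_subset_closure hy) h'
        · rw [frontier, hU.interior_eq] at hy
          exact hy.2 (hvU h')
      simp only [Tpt, mem_ofPred_eq, not_forall] at hyT
      obtain ⟨W, h1, h2, h3, h4⟩ := hyT
      exact ⟨W, h1, h2, h3, h4⟩
    choose! W hW using hfr
    have hcomp : IsCompact (frontier U) := isClosed_frontier.isCompact
    obtain ⟨I, hcov⟩ := hcomp.elim_nhds_subcover' (fun y _ => W y)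
      (fun y hy => mem_interior_iff_mem_nhds.mp (hW y hy).2.2.1)
    obtain ⟨K, hK1, hK2, hK3, hK4⟩ := exists_continuum (p := p) (q := q) I
      (fun y : frontier U => W y) (fun y _ => (hW y y.2).1)
      (fun y _ => (hW y y.2).2.1.isPreconnected) hU hcov (hvU hqv)
      (fun h => hUu h hpu) (fun y _ => (hW y y.2).2.2.2)
    exact hK4 (hq K hK1 hK2 hK3)
  rw [isPreconnected_iff_subset_of_fully_disjoint_closed (isClosed_Tpt p)]
  intro u v hu hv hsub hdisj
  rcases hsub (self_mem_Tpt p) with h | h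
  · exact Or.inl (main u v hu hv hsub hdisj h)
  · exact Or.inr (main v u hv hu (by rwa [union_comm]) hdisj.symm h)

end Helper70.JonesConn
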