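import Pool.Agent.Helper70.FClass

/-!
Closure of the class under normal products.
-/

set_option autoImplicit false

namespace Pool.Agent.Helper70

open Subgroup
open scoped commutatorElement

variable {G : Type*} [Group G]

lemma Adm.conj {Z Y : Subgroup G} (h : Adm Z Y) (g : G) : Adm (cj g Z) (cj g Y) where
  hZ := h.hZ.conj g
  hY := h.hY.conj g
  rad_le := by
    rw [← cj_rad, normalizer_cj]
    exact cj_mono h.rad_le
  not_le := by
    rw [normalizer_cj, cj_le_cj_iff]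
    exact h.not_le

lemma phi_of_mem [Finite G] {K : Subgroup G} (hK : K.Normal) (h : FR K) {Z Y : Subgroup G}
    (hA : Adm Z Y) {k : G} (hk : k ∈ K) : Phi k Z (normalizer (Y : Set G)) := by
  by_cases hZ : Z ≤ K
  · have hY : Y ≤ K := by
      by_contra hY
      exact hA.not_le (hZ.trans (hA.hY.normal_le_normalizer hK hY))
    exact h Z Y hZ hY hA k hk
  · have hc := hA.hZ.normal_le_cent hK hZ hk
    constructor
    · intro _
      left
      intro z hz _
      exact Sim.refl_of (hc.2 z hz)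
    · intro hne
      exact absurd (cj_eq_iff_mem_normalizer.mpr hc.1) hne

lemma ne_symm_cj [Finite G] {Z : Subgroup G} (hZ : IsHead Z) {h : G} (hne : cj h Z ≠ Z) :
    Z ≤ cent (cj h Z) ∧ cj h Z ≤ cent Z := by
  have h1 : cj 1 Z ≠ cj h Z := by rw [cj_one]; exact hne.symm
  have a := hZ.le_cent_of_ne h1
  have b := hZ.le_cent_of_ne h1.symm
  rw [cj_one] at a b
  exact ⟨a, b⟩

lemma Sp.unique [Finite G] {Z T : Subgroup G} (hZ : IsHead Z) (hT : rad Z ≤ T) {h k : G}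
    (hh : cj h Z ≠ Z) (hk : cj k Z ≠ Z) (Sh : Sp h Z (cj h Z) T) (Sk : Sp k Z (cj k Z) T) :
    cj h Z = cj k Z := by
  by_contra hne
  obtain ⟨c₁, hc₁, c₂, hc₂, h12, hn1⟩ := Sk.np
  apply hn1
  have key := Sh.sn c₁ hc₁ 1 (one_mem _) ?_
  · simpa using key
  intro w hw w' hw' hww'
  have d1 := ((ne_symm_cj hZ hk).2 hc₂).2 w hw
  have d2 := (hZ.le_cent_of_ne (Ne.symm hne) hc₂).2 w' hw'
  have d3 : c₁ * (c₂ * w * c₂⁻¹ * w⁻¹) * c₁⁻¹ ∈ T :=
    hT (norm_conj_mem (le_normalizer_rad Z hc₁) d1)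
  have hZN : Z ≤ normalizer (rad (cj h Z) : Set G) :=
    ((ne_symm_cj hZ hh).1.trans (cent_le_normalizer _)).trans (normalizer_le_normalizer_rad _)
  have d4 : (c₁ * w) * (c₂ * w' * c₂⁻¹ * w'⁻¹) * (c₁ * w)⁻¹ ∈ T :=
    Sh.rad_le (norm_conj_mem (hZN (Z.mul_mem hc₁ hw)) d2)
  have d5 : (c₁ * c₂) * (w * w') * (c₁ * c₂)⁻¹ ∈ T :=
    T.mul_mem (T.mul_mem h12 hww') (T.inv_mem h12)
  have d6 := T.mul_mem (T.inv_mem d4) (T.mul_mem (T.inv_mem d3) d5)
  have e : c₁ * 1 * (w * w') * (c₁ * 1)⁻¹ =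
      ((c₁ * w) * (c₂ * w' * c₂⁻¹ * w'⁻¹) * (c₁ * w)⁻¹)⁻¹ *
        ((c₁ * (c₂ * w * c₂⁻¹ * w⁻¹) * c₁⁻¹)⁻¹ * ((c₁ * c₂) * (w * w') * (c₁ * c₂)⁻¹)) := by
    group
  rw [e]; exact d6

lemma Ev.mul {Z : Subgroup G} {n m : G} (hm : cj m Z = Z) (h1 : Ev Z n)
    (h2 : Ev Z m) : Ev Z (n * m) := by
  intro z hz hz7
  have a1 : m * z * m⁻¹ ∈ Z := by rw [← hm]; exact conj_mem_cj hz
  have a2 : (m * z * m⁻¹) ^ 7 ∈ rad Z := by
    rw [conj_pow]
    have := norm_conj_mem (normalizer_le_normalizer_rad Z (cj_eq_iff_mem_normalizer.mp hm)) hz7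
    exact this
  have a3 := h1 _ a1 a2
  have e : n * m * z * (n * m)⁻¹ = n * (m * z * m⁻¹) * n⁻¹ := by group
  rw [e]
  exact a3.trans (h2 z hz hz7)

lemma claim2 {P : Set G}
    (hP : ∀ k ∈ P, ∀ Z Y : Subgroup G, Adm Z Y → Phi k Z (normalizer (Y : Set G)))
    {Z Y : Subgroup G} (hA : Adm Z Y) {h : G} (hh : h ∈ P) (hne : cj h Z ≠ Z) {k : G} (hk : k ∈ P)
    (hkZ : cj k Z = Z) : Ev Z k := by
  have S := (hP h hh Z Y hA).move hne
  by_contra hEv
  have a1 := ((hP k hk Z Y hA).fix hkZ).resolve_left hEv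
  have hA1 : Adm (cj h Z) Y := ⟨hA.hZ.conj h, hA.hY, S.rad_le, S.not_le⟩
  have hA2 := hA1.conj h⁻¹
  rw [cj_inv_cj] at hA2
  have a2 := ((hP k hk Z _ hA2).fix hkZ).resolve_left hEv
  refine S.asym ⟨a1, ?_⟩
  intro x hx
  rw [← cj_rad, mem_cj]
  apply a2
  refine ⟨mem_cj.mp hx.1, ?_⟩
  have : h⁻¹ * x * h ∈ normalizer (cj h⁻¹ Y : Set G) := by
    rw [mem_normalizer_cj]
    have e : h⁻¹⁻¹ * (h⁻¹ * x * h) * h⁻¹ = x := by group
    rw [e]; exact hx.2
  exact this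

lemma pow_mem_rad_conj {Z Z' : Subgroup G} {m z : G} (hm : cj m Z = Z') (hz : z ^ 7 ∈ rad Z) :
    (m * z * m⁻¹) ^ 7 ∈ rad Z' := by
  rw [conj_pow, ← hm, ← cj_rad]
  exact conj_mem_cj hz

lemma phi_mul [Finite G] {P : Set G} (hinv : ∀ k ∈ P, k⁻¹ ∈ P)
    (hP : ∀ k ∈ P, ∀ Z Y : Subgroup G, Adm Z Y → Phi k Z (normalizer (Y : Set G)))
    {n m : G} (hn : n ∈ P) (hm : m ∈ P) {Z Y : Subgroup G} (hA : Adm Z Y) :
    Phi (n * m) Z (normalizer (Y : Set G)) := by
  by_cases hall : ∀ k ∈ P, cj k Z = Z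
  · have h1 := hall n hn
    have h2 := hall m hm
    have h3 : cj (n * m) Z = Z := by rw [← cj_cj, h2, h1]
    constructor
    · intro _
      rcases (hP n hn Z Y hA).fix h1 with a | a
      · rcases (hP m hm Z Y hA).fix h2 with b | b
        · left; exact a.mul h2 b
        · right; exact b
      · right; exact a
    · intro hne; exact absurd h3 hne
  push Not at hall
  obtain ⟨h, hh, hne⟩ := hall
  obtain ⟨Z', hZ'⟩ : ∃ Z', Z' = cj h Z := ⟨_, rfl⟩
  have S := (hP h hh Z Y hA).move hne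
  have hA' : Adm Z' Y := by
    rw [hZ']
    exact ⟨hA.hZ.conj h, hA.hY, S.rad_le, S.not_le⟩
  have hh' : h⁻¹ ∈ P := hinv h hh
  have hZZ' : Z' ≠ Z := by rw [hZ']; exact hne
  have hback : cj h⁻¹ Z' = Z := by rw [hZ', cj_inv_cj]
  have hne' : cj h⁻¹ Z' ≠ Z' := by rw [hback]; exact hZZ'.symm
  -- partners
  have p1 : ∀ k ∈ P, cj k Z = Z ∨ cj k Z = Z' := by
    intro k hk
    by_cases hkZ : cj k Z = Z
    · left; exact hkZ
    · right
      rw [hZ']
      exact Sp.unique hA.hZ hA.rad_le hkZ hne ((hP k hk Z Y hA).move hkZ) S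
  have S' := (hP h⁻¹ hh' Z' Y hA').move hne'
  have p2 : ∀ k ∈ P, cj k Z' = Z' ∨ cj k Z' = Z := by
    intro k hk
    by_cases hkZ : cj k Z' = Z'
    · left; exact hkZ
    · right
      have := Sp.unique hA'.hZ hA'.rad_le hkZ hne' ((hP k hk Z' Y hA').move hkZ) S'
      rw [this, hback]
  have q1 : ∀ k ∈ P, cj k Z = Z → cj k Z' = Z' := by
    intro k hk hkZ
    rcases p2 k hk with a | a
    · exact a
    · exact absurd (cj_injective k (a.trans hkZ.symm)) hZZ'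
  have q2 : ∀ k ∈ P, cj k Z = Z' → cj k Z' = Z := by
    intro k hk hkZ
    rcases p2 k hk with a | a
    · exact absurd (cj_injective k (a.trans hkZ.symm)) hZZ'
    · exact a
  have ev1 : ∀ k ∈ P, cj k Z = Z → Ev Z k := fun k hk hkZ => claim2 hP hA hh hne hk hkZ
  have ev2 : ∀ k ∈ P, cj k Z' = Z' → Ev Z' k := fun k hk hkZ =>
    claim2 hP hA' hh' hne' hk hkZ
  rcases p1 m hm with hmZ | hmZ <;> rcases p1 n hn with hnZ | hnZ
  · -- both fix
    have h3 : cj (n * m) Z = Z := by rw [← cj_cj, hmZ, hnZ]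
    constructor
    · intro _
      left; exact (ev1 n hn hnZ).mul hmZ (ev1 m hm hmZ)
    · intro hne; exact absurd h3 hne
  · -- `m` fixes and `n` moves
    have h3 : cj (n * m) Z = Z' := by rw [← cj_cj, hmZ, hnZ]
    have hne2 : cj n Z ≠ Z := by rw [hnZ]; exact hZZ'
    have Sn := (hP n hn Z Y hA).move hne2
    rw [hnZ] at Sn
    constructor
    · intro h4; exact absurd (h3.symm.trans h4) hZZ'
    · intro _
      rw [h3]
      refine ⟨?_, Sn.rad_le, Sn.not_le, Sn.sn, Sn.np, Sn.asym, ?_, ?_, Sn.cov⟩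
      · rw [← cj_cj, q1 m hm hmZ, q2 n hn hnZ]
      · intro z hz z' hz' hz7 hz7' hzz
        have a := (ev1 m hm hmZ z hz hz7).cj n
        rw [hnZ] at a
        have e : n * m * z * (n * m)⁻¹ = n * (m * z * m⁻¹) * n⁻¹ := by group
        rw [e]
        exact a.trans (Sn.comp1 z hz z' hz' hz7 hz7' hzz)
      · intro z hz z' hz' hz7 hz7' hzz
        have a := (ev2 m hm (q1 m hm hmZ) z' hz' hz7').cj n
        rw [q2 n hn hnZ] at a
        have e : n * m * z' * (n * m)⁻¹ = n * (m * z' * m⁻¹) * n⁻¹ := by group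
        rw [e]
        exact a.trans (Sn.comp2 z hz z' hz' hz7 hz7' hzz)
  · -- `m` moves and `n` fixes
    have hn' := q1 n hn hnZ
    have hm' := q2 m hm hmZ
    have h3 : cj (n * m) Z = Z' := by rw [← cj_cj, hmZ, hn']
    have hne2 : cj m Z ≠ Z := by rw [hmZ]; exact hZZ'
    have Sm := (hP m hm Z Y hA).move hne2
    rw [hmZ] at Sm
    constructor
    · intro h4; exact absurd (h3.symm.trans h4) hZZ'
    · intro _
      rw [h3]
      refine ⟨?_, Sm.rad_le, Sm.not_le, Sm.sn, Sm.np, Sm.asym, ?_, ?_, Sm.cov⟩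
      · rw [← cj_cj, hm', hnZ]
      · intro z hz z' hz' hz7 hz7' hzz
        have b1 : m * z * m⁻¹ ∈ Z' := by rw [← hmZ]; exact conj_mem_cj hz
        have a := ev2 n hn hn' _ b1 (pow_mem_rad_conj hmZ hz7)
        have e : n * m * z * (n * m)⁻¹ = n * (m * z * m⁻¹) * n⁻¹ := by group
        rw [e]
        exact a.trans (Sm.comp1 z hz z' hz' hz7 hz7' hzz)
      · intro z hz z' hz' hz7 hz7' hzz
        have b1 : m * z' * m⁻¹ ∈ Z := by rw [← hm']; exact conj_mem_cj hz'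
        have a := ev1 n hn hnZ _ b1 (pow_mem_rad_conj hm' hz7')
        have e : n * m * z' * (n * m)⁻¹ = n * (m * z' * m⁻¹) * n⁻¹ := by group
        rw [e]
        exact a.trans (Sm.comp2 z hz z' hz' hz7 hz7' hzz)
  · -- both move
    have hn' := q2 n hn hnZ
    have hm' := q2 m hm hmZ
    have h3 : cj (n * m) Z = Z := by rw [← cj_cj, hmZ, hn']
    have hne2 : cj m Z ≠ Z := by rw [hmZ]; exact hZZ'
    have Sm := (hP m hm Z Y hA).move hne2
    rw [hmZ] at Sm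
    have hne3 : cj n Z ≠ Z := by rw [hnZ]; exact hZZ'
    have Sn := (hP n hn Z Y hA).move hne3
    rw [hnZ] at Sn
    constructor
    · intro _
      left
      intro z hz hz7
      obtain ⟨w, hw, z', hz', hz7', hzz⟩ := Sm.cov z hz hz7
      have hz1 : w * z * w⁻¹ ∈ Z := Z.mul_mem (Z.mul_mem hw hz) (Z.inv_mem hw)
      have hz17 : (w * z * w⁻¹) ^ 7 ∈ rad Z := by
        rw [conj_pow]
        exact norm_conj_mem (le_normalizer_rad Z hw) hz7
      have a1 := (Sm.comp1 _ hz1 z' hz' hz17 hz7' hzz).cj n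
      rw [hn'] at a1
      have a2 := Sn.comp2 _ hz1 z' hz' hz17 hz7' hzz
      have a3 := (a1.trans a2).trans (Sim.conj hw z)
      -- replace the conjugating element
      have hgw : n * m * w * (n * m)⁻¹ ∈ Z := by
        have : n * m * w * (n * m)⁻¹ ∈ cj (n * m) Z := conj_mem_cj hw
        rwa [h3] at this
      have a4 := Sim.conj hgw (n * m * z * (n * m)⁻¹)
      have e : n * m * w * (n * m)⁻¹ * (n * m * z * (n * m)⁻¹) * (n * m * w * (n * m)⁻¹)⁻¹ =
        n * (m * (w * z * w⁻¹) * m⁻¹) * n⁻¹ := by group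
      rw [e] at a4
      exact a4.symm.trans a3
    · intro hne; exact absurd h3 hne

/-- Closure under normal products. -/
lemma FF.normal_product [Finite G] {N M : Subgroup G} (hN : N.Normal) (hM : M.Normal)
    (h1 : FF N) (h2 : FF M) : FF ↥(N ⊔ M) := by
  rw [FF_iff_FR hN.isSubnormal] at h1
  rw [FF_iff_FR hM.isSubnormal] at h2
  have hNM : (N ⊔ M).Normal := Subgroup.sup_normal N M
  rw [FF_iff_FR hNM.isSubnormal]
  intro Z Y _ _ hA g hg
  obtain ⟨n, hn, m, hm, rfl⟩ := Subgroup.mem_sup_of_normal_right.mp hg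
  refine phi_mul (P := (N : Set G) ∪ M) ?_ ?_ (Or.inl hn) (Or.inr hm) hA
  · rintro k (hk | hk)
    · left; exact N.inv_mem hk
    · right; exact M.inv_mem hk
  · rintro k (hk | hk) Z Y hA
    · exact phi_of_mem hN h1 hA hk
    · exact phi_of_mem hM h2 hA hk

end Pool.Agent.Helper70
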