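import Mathlib

/-!
Facts on permutations of eight points: the affine semilinear group over the field of order 8.
-/

set_option autoImplicit false

namespace Pool.Agent.Helper70

abbrev P8 := Equiv.Perm (Fin 8)

def fc : Fin 8 → Fin 8 := ![0, 2, 4, 6, 3, 1, 7, 5]
def fc' : Fin 8 → Fin 8 := ![0, 5, 1, 4, 2, 7, 3, 6]
def fs : Fin 8 → Fin 8 := ![0, 1, 4, 5, 6, 7, 2, 3]
def fs' : Fin 8 → Fin 8 := ![0, 1, 6, 7, 2, 3, 4, 5]
def ftau : Fin 8 → Fin 8 := ![0, 1, 5, 6, 7, 2, 3, 4]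

/-- Multiplication by a primitive element. -/
def c8 : P8 := ⟨fc, fc', by decide, by decide⟩
/-- The Frobenius map. -/
def s8 : P8 := ⟨fs, fs', by decide, by decide⟩
/-- An odd involution inverting `c8`. -/
def tau : P8 := ⟨ftau, ftau, by decide, by decide⟩

def xr (x y : Fin 8) : Fin 8 := x ^^^ y

lemma xr_xr (x y : Fin 8) : xr x (xr x y) = y := by
  revert x y; decide

/-- Translations. -/
def t8 (x : Fin 8) : P8 := ⟨xr x, xr x, xr_xr x, xr_xr x⟩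

lemma c8_pow : c8 ^ 7 = 1 := by decide
lemma s8_pow : s8 ^ 3 = 1 := by decide
lemma c8_ne : c8 ≠ 1 := by decide

lemma s8_c8 : s8 * c8 * s8⁻¹ = c8 ^ 2 := by decide
lemma tau_c8 : tau * c8 * tau⁻¹ = c8⁻¹ := by decide
lemma tau_tau : tau * tau = 1 := by decide

lemma t8_zero : t8 0 = 1 := by decide
lemma t8_mul (x y : Fin 8) : t8 x * t8 y = t8 (xr x y) := by
  revert x y; decide
lemma t8_apply_zero (x : Fin 8) : t8 x 0 = x := by revert x; decide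
lemma c8_t8 (x : Fin 8) : c8 * t8 x * c8⁻¹ = t8 (c8 x) := by revert x; decide
lemma s8_t8 (x : Fin 8) : s8 * t8 x * s8⁻¹ = t8 (s8 x) := by revert x; decide

lemma c8_zero : c8 0 = 0 := by decide
lemma s8_zero : s8 0 = 0 := by decide

lemma int_units_pow_seven {u : ℤˣ} (h : u ^ 7 = 1) : u = 1 := by
  rcases Int.units_eq_one_or u with rfl | rfl
  · rfl
  · exact absurd h (by decide)

lemma int_units_pow_three {u : ℤˣ} (h : u ^ 3 = 1) : u = 1 := by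
  rcases Int.units_eq_one_or u with rfl | rfl
  · rfl
  · exact absurd h (by decide)

lemma sign_c8 : Equiv.Perm.sign c8 = 1 := by
  apply int_units_pow_seven
  rw [← map_pow, c8_pow, map_one]

lemma sign_s8 : Equiv.Perm.sign s8 = 1 := by
  apply int_units_pow_three
  rw [← map_pow, s8_pow, map_one]

lemma tau_eq : tau = Equiv.swap 2 5 * Equiv.swap 4 7 * Equiv.swap 3 6 := by decide

lemma sign_tau : Equiv.Perm.sign tau = -1 := by
  rw [tau_eq, map_mul, map_mul, Equiv.Perm.sign_swap (by decide), Equiv.Perm.sign_swap (by decide),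
    Equiv.Perm.sign_swap (by decide)]
  decide

lemma exists_xr (x : Fin 8) : ∃ y : Fin 8, xr y (c8 y) = x := by revert x; decide

lemma sign_t8 (x : Fin 8) : Equiv.Perm.sign (t8 x) = 1 := by
  obtain ⟨y, rfl⟩ := exists_xr x
  rw [← t8_mul, ← c8_t8]
  simp only [map_mul, map_inv, sign_c8, inv_one, mul_one, one_mul]
  rcases Int.units_eq_one_or (Equiv.Perm.sign (t8 y)) with h | h <;> rw [h] <;> rfl

lemma s8_c8' : s8 * c8 = c8 ^ 2 * s8 := by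
  rw [← s8_c8]; group

lemma s8_pow_c8 (j : ℕ) (i : ℕ) : s8 ^ j * c8 ^ i = c8 ^ (i * 2 ^ j) * s8 ^ j := by
  have h1 : ∀ i : ℕ, s8 * c8 ^ i = c8 ^ (i * 2) * s8 := by
    intro i
    induction i with
    | zero => simp
    | succ i ih =>
      rw [pow_succ, ← mul_assoc, ih, mul_assoc, s8_c8', ← mul_assoc, ← pow_add]
      congr 2
      ring
  induction j generalizing i with
  | zero => simp
  | succ j ih =>
    rw [pow_succ, mul_assoc, h1, ← mul_assoc, ih, mul_assoc]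
    congr 2
    ring

/-- The group of order 21. -/
def V1 : Subgroup P8 where
  carrier := {p | ∃ i j : ℕ, p = c8 ^ i * s8 ^ j}
  one_mem' := ⟨0, 0, by simp⟩
  mul_mem' := by
    rintro _ _ ⟨i, j, rfl⟩ ⟨i', j', rfl⟩
    refine ⟨i + i' * 2 ^ j, j + j', ?_⟩
    rw [pow_add, pow_add]
    calc c8 ^ i * s8 ^ j * (c8 ^ i' * s8 ^ j') = c8 ^ i * (s8 ^ j * c8 ^ i') * s8 ^ j' := by group
      _ = c8 ^ i * (c8 ^ (i' * 2 ^ j) * s8 ^ j) * s8 ^ j' := by rw [s8_pow_c8]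
      _ = _ := by group
  inv_mem' := by
    rintro _ ⟨i, j, rfl⟩
    have h1 : (s8 ^ j)⁻¹ = s8 ^ (2 * j) := by
      rw [inv_eq_iff_mul_eq_one, ← pow_add]
      have : j + 2 * j = 3 * j := by ring
      rw [this, pow_mul, s8_pow, one_pow]
    have h2 : (c8 ^ i)⁻¹ = c8 ^ (6 * i) := by
      rw [inv_eq_iff_mul_eq_one, ← pow_add]
      have : i + 6 * i = 7 * i := by ring
      rw [this, pow_mul, c8_pow, one_pow]
    refine ⟨6 * i * 2 ^ (2 * j), 2 * j, ?_⟩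
    rw [mul_inv_rev, h1, h2, s8_pow_c8]

lemma c8_mem : c8 ∈ V1 := ⟨1, 0, by simp⟩
lemma s8_mem : s8 ∈ V1 := ⟨0, 1, by simp⟩

lemma mem_V1_iff {p : P8} : p ∈ V1 ↔ ∃ i : Fin 7, ∃ j : Fin 3, p = c8 ^ (i : ℕ) * s8 ^ (j : ℕ) := by
  constructor
  · rintro ⟨i, j, rfl⟩
    refine ⟨⟨i % 7, Nat.mod_lt _ (by norm_num)⟩, ⟨j % 3, Nat.mod_lt _ (by norm_num)⟩, ?_⟩
    rw [pow_eq_pow_mod i c8_pow, pow_eq_pow_mod j s8_pow]
  · rintro ⟨i, j, rfl⟩
    exact ⟨_, _, rfl⟩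

lemma V1_le_of {K : Subgroup P8} (hc : c8 ∈ K) (hs : s8 ∈ K) : V1 ≤ K := by
  rintro _ ⟨i, j, rfl⟩
  exact K.mul_mem (K.pow_mem hc i) (K.pow_mem hs j)

lemma V1_sign {p : P8} (hp : p ∈ V1) : Equiv.Perm.sign p = 1 := by
  obtain ⟨i, j, rfl⟩ := hp
  simp [sign_c8, sign_s8]

lemma V1_zero {p : P8} (hp : p ∈ V1) : p 0 = 0 := by
  have : V1 ≤ MulAction.stabilizer P8 (0 : Fin 8) :=
    V1_le_of (MulAction.mem_stabilizer_iff.mpr c8_zero) (MulAction.mem_stabilizer_iff.mpr s8_zero)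
  exact MulAction.mem_stabilizer_iff.mp (this hp)

/-- The translation group. -/
def T8 : Subgroup P8 where
  carrier := {p | ∃ x : Fin 8, p = t8 x}
  one_mem' := ⟨0, t8_zero.symm⟩
  mul_mem' := by
    rintro _ _ ⟨x, rfl⟩ ⟨y, rfl⟩
    exact ⟨_, t8_mul x y⟩
  inv_mem' := by
    rintro _ ⟨x, rfl⟩
    exact ⟨x, rfl⟩

lemma T8_sign {p : P8} (hp : p ∈ T8) : Equiv.Perm.sign p = 1 := by
  obtain ⟨x, rfl⟩ := hp
  exact sign_t8 x

lemma T8_eq_one {p : P8} (hp : p ∈ T8) (h : p 0 = 0) : p = 1 := by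
  obtain ⟨x, rfl⟩ := hp
  rw [t8_apply_zero] at h
  rw [h, t8_zero]

lemma V1_conj_t8 {p : P8} (hp : p ∈ V1) (x : Fin 8) : p * t8 x * p⁻¹ = t8 (p x) := by
  have hc : ∀ i : ℕ, ∀ x, c8 ^ i * t8 x * (c8 ^ i)⁻¹ = t8 ((c8 ^ i) x) := by
    intro i
    induction i with
    | zero => intro x; simp
    | succ i ih =>
      intro x
      have e : c8 ^ (i + 1) * t8 x * (c8 ^ (i + 1))⁻¹ = c8 ^ i * (c8 * t8 x * c8⁻¹) * (c8 ^ i)⁻¹ := by
        rw [pow_succ]; group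
      rw [e, c8_t8, ih, pow_succ]; rfl
  have hs : ∀ i : ℕ, ∀ x, s8 ^ i * t8 x * (s8 ^ i)⁻¹ = t8 ((s8 ^ i) x) := by
    intro i
    induction i with
    | zero => intro x; simp
    | succ i ih =>
      intro x
      have e : s8 ^ (i + 1) * t8 x * (s8 ^ (i + 1))⁻¹ = s8 ^ i * (s8 * t8 x * s8⁻¹) * (s8 ^ i)⁻¹ := by
        rw [pow_succ]; group
      rw [e, s8_t8, ih, pow_succ]; rfl
  obtain ⟨i, j, rfl⟩ := hp
  have e : c8 ^ i * s8 ^ j * t8 x * (c8 ^ i * s8 ^ j)⁻¹ =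
    c8 ^ i * (s8 ^ j * t8 x * (s8 ^ j)⁻¹) * (c8 ^ i)⁻¹ := by group
  rw [e, hs, hc]; rfl

lemma V1_conj_T8 {p t : P8} (hp : p ∈ V1) (ht : t ∈ T8) : p * t * p⁻¹ ∈ T8 := by
  obtain ⟨x, rfl⟩ := ht
  exact ⟨_, V1_conj_t8 hp x⟩

lemma orbit_c8 (x : Fin 8) : x = 0 ∨ ∃ k : Fin 7, x = (c8 ^ (k : ℕ)) 1 := by
  revert x; decide

/-- The centraliser of `c8`. -/
lemma eq_pow_of_commute {b : P8} (hb : b * c8 = c8 * b) : ∃ j : Fin 7, b = c8 ^ (j : ℕ) := by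
  have hcomm : ∀ k : ℕ, b * c8 ^ k = c8 ^ k * b := by
    intro k
    exact (Commute.pow_right (show Commute b c8 from hb) k)
  have hk : ∀ k : ℕ, ∀ x, b ((c8 ^ k) x) = (c8 ^ k) (b x) := by
    intro k x
    exact congrArg (fun p : P8 => p x) (hcomm k)
  have h0 : b 0 = 0 := by
    have h1 := hk 1 0
    rw [pow_one, c8_zero] at h1
    have : ∀ y : Fin 8, y = c8 y → y = 0 := by decide
    exact this _ h1
  have h1 : b 1 ≠ 0 := by
    intro h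
    have := b.injective (h.trans h0.symm)
    exact absurd this (by decide)
  rcases orbit_c8 (b 1) with h | ⟨j, hj⟩
  · exact absurd h h1
  refine ⟨j, ?_⟩
  ext x : 1
  rcases orbit_c8 x with rfl | ⟨k, rfl⟩
  · rw [h0]
    exact (V1_zero (V1.pow_mem c8_mem _)).symm
  · rw [hk, hj]
    change (c8 ^ (k : ℕ) * c8 ^ (j : ℕ)) 1 = (c8 ^ (j : ℕ) * c8 ^ (k : ℕ)) 1
    rw [← pow_add, ← pow_add, add_comm]

lemma eq_one_of_commute {b : P8} (hb : b * c8 = c8 * b) (hs : b * s8 = s8 * b) : b = 1 := by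
  obtain ⟨j, rfl⟩ := eq_pow_of_commute hb
  revert hs
  clear hb
  revert j
  decide

lemma pow_classes (i : Fin 7) : c8 ^ (i : ℕ) = 1 ∨
    ∃ l : Fin 3, s8 ^ (l : ℕ) * c8 * (s8 ^ (l : ℕ))⁻¹ = c8 ^ (i : ℕ) ∨
      (s8 ^ (l : ℕ) * tau) * c8 * (s8 ^ (l : ℕ) * tau)⁻¹ = c8 ^ (i : ℕ) := by
  revert i; decide

lemma mem_V1_of_conj {a : P8} (ha : Equiv.Perm.sign a = 1) {i : Fin 7}
    (h : a * c8 * a⁻¹ = c8 ^ (i : ℕ)) : a ∈ V1 := by
  have key : ∀ m : P8, m * c8 * m⁻¹ = c8 ^ (i : ℕ) → ∃ j : Fin 7, a = m * c8 ^ (j : ℕ) := by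
    intro m hm
    have h1 : (m⁻¹ * a) * c8 = c8 * (m⁻¹ * a) := by
      have h2 : a * c8 * a⁻¹ = m * c8 * m⁻¹ := h.trans hm.symm
      have h3 : m⁻¹ * (a * c8 * a⁻¹) * a = m⁻¹ * (m * c8 * m⁻¹) * a := by rw [h2]
      have e1 : m⁻¹ * (a * c8 * a⁻¹) * a = (m⁻¹ * a) * c8 := by group
      have e2 : m⁻¹ * (m * c8 * m⁻¹) * a = c8 * (m⁻¹ * a) := by group
      rw [← e1, h3, e2]
    obtain ⟨j, hj⟩ := eq_pow_of_commute h1
    refine ⟨j, ?_⟩
    rw [← hj]; group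
  rcases pow_classes i with h0 | ⟨l, hl | hl⟩
  · exfalso
    rw [h0] at h
    apply c8_ne
    have : a⁻¹ * (a * c8 * a⁻¹) * a = a⁻¹ * 1 * a := by rw [h]
    have e1 : a⁻¹ * (a * c8 * a⁻¹) * a = c8 := by group
    rw [← e1, this]; group
  · obtain ⟨j, rfl⟩ := key _ hl
    exact V1.mul_mem (V1.pow_mem s8_mem _) (V1.pow_mem c8_mem _)
  · exfalso
    obtain ⟨j, rfl⟩ := key _ hl
    rw [map_mul, map_mul, map_pow, map_pow, sign_s8, sign_c8, sign_tau] at ha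
    revert ha
    simp

set_option maxRecDepth 100000 in
lemma pow_seven_V1 (i : Fin 7) (j : Fin 3) :
    (c8 ^ (i : ℕ) * s8 ^ (j : ℕ)) ^ 7 = 1 → j = 0 := by
  revert i j; decide

lemma exists_pow_of_V1 {v : P8} (hv : v ∈ V1) (h7 : v ^ 7 = 1) : ∃ i : Fin 7, v = c8 ^ (i : ℕ) := by
  obtain ⟨i, j, rfl⟩ := mem_V1_iff.mp hv
  have := pow_seven_V1 i j h7
  subst this
  exact ⟨i, by simp⟩

/-- An even permutation conjugating `c8` into `V1` lies in `V1`. -/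
lemma mem_V1_of_normalizes {a : P8} (ha : Equiv.Perm.sign a = 1) (h : a * c8 * a⁻¹ ∈ V1) :
    a ∈ V1 := by
  have h7 : (a * c8 * a⁻¹) ^ 7 = 1 := by
    rw [conj_pow, c8_pow]; simp
  obtain ⟨i, hi⟩ := exists_pow_of_V1 h h7
  exact mem_V1_of_conj ha hi

/-- The translations in the affine group. -/
lemma mem_T8_of_normalizes {b : P8} (h : ∀ v ∈ V1, b * v * b⁻¹ * v⁻¹ ∈ T8) : b ∈ T8 := by
  obtain ⟨t, ht⟩ : ∃ t, t = t8 (b 0) := ⟨_, rfl⟩
  have htT : t ∈ T8 := ⟨_, ht⟩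
  have h0 : (t⁻¹ * b) 0 = 0 := by
    rw [ht]
    change (t8 (b 0)) (b 0) = 0
    have : ∀ y : Fin 8, t8 y y = 0 := by decide
    exact this _
  have key : ∀ v ∈ V1, (t⁻¹ * b) * v = v * (t⁻¹ * b) := by
    intro v hv
    have h1 : (t⁻¹ * b) * v * (t⁻¹ * b)⁻¹ * v⁻¹ ∈ T8 := by
      have e : (t⁻¹ * b) * v * (t⁻¹ * b)⁻¹ * v⁻¹ =
        t⁻¹ * (b * v * b⁻¹ * v⁻¹) * (v * t * v⁻¹) := by group
      rw [e]
      exact T8.mul_mem (T8.mul_mem (T8.inv_mem htT) (h v hv)) (V1_conj_T8 hv htT)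
    have hfix : ∀ p : P8, p 0 = 0 → p⁻¹ 0 = 0 := by
      intro p hp
      rw [Equiv.Perm.inv_eq_iff_eq, hp]
    have h2 : ((t⁻¹ * b) * v * (t⁻¹ * b)⁻¹ * v⁻¹) 0 = 0 := by
      rw [Equiv.Perm.mul_apply, Equiv.Perm.mul_apply, Equiv.Perm.mul_apply, hfix v (V1_zero hv),
        hfix _ h0, V1_zero hv, h0]
    have h3 := T8_eq_one h1 h2
    have h4 : (t⁻¹ * b) * v * (t⁻¹ * b)⁻¹ * v⁻¹ * (v * (t⁻¹ * b)) = v * (t⁻¹ * b) := by
      rw [h3, one_mul]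
    rw [← h4]; group
  have := eq_one_of_commute (key c8 c8_mem) (key s8 s8_mem)
  have e : b = t := by
    have : t * (t⁻¹ * b) = t * 1 := by rw [this]
    simpa using this
  rw [e]; exact htT

/-- Elements of order seven have even conjugates among the powers of `c8`. -/
lemma exists_conj_c8 {x : P8} (h7 : x ^ 7 = 1) :
    ∃ w : P8, Equiv.Perm.sign w = 1 ∧ ∃ k : ℕ, w * x * w⁻¹ = c8 ^ k := by
  by_cases hx : x = 1
  · exact ⟨1, map_one _, 0, by simp [hx]⟩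
  have hF : Fact (Nat.Prime 7) := ⟨by norm_num⟩
  have ct : ∀ x : P8, x ≠ 1 → x ^ 7 = 1 → x.cycleType = {7} := by
    intro x hx h7
    have ho : orderOf x = 7 := orderOf_eq_prime h7 hx
    have hp : (orderOf x).Prime := by rw [ho]; norm_num
    obtain ⟨n, hn⟩ := Equiv.Perm.cycleType_prime_order hp
    have hsum := x.sum_cycleType
    have hc : x.support.card ≤ 8 := by
      have := x.support.card_le_univ
      simpa using this
    rw [hn, ho, Multiset.sum_replicate, smul_eq_mul] at hsum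
    have hn0 : n = 0 := by omega
    rw [hn, hn0, ho]; rfl
  have hconj : IsConj x c8 := by
    rw [Equiv.Perm.isConj_iff_cycleType_eq, ct x hx h7, ct c8 c8_ne c8_pow]
  obtain ⟨w, hw⟩ := isConj_iff.mp hconj
  rcases Int.units_eq_one_or (Equiv.Perm.sign w) with h | h
  · exact ⟨w, h, 1, by rw [hw, pow_one]⟩
  · refine ⟨tau * w, ?_, 6, ?_⟩
    · rw [map_mul, h, sign_tau]; rfl
    · have e : tau * w * x * (tau * w)⁻¹ = tau * (w * x * w⁻¹) * tau⁻¹ := by group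
      rw [e, hw, tau_c8]
      decide

lemma not_conj_inv {w : P8} (hw : Equiv.Perm.sign w = 1) (h : w * c8⁻¹ * w⁻¹ = c8) : False := by
  have h1 : (w * tau) * c8 = c8 * (w * tau) := by
    have e : (w * tau) * c8 * (w * tau)⁻¹ = c8 := by
      have : (w * tau) * c8 * (w * tau)⁻¹ = w * (tau * c8 * tau⁻¹) * w⁻¹ := by group
      rw [this, tau_c8, h]
    have e2 : (w * tau) * c8 * (w * tau)⁻¹ * (w * tau) = c8 * (w * tau) := by rw [e]
    rw [← e2]; group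
  obtain ⟨j, hj⟩ := eq_pow_of_commute h1
  have := congrArg Equiv.Perm.sign hj
  rw [map_mul, hw, sign_tau, map_pow, sign_c8] at this
  revert this
  simp

lemma exists_xr_pow (i : Fin 7) (hi : c8 ^ (i : ℕ) ≠ 1) (x : Fin 8) :
    ∃ y : Fin 8, xr y ((c8 ^ (i : ℕ)) y) = x := by
  revert i x; decide

/-- The two coordinates of an element of order dividing seven are conjugate. -/
lemma conj_of_pow_seven {a b : P8} (ha : a ∈ V1) (hab : b * a⁻¹ ∈ T8) (ha7 : a ^ 7 = 1)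
    (hb7 : b ^ 7 = 1) : ∃ w : P8, Equiv.Perm.sign w = 1 ∧ w * a * w⁻¹ = b := by
  obtain ⟨i, rfl⟩ := exists_pow_of_V1 ha ha7
  obtain ⟨x, hx⟩ := hab
  have hb : b = t8 x * c8 ^ (i : ℕ) := by rw [← hx]; group
  by_cases hi : c8 ^ (i : ℕ) = 1
  · rw [hi, mul_one] at hb
    have h2 : b ^ 2 = 1 := by
      rw [hb, pow_two, t8_mul]
      have : ∀ x, t8 (xr x x) = 1 := by decide
      exact this x
    have h3 : b = 1 := by
      calc b = b ^ 7 * (b ^ 2)⁻¹ * (b ^ 2)⁻¹ * (b ^ 2)⁻¹ := by group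
        _ = 1 := by rw [h2, hb7]; simp
    exact ⟨1, map_one _, by rw [hi, h3]; simp⟩
  · obtain ⟨y, hy⟩ := exists_xr_pow i hi x
    refine ⟨t8 y, sign_t8 y, ?_⟩
    rw [hb, ← hy, ← t8_mul, ← V1_conj_t8 (V1.pow_mem c8_mem _)]
    have : (t8 y)⁻¹ = t8 y := rfl
    rw [this]; group

end Pool.Agent.Helper70
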