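import Pool.Agent.Helper70.Inj

/-!
The defining condition of the class and how it moves along homomorphisms.
-/

set_option autoImplicit false

namespace Pool.Agent.Helper70

open Subgroup
open scoped commutatorElement

variable {G : Type*} [Group G]

/-- `a` and `b` are conjugate under `Z`, modulo the radical of `Z`. -/
def Sim (Z : Subgroup G) (a b : G) : Prop := ∃ w ∈ Z, w * a * w⁻¹ * b⁻¹ ∈ rad Z

lemma Sim.refl_of {Z : Subgroup G} {a b : G} (h : a * b⁻¹ ∈ rad Z) : Sim Z a b :=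
  ⟨1, Z.one_mem, by simpa using h⟩

lemma Sim.refl (Z : Subgroup G) (a : G) : Sim Z a a := Sim.refl_of (by simp)

lemma Sim.conj {Z : Subgroup G} {w : G} (hw : w ∈ Z) (a : G) : Sim Z (w * a * w⁻¹) a :=
  ⟨w⁻¹, Z.inv_mem hw, by
    have : w⁻¹ * (w * a * w⁻¹) * w⁻¹⁻¹ * a⁻¹ = 1 := by group
    rw [this]; exact one_mem _⟩

lemma Sim.symm {Z : Subgroup G} {a b : G} (h : Sim Z a b) : Sim Z b a := by
  obtain ⟨w, hw, h⟩ := h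
  refine ⟨w⁻¹, Z.inv_mem hw, ?_⟩
  have h1 := norm_conj_mem' (le_normalizer_rad Z hw) (inv_mem h)
  have e : w⁻¹ * b * w⁻¹⁻¹ * a⁻¹ = w⁻¹ * (w * a * w⁻¹ * b⁻¹)⁻¹ * w := by group
  rw [e]; exact h1

lemma Sim.trans {Z : Subgroup G} {a b c : G} (h : Sim Z a b) (h' : Sim Z b c) : Sim Z a c := by
  obtain ⟨w, hw, h⟩ := h
  obtain ⟨v, hv, h'⟩ := h'
  refine ⟨v * w, Z.mul_mem hv hw, ?_⟩
  have h1 := norm_conj_mem (le_normalizer_rad Z hv) h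
  have e : v * w * a * (v * w)⁻¹ * c⁻¹ = v * (w * a * w⁻¹ * b⁻¹) * v⁻¹ * (v * b * v⁻¹ * c⁻¹) := by
    group
  rw [e]; exact mul_mem h1 h'

lemma Sim.cj {Z : Subgroup G} {a b : G} (h : Sim Z a b) (g : G) :
    Sim (cj g Z) (g * a * g⁻¹) (g * b * g⁻¹) := by
  obtain ⟨w, hw, h⟩ := h
  refine ⟨g * w * g⁻¹, conj_mem_cj hw, ?_⟩
  have e : g * w * g⁻¹ * (g * a * g⁻¹) * (g * w * g⁻¹)⁻¹ * (g * b * g⁻¹)⁻¹ =
      g * (w * a * w⁻¹ * b⁻¹) * g⁻¹ := by group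
  rw [e, ← cj_rad]
  exact conj_mem_cj h

/-- `g` preserves the `Z`-classes of elements of order dividing seven in the head of `Z`. -/
def Ev (Z : Subgroup G) (g : G) : Prop := ∀ z ∈ Z, z ^ 7 ∈ rad Z → Sim Z (g * z * g⁻¹) z

/-- The configuration attached to an element `g` which swaps two conjugate heads. -/
structure Sp (g : G) (Z Z' T : Subgroup G) : Prop where
  swap : cj g Z' = Z
  rad_le : rad Z' ≤ T
  not_le : ¬ Z' ≤ T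
  sn : ∀ z ∈ Z, ∀ z' ∈ Z',
    (∀ w ∈ Z, ∀ w' ∈ Z', w * w' ∈ T → (z * z') * (w * w') * (z * z')⁻¹ ∈ T) → z * z' ∈ T
  np : ∃ z ∈ Z, ∃ z' ∈ Z', z * z' ∈ T ∧ z ∉ T
  asym : ¬ (Z ⊓ T ≤ rad Z ∧ Z' ⊓ T ≤ rad Z')
  comp1 : ∀ z ∈ Z, ∀ z' ∈ Z', z ^ 7 ∈ rad Z → z' ^ 7 ∈ rad Z' → z * z' ∈ T →
    Sim Z' (g * z * g⁻¹) z'
  comp2 : ∀ z ∈ Z, ∀ z' ∈ Z', z ^ 7 ∈ rad Z → z' ^ 7 ∈ rad Z' → z * z' ∈ T →
    Sim Z (g * z' * g⁻¹) z
  cov : ∀ z ∈ Z, z ^ 7 ∈ rad Z → ∃ w ∈ Z, ∃ z' ∈ Z', z' ^ 7 ∈ rad Z' ∧ (w * z * w⁻¹) * z' ∈ T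

structure Phi (g : G) (Z T : Subgroup G) : Prop where
  fix : cj g Z = Z → Ev Z g ∨ Z ⊓ T ≤ rad Z
  move : cj g Z ≠ Z → Sp g Z (cj g Z) T

section Transfer

variable {Q : Type*} [Group Q] {f : G →* Q}

def RadOK (f : G →* Q) (Z : Subgroup G) : Prop := ∀ z ∈ Z, (z ∈ rad Z ↔ f z ∈ rad (Z.map f))

lemma and_congr_ctx {a b c d : Prop} (h : a ↔ b) (h' : a → b → (c ↔ d)) : a ∧ c ↔ b ∧ d := by
  constructor
  · rintro ⟨ha, hc⟩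
    exact ⟨h.mp ha, (h' ha (h.mp ha)).mp hc⟩
  · rintro ⟨hb, hd⟩
    exact ⟨h.mpr hb, (h' (h.mpr hb) hb).mpr hd⟩

lemma forall_map {Z : Subgroup G} {P : Q → Prop} :
    (∀ x ∈ Z.map f, P x) ↔ ∀ z ∈ Z, P (f z) := by
  constructor
  · intro h z hz
    exact h _ ⟨z, hz, rfl⟩
  · rintro h _ ⟨z, hz, rfl⟩
    exact h z hz

lemma exists_map {Z : Subgroup G} {P : Q → Prop} :
    (∃ x ∈ Z.map f, P x) ↔ ∃ z ∈ Z, P (f z) := by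
  constructor
  · rintro ⟨_, ⟨z, hz, rfl⟩, h⟩
    exact ⟨z, hz, h⟩
  · rintro ⟨z, hz, h⟩
    exact ⟨_, ⟨z, hz, rfl⟩, h⟩

lemma sim_map {Z : Subgroup G} (h : RadOK f Z) {a b : G} (ha : a ∈ Z) (hb : b ∈ Z) :
    Sim (Z.map f) (f a) (f b) ↔ Sim Z a b := by
  unfold Sim
  rw [exists_map]
  refine exists_congr fun w => and_congr_right fun hw => ?_
  have hm : w * a * w⁻¹ * b⁻¹ ∈ Z := Z.mul_mem (Z.mul_mem (Z.mul_mem hw ha) (Z.inv_mem hw))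
    (Z.inv_mem hb)
  rw [h _ hm]
  simp

lemma ev_map {Z : Subgroup G} (h : RadOK f Z) {g : G} (hg : cj g Z = Z) :
    Ev (Z.map f) (f g) ↔ Ev Z g := by
  unfold Ev
  rw [forall_map]
  refine forall₂_congr fun z hz => ?_
  have e : f g * f z * (f g)⁻¹ = f (g * z * g⁻¹) := by simp
  rw [h _ (Z.pow_mem hz 7), e, sim_map h (by rw [← hg]; exact conj_mem_cj hz) hz, map_pow]

lemma inf_le_rad_map {Z : Subgroup G} {T : Subgroup Q} (h : RadOK f Z) :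
    Z.map f ⊓ T ≤ rad (Z.map f) ↔ Z ⊓ T.comap f ≤ rad Z := by
  constructor
  · intro hh z hz
    rw [h z hz.1]
    exact hh ⟨⟨z, hz.1, rfl⟩, hz.2⟩
  · rintro hh _ ⟨⟨z, hz, rfl⟩, hz'⟩
    exact (h z hz).mp (hh ⟨hz, hz'⟩)

lemma sp_map {Z Z' : Subgroup G} {T : Subgroup Q} (h : RadOK f Z) (h' : RadOK f Z') {g : G}
    (hg : cj g Z = Z') (hsw : cj g Z' = Z ↔ cj (f g) (Z'.map f) = Z.map f) :
    Sp (f g) (Z.map f) (Z'.map f) T ↔ Sp g Z Z' (T.comap f) := by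
  have key : Sp (f g) (Z.map f) (Z'.map f) T ↔
    (cj (f g) (Z'.map f) = Z.map f ∧ rad (Z'.map f) ≤ T ∧ ¬ Z'.map f ≤ T ∧
      (∀ z ∈ Z.map f, ∀ z' ∈ Z'.map f,
      (∀ w ∈ Z.map f, ∀ w' ∈ Z'.map f, w * w' ∈ T → (z * z') * (w * w') * (z * z')⁻¹ ∈ T) →
        z * z' ∈ T) ∧
      (∃ z ∈ Z.map f, ∃ z' ∈ Z'.map f, z * z' ∈ T ∧ z ∉ T) ∧
      (¬ (Z.map f ⊓ T ≤ rad (Z.map f) ∧ Z'.map f ⊓ T ≤ rad (Z'.map f))) ∧
      (∀ z ∈ Z.map f, ∀ z' ∈ Z'.map f, z ^ 7 ∈ rad (Z.map f) → z' ^ 7 ∈ rad (Z'.map f) →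
        z * z' ∈ T → Sim (Z'.map f) (f g * z * (f g)⁻¹) z') ∧
      (∀ z ∈ Z.map f, ∀ z' ∈ Z'.map f, z ^ 7 ∈ rad (Z.map f) → z' ^ 7 ∈ rad (Z'.map f) →
        z * z' ∈ T → Sim (Z.map f) (f g * z' * (f g)⁻¹) z) ∧
      (∀ z ∈ Z.map f, z ^ 7 ∈ rad (Z.map f) → ∃ w ∈ Z.map f, ∃ z' ∈ Z'.map f,
        z' ^ 7 ∈ rad (Z'.map f) ∧ (w * z * w⁻¹) * z' ∈ T)) := by
    constructor
    · rintro ⟨a1, a2, a3, a4, a5, a6, a7, a8, a9⟩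
      exact ⟨a1, a2, a3, a4, a5, a6, a7, a8, a9⟩
    · rintro ⟨a1, a2, a3, a4, a5, a6, a7, a8, a9⟩
      exact ⟨a1, a2, a3, a4, a5, a6, a7, a8, a9⟩
  have key' : Sp g Z Z' (T.comap f) ↔
    (cj g Z' = Z ∧ rad Z' ≤ T.comap f ∧ ¬ Z' ≤ T.comap f ∧
      (∀ z ∈ Z, ∀ z' ∈ Z',
      (∀ w ∈ Z, ∀ w' ∈ Z', w * w' ∈ T.comap f → (z * z') * (w * w') * (z * z')⁻¹ ∈ T.comap f) →
        z * z' ∈ T.comap f) ∧
      (∃ z ∈ Z, ∃ z' ∈ Z', z * z' ∈ T.comap f ∧ z ∉ T.comap f) ∧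
      (¬ (Z ⊓ T.comap f ≤ rad Z ∧ Z' ⊓ T.comap f ≤ rad Z')) ∧
      (∀ z ∈ Z, ∀ z' ∈ Z', z ^ 7 ∈ rad Z → z' ^ 7 ∈ rad Z' →
        z * z' ∈ T.comap f → Sim Z' (g * z * g⁻¹) z') ∧
      (∀ z ∈ Z, ∀ z' ∈ Z', z ^ 7 ∈ rad Z → z' ^ 7 ∈ rad Z' →
        z * z' ∈ T.comap f → Sim Z (g * z' * g⁻¹) z) ∧
      (∀ z ∈ Z, z ^ 7 ∈ rad Z → ∃ w ∈ Z, ∃ z' ∈ Z',
        z' ^ 7 ∈ rad Z' ∧ (w * z * w⁻¹) * z' ∈ T.comap f)) := by
    constructor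
    · rintro ⟨a1, a2, a3, a4, a5, a6, a7, a8, a9⟩
      exact ⟨a1, a2, a3, a4, a5, a6, a7, a8, a9⟩
    · rintro ⟨a1, a2, a3, a4, a5, a6, a7, a8, a9⟩
      exact ⟨a1, a2, a3, a4, a5, a6, a7, a8, a9⟩
  rw [key, key']
  refine and_congr_ctx hsw.symm fun hs1 hs2 => ?_
  simp only [forall_map, exists_map, Subgroup.mem_comap, map_mul, map_inv]
  have b2 : rad (Z'.map f) ≤ T ↔ rad Z' ≤ T.comap f := by
    constructor
    · intro hh z hz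
      exact hh ((h' z (rad_le _ hz)).mp hz)
    · intro hh x hx
      obtain ⟨z, hz, rfl⟩ := rad_le _ hx
      exact hh ((h' z hz).mpr hx)
  have b3 : ¬ Z'.map f ≤ T ↔ ¬ Z' ≤ T.comap f := by rw [Subgroup.map_le_iff_le_comap]
  have b6 : (¬ (Z.map f ⊓ T ≤ rad (Z.map f) ∧ Z'.map f ⊓ T ≤ rad (Z'.map f))) ↔
      ¬ (Z ⊓ T.comap f ≤ rad Z ∧ Z' ⊓ T.comap f ≤ rad Z') := by
    rw [inf_le_rad_map h, inf_le_rad_map h']
  refine and_congr b2 (and_congr b3 (and_congr Iff.rfl (and_congr Iff.rfl (and_congr b6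
    (and_congr ?_ (and_congr ?_ ?_))))))
  · refine forall₂_congr fun z hz => forall₂_congr fun z' hz' => ?_
    have e : f g * f z * (f g)⁻¹ = f (g * z * g⁻¹) := by simp
    rw [h _ (Z.pow_mem hz 7), h' _ (Z'.pow_mem hz' 7), e,
      sim_map h' (by rw [← hg]; exact conj_mem_cj hz) hz', map_pow, map_pow]
  · refine forall₂_congr fun z hz => forall₂_congr fun z' hz' => ?_
    have e : f g * f z' * (f g)⁻¹ = f (g * z' * g⁻¹) := by simp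
    rw [h _ (Z.pow_mem hz 7), h' _ (Z'.pow_mem hz' 7), e,
      sim_map h (by rw [← hs2]; exact conj_mem_cj hz') hz, map_pow, map_pow]
  · refine forall₂_congr fun z hz => ?_
    rw [h _ (Z.pow_mem hz 7), map_pow]
    refine imp_congr_right fun _ => exists_congr fun w => and_congr_right fun hw =>
      exists_congr fun z' => and_congr_right fun hz' => ?_
    rw [h' _ (Z'.pow_mem hz' 7), map_pow]

lemma phi_map {Z : Subgroup G} {T : Subgroup Q} {g : G} (h : RadOK f Z) (h' : RadOK f (cj g Z))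
    (h1 : cj g Z = Z ↔ cj (f g) (Z.map f) = Z.map f)
    (h2 : cj g (cj g Z) = Z ↔ cj (f g) (cj (f g) (Z.map f)) = Z.map f) :
    Phi (f g) (Z.map f) T ↔ Phi g Z (T.comap f) := by
  have e1 : (cj (f g) (Z.map f) = Z.map f → Ev (Z.map f) (f g) ∨ Z.map f ⊓ T ≤ rad (Z.map f)) ↔
      (cj g Z = Z → Ev Z g ∨ Z ⊓ T.comap f ≤ rad Z) := by
    rw [← h1]
    refine imp_congr_right fun hg => ?_
    rw [ev_map h hg, inf_le_rad_map h]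
  have e2 : (cj (f g) (Z.map f) ≠ Z.map f → Sp (f g) (Z.map f) (cj (f g) (Z.map f)) T) ↔
      (cj g Z ≠ Z → Sp g Z (cj g Z) (T.comap f)) := by
    rw [ne_eq, ← h1]
    refine imp_congr_right fun hg => ?_
    rw [← map_cj]
    refine sp_map h h' rfl ?_
    rw [h2, map_cj]
  constructor
  · rintro ⟨a, b⟩
    exact ⟨e1.mp a, e2.mp b⟩
  · rintro ⟨a, b⟩
    exact ⟨e1.mpr a, e2.mpr b⟩

end Transfer

end Pool.Agent.Helper70
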