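import Pool.Agent.Helper70.Swr

/-!
The configuration in the wreath product.
-/

set_option autoImplicit false

namespace Pool.Agent.Helper70

open Subgroup

lemma sgn_conj (p a : P8) : Equiv.Perm.sign (p * a * p⁻¹) = Equiv.Perm.sign a := by
  simp only [map_mul, map_inv]
  rw [mul_comm (Equiv.Perm.sign p)]
  group

lemma SS_cases (x : SS) : ∃ p q : P8, x = ⟨(p, q), 1⟩ ∨ x = ⟨(p, q), swW⟩ := by
  obtain ⟨⟨p, q⟩, w⟩ := x
  refine ⟨p, q, ?_⟩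
  rcases WW_cases w with rfl | rfl
  · left; rfl
  · right; rfl

lemma cj_one_L1 (p q : P8) : cj (⟨(p, q), 1⟩ : SS) L1 = L1 := by
  rw [cj_eq_iff_mem_normalizer]
  have key : ∀ p q : P8, ∀ x ∈ L1, (⟨(p, q), 1⟩ : SS) * x * (⟨(p, q), 1⟩ : SS)⁻¹ ∈ L1 := by
    intro p q x hx
    obtain ⟨a, ha, rfl⟩ := mem_L1.mp hx
    rw [conj_il_one, mem_L1]
    exact ⟨p * a * p⁻¹, by rw [sgn_conj, ha], by simp⟩
  rw [mem_normalizer_iff]
  intro x
  refine ⟨key p q x, fun h => ?_⟩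
  have h2 := key p⁻¹ q⁻¹ _ h
  have e : (⟨(p⁻¹, q⁻¹), 1⟩ : SS) = (⟨(p, q), 1⟩ : SS)⁻¹ := by
    apply SemidirectProduct.ext <;> simp
  rw [e] at h2
  simpa [mul_assoc] using h2

lemma cj_one_L2 (p q : P8) : cj (⟨(p, q), 1⟩ : SS) L2 = L2 := by
  rw [cj_eq_iff_mem_normalizer]
  have key : ∀ p q : P8, ∀ x ∈ L2, (⟨(p, q), 1⟩ : SS) * x * (⟨(p, q), 1⟩ : SS)⁻¹ ∈ L2 := by
    intro p q x hx
    obtain ⟨a, ha, rfl⟩ := mem_L2.mp hx
    rw [conj_il_one, mem_L2]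
    exact ⟨q * a * q⁻¹, by rw [sgn_conj, ha], by simp⟩
  rw [mem_normalizer_iff]
  intro x
  refine ⟨key p q x, fun h => ?_⟩
  have h2 := key p⁻¹ q⁻¹ _ h
  have e : (⟨(p⁻¹, q⁻¹), 1⟩ : SS) = (⟨(p, q), 1⟩ : SS)⁻¹ := by
    apply SemidirectProduct.ext <;> simp
  rw [e] at h2
  simpa [mul_assoc] using h2

lemma swap_le1 (p q : P8) : cj (⟨(p, q), swW⟩ : SS) L1 ≤ L2 := by
  rintro _ ⟨x, hx, rfl⟩
  obtain ⟨a, ha, rfl⟩ := mem_L1.mp hx
  change (⟨(p, q), swW⟩ : SS) * il (a, 1) * (⟨(p, q), swW⟩ : SS)⁻¹ ∈ L2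
  rw [conj_il_sw, mem_L2]
  exact ⟨q * a * q⁻¹, by rw [sgn_conj, ha], by simp⟩

lemma swap_le2 (p q : P8) : cj (⟨(p, q), swW⟩ : SS) L2 ≤ L1 := by
  rintro _ ⟨x, hx, rfl⟩
  obtain ⟨a, ha, rfl⟩ := mem_L2.mp hx
  change (⟨(p, q), swW⟩ : SS) * il (1, a) * (⟨(p, q), swW⟩ : SS)⁻¹ ∈ L1
  rw [conj_il_sw, mem_L1]
  exact ⟨p * a * p⁻¹, by rw [sgn_conj, ha], by simp⟩

lemma swW_mul : swW * swW = 1 := Subtype.ext sw_sq

lemma swap_swap (p q : P8) : (⟨(p, q), swW⟩ : SS) * ⟨(p, q), swW⟩ = ⟨(p * q, q * p), 1⟩ := by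
  apply SemidirectProduct.ext
  · rfl
  · exact swW_mul

lemma cj_sw_L1 (p q : P8) : cj (⟨(p, q), swW⟩ : SS) L1 = L2 := by
  refine le_antisymm (swap_le1 p q) ?_
  have h := cj_mono (g := (⟨(p, q), swW⟩ : SS)) (swap_le2 p q)
  rw [cj_cj, swap_swap, cj_one_L2] at h
  exact h

lemma cj_sw_L2 (p q : P8) : cj (⟨(p, q), swW⟩ : SS) L2 = L1 := by
  refine le_antisymm (swap_le2 p q) ?_
  have h := cj_mono (g := (⟨(p, q), swW⟩ : SS)) (swap_le1 p q)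
  rw [cj_cj, swap_swap, cj_one_L1] at h
  exact h

lemma il_eq {m n : PP} : il m = il n ↔ m = n := SemidirectProduct.inl_injective.eq_iff

lemma L1_ne_L2 : L1 ≠ L2 := by
  intro h
  have h1 : il (c8, 1) ∈ L1 := mem_L1.mpr ⟨c8, sign_c8, rfl⟩
  rw [h] at h1
  obtain ⟨a, _, ha⟩ := mem_L2.mp h1
  rw [il_eq] at ha
  exact c8_ne (congrArg Prod.fst ha)

lemma L1_not_le_U0 : ¬ L1 ≤ U0 := by
  intro h
  have h1 : il (c8, 1) ∈ L1 := mem_L1.mpr ⟨c8, sign_c8, rfl⟩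
  have h2 := il_mem_U0.mp (h h1)
  have h3 := T8_eq_one h2.2 (V1_zero (V1.mul_mem V1.one_mem (V1.inv_mem c8_mem)))
  rw [one_mul, inv_eq_one] at h3
  exact c8_ne h3

lemma L2_not_le_U0 : ¬ L2 ≤ U0 := by
  intro h
  have h1 : il (1, c8) ∈ L2 := mem_L2.mpr ⟨c8, sign_c8, rfl⟩
  have h2 := il_mem_U0.mp (h h1)
  have h3 := T8_eq_one h2.2 (V1_zero (V1.mul_mem c8_mem (V1.inv_mem V1.one_mem)))
  rw [inv_one, mul_one] at h3
  exact c8_ne h3

lemma L1_inf_U0 : L1 ⊓ U0 ≤ ⊥ := by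
  rintro x ⟨h1, h2⟩
  obtain ⟨a, _, rfl⟩ := mem_L1.mp h1
  have h2 := il_mem_U0.mp h2
  have ha : a ∈ V1 := h2.1
  have h3 := T8_eq_one h2.2 (V1_zero (V1.mul_mem V1.one_mem (V1.inv_mem ha)))
  rw [one_mul, inv_eq_one] at h3
  change a = 1 at h3
  rw [Subgroup.mem_bot, h3]
  exact map_one il

lemma L2_inf_U0 : ¬ L2 ⊓ U0 ≤ ⊥ := by
  intro h
  have h1 : il (1, t8 1) ∈ L2 := mem_L2.mpr ⟨_, sign_t8 1, rfl⟩
  have h2 : il (1, t8 1) ∈ U0 := by
    rw [il_mem_U0]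
    exact ⟨V1.one_mem, ⟨1, by simp⟩⟩
  have h3 := h ⟨h1, h2⟩
  rw [Subgroup.mem_bot] at h3
  have h4 : il (1, t8 1) = il 1 := h3.trans (map_one il).symm
  rw [il_eq] at h4
  have h5 : t8 1 = 1 := congrArg Prod.snd h4
  revert h5
  decide

lemma Sim_of_eq {G : Type*} [Group G] {Z : Subgroup G} {w a b : G} (hw : w ∈ Z)
    (h : w * a * w⁻¹ = b) : Sim Z a b := by
  refine ⟨w, hw, ?_⟩
  rw [h, mul_inv_cancel]; exact one_mem _

lemma il_pow_seven_mem_L1 {a : P8} (h : il (a, 1) ^ 7 ∈ rad L1) : a ^ 7 = 1 := by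
  rw [rad_L1, Subgroup.mem_bot, ← map_pow] at h
  have h4 : il ((a, 1) ^ 7) = il 1 := h.trans (map_one il).symm
  rw [il_eq] at h4
  exact congrArg Prod.fst h4

lemma il_pow_seven_mem_L2 {a : P8} (h : il (1, a) ^ 7 ∈ rad L2) : a ^ 7 = 1 := by
  rw [rad_L2, Subgroup.mem_bot, ← map_pow] at h
  have h4 : il ((1, a) ^ 7) = il 1 := h.trans (map_one il).symm
  rw [il_eq] at h4
  exact congrArg Prod.snd h4

/-- Elements conjugating by a pair of even permutations preserve classes. -/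
lemma Ev_L1 {p q : P8} (hp : Equiv.Perm.sign p = 1) : Ev L1 (⟨(p, q), 1⟩ : SS) := by
  intro z hz _
  obtain ⟨a, _, rfl⟩ := mem_L1.mp hz
  rw [conj_il_one]
  refine Sim_of_eq (w := il (p⁻¹, 1)) (mem_L1.mpr ⟨p⁻¹, by rw [map_inv, hp, inv_one], rfl⟩) ?_
  rw [← map_inv, ← map_mul, ← map_mul, il_eq]
  simp [mul_assoc]

lemma Ev_L2 {p q : P8} (hq : Equiv.Perm.sign q = 1) : Ev L2 (⟨(p, q), 1⟩ : SS) := by
  intro z hz _
  obtain ⟨a, _, rfl⟩ := mem_L2.mp hz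
  rw [conj_il_one]
  refine Sim_of_eq (w := il (1, q⁻¹)) (mem_L2.mpr ⟨q⁻¹, by rw [map_inv, hq, inv_one], rfl⟩) ?_
  rw [← map_inv, ← map_mul, ← map_mul, il_eq]
  simp [mul_assoc]

lemma il_mul (a b c d : P8) : il (a, b) * il (c, d) = il (a * c, b * d) := by
  rw [← map_mul]; rfl

lemma il_inv (a b : P8) : (il (a, b))⁻¹ = il (a⁻¹, b⁻¹) := by
  rw [← map_inv]; rfl

lemma Sp12 {p q : P8} (hp : Equiv.Perm.sign p = 1) (hq : Equiv.Perm.sign q = 1) :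
    Sp (⟨(p, q), swW⟩ : SS) L1 L2 U0 where
  swap := cj_sw_L2 p q
  rad_le := by rw [rad_L2]; exact bot_le
  not_le := L2_not_le_U0
  sn := by
    intro z hz z' hz' h
    obtain ⟨a, ha, rfl⟩ := mem_L1.mp hz
    obtain ⟨b, hb, rfl⟩ := mem_L2.mp hz'
    rw [il_mul, one_mul, mul_one, il_mem_U0]
    refine U'_self ha ?_
    intro u v huv
    have hs := U'_sign huv
    have h1 := h (il (u, 1)) (mem_L1.mpr ⟨u, hs.1, rfl⟩) (il (1, v)) (mem_L2.mpr ⟨v, hs.2, rfl⟩)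
    simp only [il_mul, il_inv, one_mul, mul_one, il_mem_U0] at h1
    exact h1 huv
  np := by
    refine ⟨il (c8, 1), mem_L1.mpr ⟨_, sign_c8, rfl⟩, il (1, c8), mem_L2.mpr ⟨_, sign_c8, rfl⟩,
      ?_, ?_⟩
    · simp only [il_mul, one_mul, mul_one, il_mem_U0]
      refine ⟨c8_mem, ?_⟩
      change c8 * c8⁻¹ ∈ T8
      rw [mul_inv_cancel]; exact one_mem _
    · intro h2
      rw [il_mem_U0] at h2
      have h3 := T8_eq_one h2.2 (V1_zero (V1.mul_mem V1.one_mem (V1.inv_mem c8_mem)))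
      rw [one_mul, inv_eq_one] at h3
      exact c8_ne h3
  asym := by
    rw [rad_L1, rad_L2]
    exact fun h => L2_inf_U0 h.2
  comp1 := by
    intro z hz z' hz' hz7 hz7' hzz
    obtain ⟨a, ha, rfl⟩ := mem_L1.mp hz
    obtain ⟨b, hb, rfl⟩ := mem_L2.mp hz'
    rw [il_mul, one_mul, mul_one, il_mem_U0] at hzz
    obtain ⟨w, hw, hwab⟩ := conj_of_pow_seven hzz.1 hzz.2 (il_pow_seven_mem_L1 hz7)
      (il_pow_seven_mem_L2 hz7')
    rw [conj_il_sw]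
    refine Sim_of_eq (w := il (1, w * q⁻¹)) (mem_L2.mpr ⟨_, ?_, rfl⟩) ?_
    · rw [map_mul, map_inv, hw, hq]; rfl
    · simp only [il_mul, il_inv, il_eq]
      change w * a * w⁻¹ = b at hwab
      rw [← hwab]
      ext1
      · simp
      · simp [mul_assoc]
  comp2 := by
    intro z hz z' hz' hz7 hz7' hzz
    obtain ⟨a, ha, rfl⟩ := mem_L1.mp hz
    obtain ⟨b, hb, rfl⟩ := mem_L2.mp hz'
    rw [il_mul, one_mul, mul_one, il_mem_U0] at hzz
    obtain ⟨w, hw, hwab⟩ := conj_of_pow_seven hzz.1 hzz.2 (il_pow_seven_mem_L1 hz7)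
      (il_pow_seven_mem_L2 hz7')
    rw [conj_il_sw]
    refine Sim_of_eq (w := il (w⁻¹ * p⁻¹, 1)) (mem_L1.mpr ⟨_, ?_, rfl⟩) ?_
    · rw [map_mul, map_inv, map_inv, hw, hp]; rfl
    · simp only [il_mul, il_inv, il_eq]
      change w * a * w⁻¹ = b at hwab
      rw [← hwab]
      ext1
      · simp [mul_assoc]
      · simp
  cov := by
    intro z hz hz7
    obtain ⟨a, ha, rfl⟩ := mem_L1.mp hz
    obtain ⟨w, hw, k, hk⟩ := exists_conj_c8 (il_pow_seven_mem_L1 hz7)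
    refine ⟨il (w, 1), mem_L1.mpr ⟨w, hw, rfl⟩, il (1, c8 ^ k),
      mem_L2.mpr ⟨_, by rw [map_pow, sign_c8, one_pow], rfl⟩, ?_, ?_⟩
    · rw [← map_pow]
      have e : ((1 : P8), c8 ^ k) ^ 7 = 1 := by
        ext1
        · simp
        · simp only [Prod.pow_mk, Prod.snd_one]
          rw [← pow_mul, mul_comm, pow_mul, c8_pow, one_pow]
      rw [e, map_one]; exact one_mem _
    · simp only [il_mul, il_inv, il_mem_U0, one_mul, mul_one, inv_one, hk]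
      refine ⟨V1.pow_mem c8_mem k, ?_⟩
      change c8 ^ k * (c8 ^ k)⁻¹ ∈ T8
      rw [mul_inv_cancel]; exact one_mem _

lemma Sp21 {p q : P8} (hp : Equiv.Perm.sign p = 1) (hq : Equiv.Perm.sign q = 1) :
    Sp (⟨(p, q), swW⟩ : SS) L2 L1 U0 where
  swap := cj_sw_L1 p q
  rad_le := by rw [rad_L1]; exact bot_le
  not_le := L1_not_le_U0
  sn := by
    intro z' hz' z hz h
    obtain ⟨a, ha, rfl⟩ := mem_L1.mp hz
    obtain ⟨b, hb, rfl⟩ := mem_L2.mp hz'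
    rw [il_mul, one_mul, mul_one, il_mem_U0]
    refine U'_self ha ?_
    intro u v huv
    have hs := U'_sign huv
    have h1 := h (il (1, v)) (mem_L2.mpr ⟨v, hs.2, rfl⟩) (il (u, 1)) (mem_L1.mpr ⟨u, hs.1, rfl⟩)
    simp only [il_mul, il_inv, one_mul, mul_one, il_mem_U0] at h1
    exact h1 huv
  np := by
    refine ⟨il (1, c8), mem_L2.mpr ⟨_, sign_c8, rfl⟩, il (c8, 1), mem_L1.mpr ⟨_, sign_c8, rfl⟩,
      ?_, ?_⟩
    · simp only [il_mul, one_mul, mul_one, il_mem_U0]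
      refine ⟨c8_mem, ?_⟩
      change c8 * c8⁻¹ ∈ T8
      rw [mul_inv_cancel]; exact one_mem _
    · intro h2
      rw [il_mem_U0] at h2
      have h3 := T8_eq_one h2.2 (V1_zero (V1.mul_mem c8_mem (V1.inv_mem V1.one_mem)))
      rw [inv_one, mul_one] at h3
      exact c8_ne h3
  asym := by
    rw [rad_L1, rad_L2]
    exact fun h => L2_inf_U0 h.1
  comp1 := by
    intro z' hz' z hz hz7' hz7 hzz
    exact (Sp12 hp hq).comp2 z hz z' hz' hz7 hz7' (by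
      obtain ⟨a, ha, rfl⟩ := mem_L1.mp hz
      obtain ⟨b, hb, rfl⟩ := mem_L2.mp hz'
      rw [il_mul, one_mul, mul_one] at hzz ⊢
      exact hzz)
  comp2 := by
    intro z' hz' z hz hz7' hz7 hzz
    exact (Sp12 hp hq).comp1 z hz z' hz' hz7 hz7' (by
      obtain ⟨a, ha, rfl⟩ := mem_L1.mp hz
      obtain ⟨b, hb, rfl⟩ := mem_L2.mp hz'
      rw [il_mul, one_mul, mul_one] at hzz ⊢
      exact hzz)
  cov := by
    intro z hz hz7
    obtain ⟨a, ha, rfl⟩ := mem_L2.mp hz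
    obtain ⟨w, hw, k, hk⟩ := exists_conj_c8 (il_pow_seven_mem_L2 hz7)
    refine ⟨il (1, w), mem_L2.mpr ⟨w, hw, rfl⟩, il (c8 ^ k, 1),
      mem_L1.mpr ⟨_, by rw [map_pow, sign_c8, one_pow], rfl⟩, ?_, ?_⟩
    · rw [← map_pow]
      have e : (c8 ^ k, (1 : P8)) ^ 7 = 1 := by
        ext1
        · simp only [Prod.pow_mk, Prod.fst_one]
          rw [← pow_mul, mul_comm, pow_mul, c8_pow, one_pow]
        · simp
      rw [e, map_one]; exact one_mem _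
    · simp only [il_mul, il_inv, il_mem_U0, one_mul, mul_one, inv_one, hk]
      refine ⟨V1.pow_mem c8_mem k, ?_⟩
      change c8 ^ k * (c8 ^ k)⁻¹ ∈ T8
      rw [mul_inv_cancel]; exact one_mem _

/-- The condition holds for pairs with second coordinate even. -/
lemma phi_H {p q : P8} (hq : Equiv.Perm.sign q = 1) {Z : Subgroup SS} (hZ : Z = L1 ∨ Z = L2) :
    Phi (⟨(p, q), 1⟩ : SS) Z U0 := by
  rcases hZ with rfl | rfl
  · refine ⟨fun _ => Or.inr ?_, fun h => absurd (cj_one_L1 p q) h⟩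
    rw [rad_L1]; exact L1_inf_U0
  · exact ⟨fun _ => Or.inl (Ev_L2 hq), fun h => absurd (cj_one_L2 p q) h⟩

/-- The condition holds for the even wreath product. -/
lemma phi_K {x : SS} (h1 : Equiv.Perm.sign x.left.1 = 1) (h2 : Equiv.Perm.sign x.left.2 = 1)
    {Z : Subgroup SS} (hZ : Z = L1 ∨ Z = L2) : Phi x Z U0 := by
  obtain ⟨p, q, rfl | rfl⟩ := SS_cases x
  · exact phi_H h2 hZ
  · rcases hZ with rfl | rfl
    · refine ⟨fun h => ?_, fun _ => ?_⟩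
      · rw [cj_sw_L1] at h
        exact absurd h.symm L1_ne_L2
      · rw [cj_sw_L1]
        exact Sp12 h1 h2
    · refine ⟨fun h => ?_, fun _ => ?_⟩
      · rw [cj_sw_L2] at h
        exact absurd h L1_ne_L2
      · rw [cj_sw_L2]
        exact Sp21 h1 h2

/-- The condition fails for an odd element in the second coordinate. -/
lemma not_phi : ¬ Phi (⟨(1, tau), 1⟩ : SS) L2 U0 := by
  intro h
  rcases h.fix (cj_one_L2 _ _) with h | h
  · have hz : il (1, c8) ∈ L2 := mem_L2.mpr ⟨c8, sign_c8, rfl⟩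
    have h7 : il (1, c8) ^ 7 ∈ rad L2 := by
      rw [← map_pow]
      have e : ((1 : P8), c8) ^ 7 = 1 := by
        ext1
        · simp
        · exact c8_pow
      rw [e, map_one]; exact one_mem _
    obtain ⟨w, hw, hw'⟩ := h _ hz h7
    obtain ⟨v, hv, rfl⟩ := mem_L2.mp hw
    rw [conj_il_one, rad_L2, Subgroup.mem_bot, il_inv, il_inv, il_mul, il_mul, il_mul] at hw'
    have h4 := hw'.trans (map_one il).symm
    rw [il_eq] at h4
    have h5 : v * (tau * c8 * tau⁻¹) * v⁻¹ * c8⁻¹ = 1 := congrArg Prod.snd h4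
    rw [tau_c8, mul_inv_eq_one] at h5
    exact not_conj_inv hv h5
  · rw [rad_L2] at h
    exact L2_inf_U0 h

end Pool.Agent.Helper70
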