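import Pool.Agent.Helper70.NProd

/-!
Simple groups as heads.
-/

set_option autoImplicit false

namespace Pool.Agent.Helper70

open Subgroup
open scoped commutatorElement

variable {G : Type*} [Group G]

section Simple

variable {E : Type*} [Group E] [IsSimpleGroup E]

lemma isHead_top_of_simple (h : ∃ a b : E, a * b ≠ b * a) : IsHead (⊤ : Subgroup E) where
  subnormal := IsSubnormal.top
  ne_bot := by
    obtain ⟨a, b, h⟩ := h
    intro h'
    have ha : a ∈ (⊤ : Subgroup E) := trivial
    rw [h', Subgroup.mem_bot] at ha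
    apply h
    simp [ha]
  perfect := by
    rcases (inferInstance : (⁅(⊤ : Subgroup E), (⊤ : Subgroup E)⁆ : Subgroup E).Normal).eq_bot_or_eq_top
      with h' | h'
    · exfalso
      obtain ⟨a, b, h⟩ := h
      apply h
      have h1 : ⁅a, b⁆ ∈ (⁅(⊤ : Subgroup E), (⊤ : Subgroup E)⁆ : Subgroup E) :=
        commutator_mem_commutator trivial trivial
      rw [h', Subgroup.mem_bot, commutatorElement_eq_one_iff_mul_comm] at h1
      exact h1
    · exact h'
  prime := by
    intro A B _ _ hA' _ hAB
    have hA : A.Normal := normalizer_eq_top_iff.mp (top_le_iff.mp hA')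
    rcases hA.eq_bot_or_eq_top with h' | h'
    · right; rw [h', bot_sup_eq] at hAB; exact hAB
    · left; exact h'

lemma rad_top_of_simple : rad (⊤ : Subgroup E) = ⊥ := by
  rw [eq_bot_iff]
  refine sSup_le ?_
  rintro A ⟨_, h2, h3⟩
  have hA : A.Normal := normalizer_eq_top_iff.mp (top_le_iff.mp h2)
  rcases hA.eq_bot_or_eq_top with h' | h'
  · exact h'.le
  · exact absurd h' h3

variable {f : E →* G}

lemma isHead_range (h : ∃ a b : E, a * b ≠ b * a) (hf : Function.Injective f)
    (hr : f.range.IsSubnormal) : IsHead f.range := by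
  rw [MonoidHom.range_eq_map]
  exact (isHead_top_of_simple h).map_inj hf hr

lemma rad_range (hf : Function.Injective f) : rad f.range = ⊥ := by
  rw [MonoidHom.range_eq_map, ← rad_map_inj hf, rad_top_of_simple, Subgroup.map_bot]

lemma eq_range_of_le {Y : Subgroup G} (hY : IsHead Y) (hle : Y ≤ f.range) : Y = f.range := by
  have h1 : (Y.comap f).IsSubnormal := hY.subnormal.comap f
  have h2 : (Y.comap f).map f = Y := by
    rw [Subgroup.map_comap_eq, inf_eq_right.mpr hle]
  rcases h1.eq_bot_or_top_of_isSimpleGroup inferInstance with h | h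
  · exfalso
    rw [h, Subgroup.map_bot] at h2
    exact hY.ne_bot h2.symm
  · rw [h, ← MonoidHom.range_eq_map] at h2
    exact h2.symm

end Simple

/-- A head contained in the subgroup generated by some subnormal subgroups lies in one of them. -/
lemma IsHead.exists_le [Finite G] {Y B : Subgroup G} (hY : IsHead Y) {ι : Type*}
    (K : ι → Subgroup G) (hK : ∀ i, (K i).IsSubnormal) (hB : Y ≤ B)
    (hgen : ∀ C : Subgroup G, (∀ i, K i ≤ C) → B ≤ C) : ∃ i, Y ≤ K i := by
  by_contra hne
  push Not at hne
  exact hY.not_le_cent (hB.trans (hgen _ fun i => hY.subnormal_le_cent (hK i) (hne i)))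

/-- A head is contained in the kernel of each homomorphism to a commutative group. -/
lemma IsHead.le_of_commutators {Y B : Subgroup G} (hY : IsHead Y)
    (hB : ∀ a ∈ Y, ∀ b ∈ Y, a * b * a⁻¹ * b⁻¹ ∈ B) : Y ≤ B := by
  conv_lhs => rw [← hY.perfect]
  rw [commutator_le]
  intro a ha b hb
  exact hB a ha b hb

end Pool.Agent.Helper70
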