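import Pool.Agent.Helper70.SimpleHead
import Pool.Agent.Helper70.Oct

/-!
The wreath product of the symmetric group of degree 8 with a group of order two.
-/

set_option autoImplicit false

namespace Pool.Agent.Helper70

open Subgroup
open scoped commutatorElement

abbrev PP := P8 × P8

def sw : MulAut PP := MulEquiv.prodComm

abbrev WW := Subgroup.zpowers sw

abbrev SS := PP ⋊[WW.subtype] WW

instance : Finite SS := Finite.of_equiv _ (SemidirectProduct.equivProd).symm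

abbrev il : PP →* SS := SemidirectProduct.inl

lemma sw_sq : sw * sw = 1 := by
  ext x <;> rfl

lemma sw_apply (x : PP) : sw x = (x.2, x.1) := rfl

def swW : WW := ⟨sw, Subgroup.mem_zpowers sw⟩

lemma WW_cases (w : WW) : w = 1 ∨ w = swW := by
  obtain ⟨w, n, rfl⟩ := w
  have h2 : sw ^ (2 : ℤ) = 1 := by
    rw [zpow_two, sw_sq]
  rcases Int.even_or_odd' n with ⟨k, rfl | rfl⟩
  · left
    apply Subtype.ext
    change sw ^ (2 * k) = 1
    rw [zpow_mul, h2, one_zpow]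
  · right
    apply Subtype.ext
    change sw ^ (2 * k + 1) = sw
    rw [zpow_add, zpow_mul, h2, one_zpow, one_mul, zpow_one]

lemma WW_comm (v w : WW) : v * w = w * v := by
  rcases WW_cases v with rfl | rfl <;> rcases WW_cases w with rfl | rfl <;> simp

lemma conj_il (x : SS) (n : PP) :
    x * il n * x⁻¹ = il (x.left * (x.right : MulAut PP) n * x.left⁻¹) := by
  apply SemidirectProduct.ext
  · simp
  · simp

lemma conj_il_one (p q a b : P8) :
    (⟨(p, q), 1⟩ : SS) * il (a, b) * (⟨(p, q), 1⟩ : SS)⁻¹ = il (p * a * p⁻¹, q * b * q⁻¹) := by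
  rw [conj_il]; rfl

lemma conj_il_sw (p q a b : P8) :
    (⟨(p, q), swW⟩ : SS) * il (a, b) * (⟨(p, q), swW⟩ : SS)⁻¹ = il (p * b * p⁻¹, q * a * q⁻¹) := by
  rw [conj_il]; rfl

abbrev A8 := alternatingGroup (Fin 8)

instance : IsSimpleGroup A8 := alternatingGroup.isSimpleGroup (by simp)

lemma A8_noncomm : ∃ a b : A8, a * b ≠ b * a := by
  refine ⟨⟨c8, sign_c8⟩, ⟨s8, sign_s8⟩, ?_⟩
  intro h
  have h2 : c8 * s8 = s8 * c8 := congrArg Subtype.val h
  revert h2
  decide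

def j1 : A8 →* SS := (il.comp (MonoidHom.inl P8 P8)).comp A8.subtype
def j2 : A8 →* SS := (il.comp (MonoidHom.inr P8 P8)).comp A8.subtype

lemma j1_inj : Function.Injective j1 := by
  intro a b h
  have h1 : ((a : P8), (1 : P8)) = ((b : P8), (1 : P8)) := SemidirectProduct.inl_injective h
  exact Subtype.ext (Prod.ext_iff.mp h1).1

lemma j2_inj : Function.Injective j2 := by
  intro a b h
  have h1 : ((1 : P8), (a : P8)) = ((1 : P8), (b : P8)) := SemidirectProduct.inl_injective h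
  exact Subtype.ext (Prod.ext_iff.mp h1).2

def L1 : Subgroup SS := j1.range
def L2 : Subgroup SS := j2.range

lemma mem_L1 {x : SS} : x ∈ L1 ↔ ∃ a : P8, Equiv.Perm.sign a = 1 ∧ x = il (a, 1) := by
  constructor
  · rintro ⟨a, rfl⟩
    exact ⟨a, a.2, rfl⟩
  · rintro ⟨a, ha, rfl⟩
    exact ⟨⟨a, ha⟩, rfl⟩

lemma mem_L2 {x : SS} : x ∈ L2 ↔ ∃ a : P8, Equiv.Perm.sign a = 1 ∧ x = il (1, a) := by
  constructor
  · rintro ⟨a, rfl⟩
    exact ⟨a, a.2, rfl⟩
  · rintro ⟨a, ha, rfl⟩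
    exact ⟨⟨a, ha⟩, rfl⟩

lemma range_il_normal : (il.range : Subgroup SS).Normal := by
  rw [SemidirectProduct.range_inl_eq_ker_rightHom]
  exact MonoidHom.normal_ker _

lemma normal1 : ((MonoidHom.inl P8 P8).comp A8.subtype).range.Normal := by
  constructor
  rintro _ ⟨a, rfl⟩ ⟨p, q⟩
  refine ⟨⟨p * a * p⁻¹, (inferInstance : A8.Normal).conj_mem a a.2 p⟩, ?_⟩
  ext <;> simp

lemma normal2 : ((MonoidHom.inr P8 P8).comp A8.subtype).range.Normal := by
  constructor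
  rintro _ ⟨a, rfl⟩ ⟨p, q⟩
  refine ⟨⟨q * a * q⁻¹, (inferInstance : A8.Normal).conj_mem a a.2 q⟩, ?_⟩
  ext <;> simp

lemma L1_subnormal : L1.IsSubnormal := by
  have h := isSubnormal_map_inj (f := il) range_il_normal.isSubnormal normal1.isSubnormal
  rw [← MonoidHom.range_comp] at h
  exact h

lemma L2_subnormal : L2.IsSubnormal := by
  have h := isSubnormal_map_inj (f := il) range_il_normal.isSubnormal normal2.isSubnormal
  rw [← MonoidHom.range_comp] at h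
  exact h

lemma L1_head : IsHead L1 := isHead_range A8_noncomm j1_inj L1_subnormal
lemma L2_head : IsHead L2 := isHead_range A8_noncomm j2_inj L2_subnormal
lemma rad_L1 : rad L1 = ⊥ := rad_range j1_inj
lemma rad_L2 : rad L2 = ⊥ := rad_range j2_inj

/-- The heads of `SS`. -/
lemma heads_SS {Y : Subgroup SS} (hY : IsHead Y) : Y = L1 ∨ Y = L2 := by
  have hb : Y ≤ il.range := by
    refine hY.le_of_commutators ?_
    intro a _ b _
    rw [SemidirectProduct.range_inl_eq_ker_rightHom, MonoidHom.mem_ker]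
    have : (a * b * a⁻¹ * b⁻¹).right = 1 := by
      rw [SemidirectProduct.mul_right, SemidirectProduct.mul_right, SemidirectProduct.mul_right,
        SemidirectProduct.inv_right, SemidirectProduct.inv_right, WW_comm a.right b.right]
      simp
    exact this
  have hc : Y ≤ L1 ⊔ L2 := by
    refine hY.le_of_commutators ?_
    intro a ha b hb'
    obtain ⟨⟨a1, a2⟩, rfl⟩ := hb ha
    obtain ⟨⟨b1, b2⟩, rfl⟩ := hb hb'
    have e : il (a1, a2) * il (b1, b2) * (il (a1, a2))⁻¹ * (il (b1, b2))⁻¹ =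
      il (a1 * b1 * a1⁻¹ * b1⁻¹, 1) * il (1, a2 * b2 * a2⁻¹ * b2⁻¹) := by
      simp only [← map_mul, ← map_inv]
      congr 1
    rw [e]
    have hs : ∀ a b : P8, Equiv.Perm.sign (a * b * a⁻¹ * b⁻¹) = 1 := by
      intro a b
      simp only [map_mul, map_inv]
      rw [mul_comm (Equiv.Perm.sign a)]
      group
    exact mul_mem (mem_sup_left (mem_L1.mpr ⟨_, hs _ _, rfl⟩))
      (mem_sup_right (mem_L2.mpr ⟨_, hs _ _, rfl⟩))
  obtain ⟨i, hi⟩ := hY.exists_le (fun i : Bool => if i then L1 else L2)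
    (by intro i; cases i <;> simp [L1_subnormal, L2_subnormal]) hc
    (by
      intro C hC
      exact sup_le (hC true) (hC false))
  cases i
  · right; exact eq_range_of_le hY hi
  · left; exact eq_range_of_le hY hi

/-- The diagonal-like subgroup. -/
def U' : Subgroup PP where
  carrier := {x | x.1 ∈ V1 ∧ x.2 * x.1⁻¹ ∈ T8}
  one_mem' := ⟨one_mem _, by simp⟩
  mul_mem' := by
    rintro ⟨a, b⟩ ⟨a', b'⟩ ⟨h1, h2⟩ ⟨h1', h2'⟩
    refine ⟨V1.mul_mem h1 h1', ?_⟩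
    change b * b' * (a * a')⁻¹ ∈ T8
    have e : b * b' * (a * a')⁻¹ = b * a⁻¹ * (a * (b' * a'⁻¹) * a⁻¹) := by group
    rw [e]
    exact T8.mul_mem h2 (V1_conj_T8 h1 h2')
  inv_mem' := by
    rintro ⟨a, b⟩ ⟨h1, h2⟩
    refine ⟨V1.inv_mem h1, ?_⟩
    change b⁻¹ * a⁻¹⁻¹ ∈ T8
    have e : b⁻¹ * a⁻¹⁻¹ = a⁻¹ * (b * a⁻¹)⁻¹ * a⁻¹⁻¹ := by group
    rw [e]
    exact V1_conj_T8 (V1.inv_mem h1) (T8.inv_mem h2)

def U0 : Subgroup SS := U'.map il

lemma mem_U' {a b : P8} : (a, b) ∈ U' ↔ a ∈ V1 ∧ b * a⁻¹ ∈ T8 := Iff.rfl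

lemma il_mem_U0 {n : PP} : il n ∈ U0 ↔ n ∈ U' :=
  Subgroup.mem_map_iff_mem SemidirectProduct.inl_injective

lemma U'_sign {a b : P8} (h : (a, b) ∈ U') : Equiv.Perm.sign a = 1 ∧ Equiv.Perm.sign b = 1 := by
  have ha := V1_sign h.1
  refine ⟨ha, ?_⟩
  have := T8_sign h.2
  have e : b = b * a⁻¹ * a := by group
  rw [e, map_mul, ha, this]
  rfl

/-- The self-normalising property. -/
lemma U'_self {a b : P8} (ha : Equiv.Perm.sign a = 1)
    (h : ∀ u v : P8, (u, v) ∈ U' → (a * u * a⁻¹, b * v * b⁻¹) ∈ U') : (a, b) ∈ U' := by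
  have hd : ∀ v ∈ V1, (v, v) ∈ U' := by
    intro v hv
    refine ⟨hv, ?_⟩
    change v * v⁻¹ ∈ T8
    rw [mul_inv_cancel]; exact one_mem _
  have haV : a ∈ V1 := mem_V1_of_normalizes ha (h _ _ (hd _ c8_mem)).1
  refine ⟨haV, ?_⟩
  refine mem_T8_of_normalizes ?_
  intro v hv
  have hv' : a⁻¹ * v * a ∈ V1 := V1.mul_mem (V1.mul_mem (V1.inv_mem haV) hv) haV
  have h1 := (h _ _ (hd _ hv')).2
  have e : b * (a⁻¹ * v * a) * b⁻¹ * (a * (a⁻¹ * v * a) * a⁻¹)⁻¹ =
    b * a⁻¹ * v * (b * a⁻¹)⁻¹ * v⁻¹ := by group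
  change b * (a⁻¹ * v * a) * b⁻¹ * (a * (a⁻¹ * v * a) * a⁻¹)⁻¹ ∈ T8 at h1
  rw [e] at h1
  exact h1

end Pool.Agent.Helper70
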