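import Mathlib
import Pool.Agent.Helper70.SqFree
import Pool.Agent.Helper70.CoverDefs

/-!
Three equivalence relations attached to a graph: property (P) encodes non-3-colourability.
-/

namespace Pool.Agent.Helper70.ThreeCol

open Classical
open Pool.Agent.Helper70.IdemDefs
open Pool.Agent.Helper70.CoverDefs
open Pool.Agent.Helper70.SqFree

/-! ### Darts of a simple graph with the relations same source, same edge -/

section DartFamily

variable {W : Type*} (H : SimpleGraph W)

def src : Setoid H.Dart := Setoid.ker (fun d => d.fst)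

def edg : Setoid H.Dart := Setoid.ker (fun d => d.edge)

lemma src_iff {d d' : H.Dart} : (src H) d d' ↔ d.fst = d'.fst := Iff.rfl

lemma edg_iff {d d' : H.Dart} : (edg H) d d' ↔ d = d' ∨ d = d'.symm :=
  SimpleGraph.dart_edge_eq_iff d d'

lemma dart_ext {d d' : H.Dart} (h1 : d.fst = d'.fst) (h2 : d.snd = d'.snd) : d = d' := by
  apply SimpleGraph.Dart.ext
  exact Prod.ext h1 h2

lemma square1 {p q r s : H.Dart} (h1 : (src H) p q) (h2 : (edg H) q r) (h3 : (src H) r s)
    (h4 : (edg H) s p) : (p = q ∧ r = s) ∨ (q = r ∧ s = p) := by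
  rw [src_iff] at h1 h3
  rw [edg_iff] at h2 h4
  rcases h2 with rfl | rfl
  · rcases h4 with rfl | rfl
    · right; exact ⟨rfl, rfl⟩
    · exfalso
      have : p.fst = p.snd := by rw [h1, h3]; rfl
      exact p.adj.ne this
  · rcases h4 with rfl | rfl
    · exfalso
      have : r.snd = r.fst := by
        have : s.fst = r.snd := h1
        rw [← this, h3]
      exact r.adj.ne this.symm
    · left
      have e1 : p.fst = r.snd := h1
      have e2 : r.fst = p.snd := h3
      refine ⟨dart_ext H h1 ?_, ?_⟩
      · exact e2.symm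
      · exact dart_ext H e2 e1.symm

lemma squareFree : SquareFree ({src H, edg H} : Set (Setoid H.Dart)) := by
  intro θ hθ φ hφ hne p q r s h1 h2 h3 h4
  simp only [Set.mem_insert_iff, Set.mem_singleton_iff] at hθ hφ
  rcases hθ with rfl | rfl
  · rcases hφ with rfl | rfl
    · exact absurd rfl hne
    · exact square1 H h1 h2 h3 h4
  · rcases hφ with rfl | rfl
    · rcases square1 H h4 h1 h2 h3 with ⟨e1, e2⟩ | ⟨e1, e2⟩
      · right; exact ⟨e2, e1⟩
      · left; exact ⟨e1, e2⟩
    · exact absurd rfl hne

lemma sSup_top (hH : H.Preconnected) :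
    sSup ({src H, edg H} : Set (Setoid H.Dart)) = ⊤ := by
  set J := sSup ({src H, edg H} : Set (Setoid H.Dart)) with hJ
  have hs : ∀ d d' : H.Dart, d.fst = d'.fst → J d d' := fun d d' h =>
    (le_sSup (a := src H) (by simp)) h
  have he : ∀ d : H.Dart, J d d.symm := fun d =>
    (le_sSup (a := edg H) (by simp)) ((edg_iff H).mpr (Or.inr (by simp)))
  have key : ∀ (a b : W) (w : H.Walk a b) (d d' : H.Dart), d.fst = a → d'.fst = b → J d d' := by
    intro a b w
    induction w with
    | nil => intro d d' h h'; exact hs d d' (h.trans h'.symm)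
    | @cons a c b hac w ih =>
      intro d d' h h'
      let e : H.Dart := ⟨(a, c), hac⟩
      exact J.trans (hs d e h) (J.trans (he e) (ih e.symm d' rfl h'))
  rw [eq_top_iff]
  intro d d' _
  obtain ⟨w⟩ := hH d.fst d'.fst
  exact key _ _ w d d' rfl rfl

lemma leafless (hd : ∀ a b, H.Adj a b → ∃ c, c ≠ b ∧ H.Adj a c) :
    TwoBlocks ({src H, edg H} : Set (Setoid H.Dart)) := by
  intro d
  refine ⟨src H, by simp, edg H, by simp, ?_, ?_, ?_⟩
  · intro h
    have h1 : (edg H) d d.symm := (edg_iff H).mpr (Or.inr (by simp))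
    rw [← h, src_iff] at h1
    exact d.adj.ne h1
  · obtain ⟨c, hc, hac⟩ := hd d.fst d.snd d.adj
    refine ⟨⟨(d.fst, c), hac⟩, ?_, rfl⟩
    intro h
    apply hc
    have := congrArg (fun d : H.Dart => d.snd) h
    exact this
  · refine ⟨d.symm, ?_, (edg_iff H).mpr (Or.inr (by simp))⟩
    intro h
    have := congrArg (fun d : H.Dart => d.fst) h
    exact d.adj.ne this.symm

theorem propertyP [Finite W] (hH : H.Preconnected) (hne : Nonempty H.Dart)
    (hd : ∀ a b, H.Adj a b → ∃ c, c ≠ b ∧ H.Adj a c) :
    PropertyP ({src H, edg H} : Set (Setoid H.Dart)) := by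
  have : Finite H.Dart := Finite.of_injective (fun d : H.Dart => d.toProd)
    (fun a b h => SimpleGraph.Dart.ext _ _ h)
  exact propertyP_of_leafless (squareFree H) (sSup_top H hH) (leafless H hd)

end DartFamily

/-! ### The construction -/

variable {V : Type*} (G : SimpleGraph V) (v₀ : V)

variable {G v₀}

lemma cover_adj_of {v w : V} {i j : Fin 3} (h : G.Adj v w) (hij : i ≠ j) :
    (cover G v₀).Adj (v, i) (w, j) := Or.inl ⟨h, hij⟩

lemma third (i j : Fin 3) : ∃ k : Fin 3, k ≠ i ∧ k ≠ j := by
  revert i j; decide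

lemma exists_nbr [Nontrivial V] (hG : G.Connected) (v : V) : ∃ w, G.Adj v w := by
  obtain ⟨w, hw⟩ := hG.preconnected.exists_adj_of_nontrivial v
  exact ⟨w, hw⟩

lemma cover_preconnected [Nontrivial V] (hG : G.Connected) : (cover G v₀).Preconnected := by
  have h1 : ∀ (v : V) (i j : Fin 3), (cover G v₀).Reachable (v, i) (v, j) := by
    intro v i j
    obtain ⟨w, hw⟩ := exists_nbr hG v
    obtain ⟨k, hk1, hk2⟩ := third i j
    have e1 : (cover G v₀).Adj (v, i) (w, k) := cover_adj_of hw hk1.symm
    have e2 : (cover G v₀).Adj (w, k) (v, j) := cover_adj_of hw.symm hk2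
    exact e1.reachable.trans e2.reachable
  have h2 : ∀ (v w : V), G.Adj v w → ∀ i j, (cover G v₀).Reachable (v, i) (w, j) := by
    intro v w hvw i j
    obtain ⟨k, hk1, _⟩ := third i j
    have e1 : (cover G v₀).Adj (v, i) (w, k) := cover_adj_of hvw hk1.symm
    exact e1.reachable.trans (h1 w k j)
  have h3 : ∀ (v w : V), G.Walk v w → ∀ i j, (cover G v₀).Reachable (v, i) (w, j) := by
    intro v w p
    induction p with
    | nil => intro i j; exact h1 _ i j
    | cons h p ih => intro i j; exact (h2 _ _ h i 0).trans (ih 0 j)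
  rintro ⟨v, i⟩ ⟨w, j⟩
  obtain ⟨p⟩ := hG.preconnected v w
  exact h3 v w p i j

lemma cover_two_nbrs [Nontrivial V] (hG : G.Connected) (a b : V × Fin 3) :
    ∃ c, c ≠ b ∧ (cover G v₀).Adj a c := by
  obtain ⟨v, i⟩ := a
  obtain ⟨w, hw⟩ := exists_nbr hG v
  obtain ⟨k, hk1, _⟩ := third i i
  obtain ⟨l, hl1, hl2⟩ := third i k
  by_cases hb : b = (w, k)
  · refine ⟨(w, l), ?_, cover_adj_of hw hl1.symm⟩
    rw [hb]
    intro h
    exact hl2 (Prod.ext_iff.mp h).2
  · exact ⟨(w, k), fun h => hb h.symm, cover_adj_of hw hk1.symm⟩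

/-! ### The rigidity of the labelled cover -/

lemma phi_id [Nontrivial V] (hG : G.Connected) (hcol : ¬ G.Colorable 3)
    (φ : V → Fin 3 → Fin 3) (h : ∀ v w, G.Adj v w → ∀ i j, i ≠ j → φ v i ≠ φ w j)
    (h0 : φ v₀ 0 = 0) (h1 : φ v₀ 1 = 1) : ∀ v i, φ v i = i := by
  have step : ∀ (a b : Fin 3 → Fin 3), Function.Injective a → (∀ i j, i ≠ j → a i ≠ b j) →
      b = a := by
    decide
  have inj : ∃ v, Function.Injective (φ v) := by
    by_contra hcon
    push Not at hcon
    apply hcol
    have hx : ∀ v, ∃ i j, φ v i = φ v j ∧ i ≠ j := by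
      intro v
      have := hcon v
      simp only [Function.Injective, not_forall] at this
      obtain ⟨i, j, h, hne⟩ := this
      exact ⟨i, j, h, hne⟩
    choose a b hab hne using hx
    refine ⟨⟨fun v => φ v (a v), ?_⟩⟩
    intro v w hvw heq
    have heq' : φ v (a v) = φ w (a w) := heq
    by_cases hc : a v = a w
    · have : a v ≠ b w := by rw [hc]; exact hne w
      refine h v w hvw _ _ this ?_
      rw [heq', hab w]
    · exact h v w hvw _ _ hc heq'
  obtain ⟨v₁, hv₁⟩ := inj
  have all : ∀ v w, G.Walk v w → Function.Injective (φ v) → φ w = φ v := by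
    intro v w p
    induction p with
    | nil => intro _; rfl
    | cons hadj p ih =>
      intro hinj
      have e1 := step _ _ hinj (fun i j hij => h _ _ hadj i j hij)
      rw [← e1] at hinj ⊢
      exact ih hinj
  obtain ⟨p⟩ := hG.preconnected v₁ v₀
  have e0 := all v₁ v₀ p hv₁
  have hid : φ v₁ = id := by
    rw [← e0] at hv₁ ⊢
    have : ∀ a : Fin 3 → Fin 3, Function.Injective a → a 0 = 0 → a 1 = 1 → a = id := by decide
    exact this _ hv₁ h0 h1
  intro v i
  obtain ⟨q⟩ := hG.preconnected v₁ v
  rw [all v₁ v q hv₁, hid]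
  rfl

/-! ### Elementary facts about the three relations -/

lemma const_of {W X : Type*} {H : SimpleGraph W} (hH : H.Preconnected) (g : H.Dart → X)
    (h1 : ∀ d d', (src H) d d' → g d = g d') (h2 : ∀ d d', (edg H) d d' → g d = g d') :
    ∀ d d', g d = g d' := by
  have h3 : sSup ({src H, edg H} : Set (Setoid H.Dart)) ≤ Setoid.ker g := by
    apply sSup_le
    intro θ hθ
    simp only [Set.mem_insert_iff, Set.mem_singleton_iff] at hθ
    rcases hθ with rfl | rfl
    · intro d d' h; exact h1 d d' h
    · intro d d' h; exact h2 d d' h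
  rw [sSup_top H hH] at h3
  intro d d'
  exact h3 (show (⊤ : Setoid H.Dart) d d' from trivial)

def side : Pt G v₀ → Bool
  | Sum.inl _ => true
  | Sum.inr _ => false

lemma relA_iff {a b : Pt G v₀} : (relA G v₀) a b ↔
    Sum.map (fun d => d.fst) (fun d => d.fst) a = Sum.map (fun d => d.fst) (fun d => d.fst) b :=
  Iff.rfl

lemma relB_iff {a b : Pt G v₀} : (relB G v₀) a b ↔
    Sum.map (fun d => d.edge) (fun d => d.edge) a =
      Sum.map (fun d => d.edge) (fun d => d.edge) b :=
  Iff.rfl

lemma relA_inl {x x' : G.Dart} : (relA G v₀) (Sum.inl x) (Sum.inl x') ↔ x.fst = x'.fst := by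
  rw [relA_iff]
  simp

lemma relA_inr {d d' : (cover G v₀).Dart} :
    (relA G v₀) (Sum.inr d) (Sum.inr d') ↔ d.fst = d'.fst := by
  rw [relA_iff]
  simp

lemma relB_inl {x x' : G.Dart} :
    (relB G v₀) (Sum.inl x) (Sum.inl x') ↔ x = x' ∨ x = x'.symm := by
  rw [← SimpleGraph.dart_edge_eq_iff, relB_iff]
  simp

lemma relB_inr {d d' : (cover G v₀).Dart} :
    (relB G v₀) (Sum.inr d) (Sum.inr d') ↔ d = d' ∨ d = d'.symm := by
  rw [← SimpleGraph.dart_edge_eq_iff, relB_iff]
  simp

lemma side_relA {a b : Pt G v₀} (h : (relA G v₀) a b) : side a = side b := by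
  rw [relA_iff] at h
  cases a <;> cases b <;> simp_all [side]

lemma side_relB {a b : Pt G v₀} (h : (relB G v₀) a b) : side a = side b := by
  rw [relB_iff] at h
  cases a <;> cases b <;> simp_all [side]

lemma relC_iff {a b : Pt G v₀} : (relC G v₀) a b ↔ shadow G v₀ a = shadow G v₀ b := Iff.rfl

/-- A lift of a dart of `G`. -/
def lift (x : G.Dart) : (cover G v₀).Dart :=
  ⟨((x.fst, 0), (x.snd, 1)), cover_adj_of x.adj (by decide)⟩

lemma shadow_inl (x : G.Dart) :
    shadow G v₀ (Sum.inl x) = ((x.fst, x.snd), none) := rfl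

lemma shadow_lift (x : G.Dart) :
    shadow G v₀ (Sum.inr (lift x)) = ((x.fst, x.snd), none) := by
  have h : x.fst ≠ x.snd := x.adj.ne
  simp [shadow, lift, h]

/-- The special dart. -/
def spec : (cover G v₀).Dart :=
  ⟨((v₀, 0), (v₀, 1)), Or.inr ⟨rfl, rfl, Or.inl ⟨rfl, rfl⟩⟩⟩

lemma cover_special {d : (cover G v₀).Dart} (h : d.fst.1 = d.snd.1) :
    d.fst.1 = v₀ ∧ d.snd.1 = v₀ ∧ ((d.fst.2 = 0 ∧ d.snd.2 = 1) ∨ (d.fst.2 = 1 ∧ d.snd.2 = 0)) := by
  rcases d.adj with ⟨h1, _⟩ | h1
  · exact absurd h h1.ne
  · exact h1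

lemma cover_ordinary {d : (cover G v₀).Dart} (h : d.fst.1 ≠ d.snd.1) :
    G.Adj d.fst.1 d.snd.1 ∧ d.fst.2 ≠ d.snd.2 := by
  rcases d.adj with h1 | ⟨h1, h2, _⟩
  · exact h1
  · exact absurd (h1.trans h2.symm) h

/-- A point with the shadow of a special dart is this dart. -/
lemma eq_of_shadow_special {d : (cover G v₀).Dart} (h : d.fst.1 = d.snd.1) {a : Pt G v₀}
    (ha : shadow G v₀ a = shadow G v₀ (Sum.inr d)) : a = Sum.inr d := by
  obtain ⟨h1, h2, h3⟩ := cover_special h
  cases a with
  | inl x =>
    simp [shadow, h] at ha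
  | inr e =>
    simp only [shadow, if_pos h, Prod.mk.injEq] at ha
    obtain ⟨⟨ha1, ha2⟩, ha3⟩ := ha
    have he : e.fst.1 = e.snd.1 := by rw [ha1, ha2, h]
    rw [if_pos he] at ha3
    have ha4 : e.fst.2 = d.fst.2 := Option.some.inj ha3
    obtain ⟨_, _, h6⟩ := cover_special he
    congr 1
    apply dart_ext
    · exact Prod.ext ha1 ha4
    · refine Prod.ext ha2 ?_
      rcases h3 with ⟨e1, e2⟩ | ⟨e1, e2⟩ <;> rcases h6 with ⟨e3, e4⟩ | ⟨e3, e4⟩
      · rw [e2, e4]
      · rw [ha4, e1] at e3; simp at e3
      · rw [ha4, e1] at e3; simp at e3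
      · rw [e2, e4]

lemma fst_of_shadow {d e : (cover G v₀).Dart}
    (h : shadow G v₀ (Sum.inr d) = shadow G v₀ (Sum.inr e)) :
    d.fst.1 = e.fst.1 ∧ d.snd.1 = e.snd.1 := by
  simp only [shadow, Prod.mk.injEq] at h
  exact h.1

/-- Endomorphisms of the cover that preserve shadows are trivial if `G` is not
3-colourable. -/
lemma rigid [Nontrivial V] (hG : G.Connected) (hcol : ¬ G.Colorable 3)
    (u : (cover G v₀).Dart → (cover G v₀).Dart)
    (hA : ∀ d d', d.fst = d'.fst → (u d).fst = (u d').fst)
    (hB : ∀ d, u d.symm = u d ∨ u d.symm = (u d).symm)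
    (hC : ∀ d, shadow G v₀ (Sum.inr (u d)) = shadow G v₀ (Sum.inr d)) :
    ∀ d, u d = d := by
  have hspec : ∀ d : (cover G v₀).Dart, d.fst.1 = d.snd.1 → u d = d := by
    intro d hd
    exact Sum.inr_injective (eq_of_shadow_special hd (hC d))
  have hex : ∀ p : V × Fin 3, ∃ d : (cover G v₀).Dart, d.fst = p := by
    intro p
    obtain ⟨c, _, hc⟩ := cover_two_nbrs (v₀ := v₀) hG p p
    exact ⟨⟨(p, c), hc⟩, rfl⟩
  choose δ hδ using hex
  let φ : V → Fin 3 → Fin 3 := fun v i => (u (δ (v, i))).fst.2
  have hu : ∀ d, (u d).fst = (d.fst.1, φ d.fst.1 d.fst.2) := by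
    intro d
    have e1 : (u d).fst = (u (δ d.fst)).fst := hA _ _ (hδ d.fst).symm
    refine Prod.ext ?_ ?_
    · exact (fst_of_shadow (hC d)).1
    · rw [e1]
  have hu2 : ∀ d, d.fst.1 ≠ d.snd.1 → (u d).snd = (d.snd.1, φ d.snd.1 d.snd.2) := by
    intro d hd
    have e1 := hu d.symm
    rcases hB d with h | h
    · exfalso
      rw [h, hu d] at e1
      exact hd (Prod.ext_iff.mp e1).1
    · rw [h] at e1
      exact e1
  have hφ : ∀ v w, G.Adj v w → ∀ i j, i ≠ j → φ v i ≠ φ w j := by
    intro v w hvw i j hij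
    let d : (cover G v₀).Dart := ⟨((v, i), (w, j)), cover_adj_of hvw hij⟩
    have hd : d.fst.1 ≠ d.snd.1 := hvw.ne
    have e1 := hu d
    have e2 := hu2 d hd
    have e3 : (u d).fst.1 ≠ (u d).snd.1 := by rw [e1, e2]; exact hd
    have e4 := (cover_ordinary e3).2
    rw [e1, e2] at e4
    exact e4
  have h0 : φ v₀ 0 = 0 := by
    have e1 := hu (spec : (cover G v₀).Dart)
    rw [hspec _ rfl] at e1
    exact (Prod.ext_iff.mp e1).2.symm
  have h1 : φ v₀ 1 = 1 := by
    have e1 := hu (spec : (cover G v₀).Dart).symm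
    rw [hspec _ rfl] at e1
    exact (Prod.ext_iff.mp e1).2.symm
  have hid := phi_id hG hcol φ hφ h0 h1
  intro d
  by_cases hd : d.fst.1 = d.snd.1
  · exact hspec d hd
  · apply dart_ext
    · rw [hu d, hid]
    · rw [hu2 d hd, hid]

/-! ### Non-colourable graphs have property (P) -/

lemma core [Nontrivial V] (hG : G.Connected) (hcol : ¬ G.Colorable 3)
    (f : Pt G v₀ → Pt G v₀ → Pt G v₀) (hid : ∀ x, f x x = x)
    (fA : Preserves f (relA G v₀)) (fB : Preserves f (relB G v₀))
    (fC : Preserves f (relC G v₀))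
    (hp : ∀ d d', f (Sum.inr d) (Sum.inr d') = Sum.inr d) : ∀ a b, f a b = a := by
  have hpc : (cover G v₀).Preconnected := cover_preconnected hG
  have rA := (relA G v₀).refl
  have rB := (relB G v₀).refl
  have rC := (relC G v₀).refl
  have eA : ∀ {x x' : (cover G v₀).Dart}, (src (cover G v₀)) x x' →
      (relA G v₀) (Sum.inr x) (Sum.inr x') := fun h => relA_inr.mpr h
  have eB : ∀ {x x' : (cover G v₀).Dart}, (edg (cover G v₀)) x x' →
      (relB G v₀) (Sum.inr x) (Sum.inr x') := fun h => relB_inr.mpr ((edg_iff _).mp h)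
  have gA : ∀ {x x' : G.Dart}, (src G) x x' →
      (relA G v₀) (Sum.inl x) (Sum.inl x') := fun h => relA_inl.mpr h
  have gB : ∀ {x x' : G.Dart}, (edg G) x x' →
      (relB G v₀) (Sum.inl x) (Sum.inl x') := fun h => relB_inl.mpr ((edg_iff _).mp h)
  -- (2) values `f (inr d) (inl x)`
  have h2 : ∀ (x : G.Dart) (d : (cover G v₀).Dart),
      shadow G v₀ (f (Sum.inr d) (Sum.inl x)) = shadow G v₀ (Sum.inr d) := by
    intro x d
    have e1 : (relC G v₀) (Sum.inl x) (Sum.inr (lift x)) := by
      rw [relC_iff, shadow_inl, shadow_lift]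
    have e2 := fC _ _ _ _ (rC (Sum.inr d)) e1
    rw [hp, relC_iff] at e2
    exact e2
  have h2s : ∀ (x : G.Dart), f (Sum.inr spec) (Sum.inl x) = Sum.inr spec := fun x =>
    eq_of_shadow_special rfl (h2 x spec)
  have h2side : ∀ (x : G.Dart) (d : (cover G v₀).Dart),
      side (f (Sum.inr d) (Sum.inl x)) = false := by
    intro x d
    have e1 := const_of hpc (fun d => side (f (Sum.inr d) (Sum.inl x)))
      (fun d d' h => side_relA (fA _ _ _ _ (eA h) (rA _)))
      (fun d d' h => side_relB (fB _ _ _ _ (eB h) (rB _))) d spec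
    have e2 : side (f (Sum.inr d) (Sum.inl x)) = side (f (Sum.inr spec) (Sum.inl x)) := e1
    rw [e2, h2s]
    rfl
  have h2u : ∀ (x : G.Dart) (d : (cover G v₀).Dart), ∃ e : (cover G v₀).Dart,
      f (Sum.inr d) (Sum.inl x) = Sum.inr e := by
    intro x d
    have := h2side x d
    cases h : f (Sum.inr d) (Sum.inl x) with
    | inl y => rw [h] at this; simp [side] at this
    | inr e => exact ⟨e, rfl⟩
  choose u hu using h2u
  have h2id : ∀ x d, f (Sum.inr d) (Sum.inl x) = Sum.inr d := by
    intro x d
    rw [hu x d]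
    congr 1
    refine rigid hG hcol (u x) ?_ ?_ ?_ d
    · intro d d' h
      have := fA _ _ _ _ (eA (x := d) (x' := d') h) (rA (Sum.inl x))
      rw [hu, hu] at this
      exact relA_inr.mp this
    · intro d
      have := fB _ _ _ _ (relB_inr.mpr (Or.inr rfl) : (relB G v₀) (Sum.inr d.symm) (Sum.inr d))
        (rB (Sum.inl x))
      rw [hu, hu] at this
      exact relB_inr.mp this
    · intro d
      have := h2 x d
      rw [hu] at this
      exact this
  -- (4) shadows of values at `inl x`
  have h4 : ∀ (x : G.Dart) (b : Pt G v₀), shadow G v₀ (f (Sum.inl x) b) =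
      ((x.fst, x.snd), none) := by
    intro x b
    have e1 : (relC G v₀) (Sum.inl x) (Sum.inr (lift x)) := by
      rw [relC_iff, shadow_inl, shadow_lift]
    cases b with
    | inl y =>
      have e2 := fC _ _ _ _ e1 (rC (Sum.inl y))
      rw [h2id, relC_iff, shadow_lift] at e2
      exact e2
    | inr d =>
      have e2 := fC _ _ _ _ e1 (rC (Sum.inr d))
      rw [hp, relC_iff, shadow_lift] at e2
      exact e2
  have h4' : ∀ (x : G.Dart) (b : Pt G v₀), side (f (Sum.inl x) b) = true →
      f (Sum.inl x) b = Sum.inl x := by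
    intro x b hb
    have h5 := h4 x b
    cases h : f (Sum.inl x) b with
    | inr e => rw [h] at hb; simp [side] at hb
    | inl y =>
      rw [h, shadow_inl] at h5
      congr 1
      have h6 := (Prod.ext_iff.mp h5).1
      exact SimpleGraph.Dart.ext _ _ h6
  have h4side : ∀ (x y : G.Dart), side (f (Sum.inl x) (Sum.inl y)) = true := by
    intro x y
    have e1 : side (f (Sum.inl x) (Sum.inl y)) = side (f (Sum.inl y) (Sum.inl y)) :=
      const_of hG.preconnected (fun x => side (f (Sum.inl x) (Sum.inl y)))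
      (fun d d' h => side_relA (fA _ _ _ _ (gA h) (rA _)))
      (fun d d' h => side_relB (fB _ _ _ _ (gB h) (rB _))) x y
    rw [e1, hid]
    rfl
  -- (5) the remaining values
  have h5 : ∀ (x : G.Dart) (d : (cover G v₀).Dart), side (f (Sum.inl x) (Sum.inr d)) = true := by
    by_contra hcon
    push Not at hcon
    obtain ⟨x₁, d₁, hx₁⟩ := hcon
    have hx₁' : side (f (Sum.inl x₁) (Sum.inr d₁)) = false := by simpa using hx₁
    have h6 : ∀ x : G.Dart, side (f (Sum.inl x) (Sum.inr d₁)) = false := by
      intro x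
      have e1 : side (f (Sum.inl x) (Sum.inr d₁)) = side (f (Sum.inl x₁) (Sum.inr d₁)) :=
        const_of hG.preconnected (fun x => side (f (Sum.inl x) (Sum.inr d₁)))
        (fun d d' h => side_relA (fA _ _ _ _ (gA h) (rA _)))
        (fun d d' h => side_relB (fB _ _ _ _ (gB h) (rB _))) x x₁
      rw [e1, hx₁']
    have h7 : ∀ x : G.Dart, ∃ e : (cover G v₀).Dart, f (Sum.inl x) (Sum.inr d₁) = Sum.inr e := by
      intro x
      have := h6 x
      cases h : f (Sum.inl x) (Sum.inr d₁) with
      | inl y => rw [h] at this; simp [side] at this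
      | inr e => exact ⟨e, rfl⟩
    choose k hk using h7
    apply hcol
    have hex : ∀ v : V, ∃ x : G.Dart, x.fst = v := by
      intro v
      obtain ⟨w, hw⟩ := exists_nbr hG v
      exact ⟨⟨(v, w), hw⟩, rfl⟩
    choose δ hδ using hex
    have hsh : ∀ x : G.Dart, (k x).fst.1 = x.fst ∧ (k x).snd.1 = x.snd := by
      intro x
      have := h4 x (Sum.inr d₁)
      rw [hk] at this
      simp only [shadow, Prod.mk.injEq] at this
      exact this.1
    refine ⟨⟨fun v => (k (δ v)).fst.2, ?_⟩⟩
    have key : ∀ x : G.Dart, (k x).fst.2 = (k (δ x.fst)).fst.2 := by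
      intro x
      have := fA _ _ _ _ (gA (x := x) (x' := δ x.fst) (hδ x.fst).symm) (rA (Sum.inr d₁))
      rw [hk, hk] at this
      rw [relA_inr.mp this]
    intro v w hvw heq
    have heq' : (k (δ v)).fst.2 = (k (δ w)).fst.2 := heq
    let x : G.Dart := ⟨(v, w), hvw⟩
    have k1 : (k x).fst.2 = (k (δ v)).fst.2 := key x
    have k2 : (k x.symm).fst.2 = (k (δ w)).fst.2 := key x.symm
    have k3 := fB _ _ _ _ (relB_inl.mpr (Or.inr rfl) : (relB G v₀) (Sum.inl x.symm) (Sum.inl x))
        (rB (Sum.inr d₁))
    rw [hk, hk] at k3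
    have hne : (k x).fst.1 ≠ (k x).snd.1 := by
      rw [(hsh x).1, (hsh x).2]; exact hvw.ne
    rcases relB_inr.mp k3 with h | h
    · have e1 := (hsh x.symm).1
      rw [h, (hsh x).1] at e1
      exact hvw.ne e1
    · rw [h] at k2
      have e2 : (k x).symm.fst.2 = (k x).snd.2 := rfl
      rw [e2] at k2
      exact (cover_ordinary hne).2 (k1.trans (heq'.trans k2.symm))
  intro a b
  cases a with
  | inl x =>
    cases b with
    | inl y => exact h4' x _ (h4side x y)
    | inr d => exact h4' x _ (h5 x d)
  | inr d =>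
    cases b with
    | inl y => exact h2id y d
    | inr d' => exact hp d d'

theorem propertyP_of_not_colorable [Finite V] [Nontrivial V] (hG : G.Connected)
    (hcol : ¬ G.Colorable 3) :
    PropertyP ({relA G v₀, relB G v₀, relC G v₀} : Set (Setoid (Pt G v₀))) := by
  intro f hid hf
  have fA := hf (relA G v₀) (by simp)
  have fB := hf (relB G v₀) (by simp)
  have fC := hf (relC G v₀) (by simp)
  have hpc : (cover G v₀).Preconnected := cover_preconnected hG
  have rA := (relA G v₀).refl
  have rB := (relB G v₀).refl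
  have eA : ∀ {x x' : (cover G v₀).Dart}, (src (cover G v₀)) x x' →
      (relA G v₀) (Sum.inr x) (Sum.inr x') := fun h => relA_inr.mpr h
  have eB : ∀ {x x' : (cover G v₀).Dart}, (edg (cover G v₀)) x x' →
      (relB G v₀) (Sum.inr x) (Sum.inr x') := fun h => relB_inr.mpr ((edg_iff _).mp h)
  have hg : ∀ d d' : (cover G v₀).Dart, ∃ e : (cover G v₀).Dart,
      f (Sum.inr d) (Sum.inr d') = Sum.inr e := by
    intro d d'
    have e1 : side (f (Sum.inr d) (Sum.inr d')) = side (f (Sum.inr d) (Sum.inr d)) :=
      const_of hpc (fun e => side (f (Sum.inr d) (Sum.inr e)))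
      (fun _ _ h => side_relA (fA _ _ _ _ (rA _) (eA h)))
      (fun _ _ h => side_relB (fB _ _ _ _ (rB _) (eB h))) d' d
    rw [hid] at e1
    cases h : f (Sum.inr d) (Sum.inr d') with
    | inl y => rw [h] at e1; simp [side] at e1
    | inr e => exact ⟨e, rfl⟩
  choose g hg using hg
  have hgP := propertyP (cover G v₀) hpc ⟨spec⟩
    (fun a b _ => cover_two_nbrs (v₀ := v₀) hG a b) g (by
      intro d
      have := hg d d
      rw [hid] at this
      exact (Sum.inr_injective this).symm) (by
      intro θ hθ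
      simp only [Set.mem_insert_iff, Set.mem_singleton_iff] at hθ
      rcases hθ with rfl | rfl
      · intro x x' y y' hx hy
        have := fA _ _ _ _ (eA hx) (eA hy)
        rw [hg, hg] at this
        exact relA_inr.mp this
      · intro x x' y y' hx hy
        have := fB _ _ _ _ (eB hx) (eB hy)
        rw [hg, hg] at this
        exact (edg_iff _).mpr (relB_inr.mp this))
  rcases hgP with h | h
  · left
    exact core hG hcol f hid fA fB fC (fun d d' => by rw [hg, h])
  · right
    have := core hG hcol (fun x y => f y x) hid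
      (fun x x' y y' h h' => fA y y' x x' h' h) (fun x x' y y' h h' => fB y y' x x' h' h)
      (fun x x' y y' h h' => fC y y' x x' h' h) (fun d d' => by
        show f (Sum.inr d') (Sum.inr d) = Sum.inr d
        rw [hg, h])
    exact fun x y => this y x

/-! ### Colourable graphs fail property (P) -/

theorem not_propertyP_of_colorable [Nontrivial V] (hG : G.Connected)
    (hcol : G.Colorable 3) :
    ¬ PropertyP ({relA G v₀, relB G v₀, relC G v₀} : Set (Setoid (Pt G v₀))) := by
  obtain ⟨κ⟩ := hcol
  let h : G.Dart → (cover G v₀).Dart := fun x =>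
    ⟨((x.fst, κ x.fst), (x.snd, κ x.snd)), cover_adj_of x.adj (κ.valid x.adj)⟩
  let f : Pt G v₀ → Pt G v₀ → Pt G v₀ := fun a b =>
    match a, b with
    | Sum.inl x, Sum.inr _ => Sum.inr (h x)
    | a, _ => a
  have hsh : ∀ x : G.Dart, shadow G v₀ (Sum.inr (h x)) = shadow G v₀ (Sum.inl x) := by
    intro x
    have : x.fst ≠ x.snd := x.adj.ne
    simp [shadow, h, this]
  have fsh : ∀ a b, shadow G v₀ (f a b) = shadow G v₀ a := by
    intro a b
    cases a with
    | inl x =>
      cases b with
      | inl y => rfl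
      | inr d => exact hsh x
    | inr d => rfl
  intro hP
  obtain ⟨v⟩ := (inferInstance : Nonempty V)
  obtain ⟨w, hw⟩ := exists_nbr hG v
  let x₀ : G.Dart := ⟨(v, w), hw⟩
  rcases hP f (by intro a; cases a <;> rfl) (by
    intro θ hθ
    simp only [Set.mem_insert_iff, Set.mem_singleton_iff] at hθ
    rcases hθ with rfl | rfl | rfl
    · intro a a' b b' ha hb
      have sa := side_relA ha
      have sb := side_relA hb
      cases a with
      | inl x =>
        cases a' with
        | inr d => simp [side] at sa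
        | inl x' =>
          cases b with
          | inl y =>
            cases b' with
            | inr d => simp [side] at sb
            | inl y' => exact ha
          | inr y =>
            cases b' with
            | inl d => simp [side] at sb
            | inr y' =>
              show (relA G v₀) (Sum.inr (h x)) (Sum.inr (h x'))
              rw [relA_inr]
              have := relA_inl.mp ha
              show (x.fst, κ x.fst) = (x'.fst, κ x'.fst)
              rw [this]
      | inr d =>
        cases a' with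
        | inl x => simp [side] at sa
        | inr d' => exact ha
    · intro a a' b b' ha hb
      have sa := side_relB ha
      have sb := side_relB hb
      cases a with
      | inl x =>
        cases a' with
        | inr d => simp [side] at sa
        | inl x' =>
          cases b with
          | inl y =>
            cases b' with
            | inr d => simp [side] at sb
            | inl y' => exact ha
          | inr y =>
            cases b' with
            | inl d => simp [side] at sb
            | inr y' =>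
              show (relB G v₀) (Sum.inr (h x)) (Sum.inr (h x'))
              rw [relB_inr]
              rcases relB_inl.mp ha with e | e
              · left; rw [e]
              · right; rw [e]; rfl
      | inr d =>
        cases a' with
        | inl x => simp [side] at sa
        | inr d' => exact ha
    · intro a a' b b' ha hb
      rw [relC_iff, fsh, fsh]
      exact ha) with h1 | h1
  · have := h1 (Sum.inl x₀) (Sum.inr spec)
    simp [f] at this
  · have := h1 (Sum.inl x₀) (Sum.inl x₀.symm)
    have e : x₀ = x₀.symm := Sum.inl_injective this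
    have e2 : v = w := congrArg (fun d : G.Dart => d.fst) e
    exact hw.ne e2

theorem main [Finite V] [Nontrivial V] (hG : G.Connected) :
    PropertyP ({relA G v₀, relB G v₀, relC G v₀} : Set (Setoid (Pt G v₀))) ↔
      ¬ G.Colorable 3 :=
  ⟨fun h hc => not_propertyP_of_colorable hG hc h, propertyP_of_not_colorable hG⟩

/-! ### The number of points -/

lemma card_cover_dart [Finite V] : Nat.card (cover G v₀).Dart = 6 * Nat.card G.Dart + 2 := by
  have : Finite G.Dart := Finite.of_injective (fun d : G.Dart => d.toProd)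
    (fun a b h => SimpleGraph.Dart.ext _ _ h)
  let g : (G.Dart × {p : Fin 3 × Fin 3 // p.1 ≠ p.2}) ⊕ Bool → (cover G v₀).Dart := fun a =>
    match a with
    | Sum.inl (x, p) => ⟨((x.fst, p.1.1), (x.snd, p.1.2)), cover_adj_of x.adj p.2⟩
    | Sum.inr true => spec
    | Sum.inr false => spec.symm
  have hg : Function.Bijective g := by
    constructor
    · intro a b hab
      have h1 : (g a).fst = (g b).fst := by rw [hab]
      have h2 : (g a).snd = (g b).snd := by rw [hab]
      rcases a with ⟨x, p⟩ | a <;> rcases b with ⟨y, q⟩ | b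
      · have e1 : x = y := dart_ext G (Prod.ext_iff.mp h1).1 (Prod.ext_iff.mp h2).1
        have e2 : p = q := Subtype.ext (Prod.ext (Prod.ext_iff.mp h1).2 (Prod.ext_iff.mp h2).2)
        rw [e1, e2]
      · exfalso
        have e1 : x.fst = v₀ := by
          cases b
          · exact (Prod.ext_iff.mp h1).1
          · exact (Prod.ext_iff.mp h1).1
        have e2 : x.snd = v₀ := by
          cases b
          · exact (Prod.ext_iff.mp h2).1
          · exact (Prod.ext_iff.mp h2).1
        exact x.adj.ne (e1.trans e2.symm)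
      · exfalso
        have e1 : v₀ = y.fst := by
          cases a
          · exact (Prod.ext_iff.mp h1).1
          · exact (Prod.ext_iff.mp h1).1
        have e2 : v₀ = y.snd := by
          cases a
          · exact (Prod.ext_iff.mp h2).1
          · exact (Prod.ext_iff.mp h2).1
        exact y.adj.ne (e1.symm.trans e2)
      · cases a <;> cases b
        · rfl
        · exfalso
          have := (Prod.ext_iff.mp h1).2
          exact absurd this (by decide : (1 : Fin 3) ≠ 0)
        · exfalso
          have := (Prod.ext_iff.mp h1).2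
          exact absurd this (by decide : (0 : Fin 3) ≠ 1)
        · rfl
    · intro d
      by_cases hd : d.fst.1 = d.snd.1
      · obtain ⟨h1, h2, h3 | h3⟩ := cover_special hd
        · refine ⟨Sum.inr true, ?_⟩
          apply dart_ext
          · exact Prod.ext h1.symm h3.1.symm
          · exact Prod.ext h2.symm h3.2.symm
        · refine ⟨Sum.inr false, ?_⟩
          apply dart_ext
          · exact Prod.ext h1.symm h3.1.symm
          · exact Prod.ext h2.symm h3.2.symm
      · obtain ⟨h1, h2⟩ := cover_ordinary hd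
        exact ⟨Sum.inl (⟨(d.fst.1, d.snd.1), h1⟩, ⟨(d.fst.2, d.snd.2), h2⟩), rfl⟩
  rw [← Nat.card_congr (Equiv.ofBijective g hg), Nat.card_sum, Nat.card_prod]
  have e1 : Nat.card {p : Fin 3 × Fin 3 // p.1 ≠ p.2} = 6 := by
    rw [Nat.card_eq_fintype_card]; decide
  have e2 : Nat.card Bool = 2 := by rw [Nat.card_eq_fintype_card]; decide
  rw [e1, e2]
  ring

lemma card_pt [Finite V] : Nat.card (Pt G v₀) = 14 * Nat.card G.edgeSet + 2 := by
  have : Finite G.Dart := Finite.of_injective (fun d : G.Dart => d.toProd)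
    (fun a b h => SimpleGraph.Dart.ext _ _ h)
  have : Finite (cover G v₀).Dart := Finite.of_injective (fun d => d.toProd)
    (fun a b h => SimpleGraph.Dart.ext _ _ h)
  have := Fintype.ofFinite V
  have e1 : Nat.card G.Dart = 2 * Nat.card G.edgeSet := by
    rw [Nat.card_eq_fintype_card, Nat.card_eq_fintype_card, G.dart_card_eq_twice_card_edges,
      SimpleGraph.edgeFinset_card]
  rw [Nat.card_sum, card_cover_dart, e1]
  ring

end Pool.Agent.Helper70.ThreeCol
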